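import Pool.Agent.Lib.MP_fecf72_lc.Club

namespace Pool.Agent.Lib.MP_fecf72_lc

open Filter Set

/-- Cantor space. -/
abbrev Cs : Type := ℕ → Bool

variable {U : Type 1}

/-- A forcing order; its field is the set of `p` with `R p p`. -/
structure Fo (R : U → U → Prop) : Prop where
  tr : ∀ {p q r}, R p q → R q r → R p r
  l : ∀ {p q}, R p q → R p p
  r : ∀ {p q}, R p q → R q q

/-- Dense sets. -/
def Dn (R : U → U → Prop) (D : Set U) : Prop := ∀ p, R p p → ∃ q ∈ D, R q p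

/-- Filters. -/
def IsF (R : U → U → Prop) (G : Set U) : Prop :=
  (∀ p ∈ G, ∀ q, R p q → q ∈ G) ∧ ∀ p ∈ G, ∀ q ∈ G, ∃ r ∈ G, R r p ∧ R r q

/-- Comeager many filters. -/
def Gen (R : U → U → Prop) : Filter (Set U) where
  sets := {A | ∃ D : ℕ → Set U, (∀ n, Dn R (D n)) ∧
    ∀ G, IsF R G → (∀ n, ∃ d ∈ D n, d ∈ G) → G ∈ A}
  univ_sets := ⟨fun _ => univ, fun _ p hp => ⟨p, trivial, hp⟩, fun _ _ _ => trivial⟩
  sets_of_superset := fun ⟨D, h, h'⟩ hs => ⟨D, h, fun G h1 h2 => hs (h' G h1 h2)⟩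
  inter_sets := fun ⟨D, h, h'⟩ ⟨E, k, k'⟩ =>
    ⟨fun n => if n % 2 = 0 then D (n / 2) else E (n / 2), fun n => by
      dsimp only; split_ifs; exacts [h _, k _], fun G h1 h2 =>
      ⟨h' G h1 fun n => by simpa using h2 (2 * n), k' G h1 fun n => by
        have e1 : (2 * n + 1) % 2 ≠ 0 := by omega
        have e2 : (2 * n + 1) / 2 = n := by omega
        simpa [e1, e2] using h2 (2 * n + 1)⟩⟩

variable {R : U → U → Prop}

instance : CountableInterFilter (Gen R) := by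
  refine ⟨fun S hS h => ?_⟩
  rcases S.eq_empty_or_nonempty with rfl | hne
  · simp
  obtain ⟨f, rfl⟩ := hS.exists_eq_range hne
  choose D hD hD' using fun n => h _ ⟨n, rfl⟩
  refine ⟨fun n => D n.unpair.1 n.unpair.2, fun n => hD _ _, fun G h1 h2 => ?_⟩
  rintro _ ⟨n, rfl⟩
  exact hD' n G h1 fun m => by simpa using h2 (Nat.pair n m)

theorem gen_isF : ∀ᶠ G in Gen R, IsF R G :=
  ⟨fun _ => univ, fun _ p hp => ⟨p, trivial, hp⟩, fun _ h _ => h⟩

theorem gen_dn {D : Set U} (h : Dn R D) : ∀ᶠ G in Gen R, ∃ d ∈ D, d ∈ G :=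
  ⟨fun _ => D, fun _ => h, fun _ _ h => h 0⟩

theorem IsF.self {G : Set U} (hR : Fo R) (h : IsF R G) {p : U} (hp : p ∈ G) : R p p :=
  let ⟨_, _, h1, _⟩ := h.2 p hp p hp; hR.r h1

theorem exists_gen (hR : Fo R) {φ : Set U → Prop} (h : ∀ᶠ G in Gen R, φ G) {p : U} (hp : R p p) :
    ∃ G, p ∈ G ∧ φ G := by
  obtain ⟨D, hD, h⟩ := h
  choose! f hf hf' using hD
  let s : ℕ → U := fun n => Nat.rec p (fun n q => f n q) n
  have hs : ∀ n, R (s n) (s n) := by
    intro n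
    induction n with
    | zero => exact hp
    | succ n ih => exact hR.l (hf' n _ ih)
  have hm : ∀ n m, n ≤ m → R (s m) (s n) := by
    intro n m hnm
    induction hnm with
    | refl => exact hs n
    | step _ ih => exact hR.tr (hf' _ _ (hs _)) ih
  refine ⟨{q | ∃ n, R (s n) q}, ⟨0, hp⟩, h _ ⟨?_, ?_⟩ fun n => 
    ⟨s (n + 1), hf n _ (hs n), n + 1, hs (n + 1)⟩⟩
  · rintro a ⟨n, hn⟩ q hq
    exact ⟨n, hR.tr hn hq⟩
  · rintro a ⟨n, hn⟩ b ⟨m, hm'⟩
    exact ⟨s (max n m), ⟨_, hs _⟩, hR.tr (hm _ _ (le_max_left _ _)) hn,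
      hR.tr (hm _ _ (le_max_right _ _)) hm'⟩

/-- Forcing of an arbitrary property of the filter. -/
def Frc (R : U → U → Prop) (p : U) (φ : Set U → Prop) : Prop := ∀ᶠ G in Gen R, p ∈ G → φ G

variable {p q : U} {φ ψ : Set U → Prop}

theorem Frc.of_ev (h : ∀ᶠ G in Gen R, φ G) : Frc R p φ := h.mono fun _ h _ => h

theorem Frc.mono (h : Frc R p φ) (k : ∀ G, IsF R G → p ∈ G → φ G → ψ G) : Frc R p ψ := by
  filter_upwards [h, gen_isF] with G h1 h2 hp using k G h2 hp (h1 hp)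

theorem frc_of_all (k : ∀ G, IsF R G → p ∈ G → ψ G) : Frc R p ψ :=
  gen_isF.mono fun G h hp => k G h hp

theorem Frc.le (h : Frc R p φ) (k : R q p) : Frc R q φ := by
  filter_upwards [h, gen_isF] with G h1 h2 hq using h1 (h2.1 q hq p k)

theorem Frc.and (h : Frc R p φ) (k : Frc R p ψ) : Frc R p fun G => φ G ∧ ψ G := by
  filter_upwards [h, k] with G h1 h2 hp using ⟨h1 hp, h2 hp⟩

theorem frc_all {ι : Type*} [Countable ι] {φ : ι → Set U → Prop} (h : ∀ i, Frc R p (φ i)) :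
    Frc R p fun G => ∀ i, φ i G :=
  (eventually_countable_forall.2 h).mono fun _ h hp i => h i hp

theorem Frc.exists (hR : Fo R) (h : Frc R p φ) (hp : R p p) : ∃ G, IsF R G ∧ p ∈ G ∧ φ G :=
  let ⟨G, h1, h2, h3⟩ := exists_gen hR (gen_isF.and h) hp; ⟨G, h2, h1, h3 h1⟩

theorem Frc.elim (hR : Fo R) {c : Prop} (h : Frc R p fun _ => c) (hp : R p p) : c :=
  let ⟨_, _, _, h⟩ := h.exists hR hp; h

theorem frc_mem (h : R q p) : Frc R q fun G => p ∈ G := frc_of_all fun _ hG hq => hG.1 q hq p h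

theorem Frc.compat (hR : Fo R) (h : Frc R q fun G => p ∈ G) (hq : R q q) :
    ∃ r, R r q ∧ R r p :=
  let ⟨_, hG, h1, h2⟩ := h.exists hR hq
  let ⟨r, _, h3⟩ := hG.2 q h1 p h2; ⟨r, h3⟩

theorem frc_meet (hR : Fo R) {A : Set U} (h : ∀ r, R r p → ∃ s ∈ A, ∃ t, R t r ∧ R t s) :
    Frc R p fun G => ∃ s ∈ A, s ∈ G := by
  have hD : Dn R {t | (∃ s ∈ A, R t s) ∨ ∀ r, R r t → ¬ R r p} := by
    intro a ha
    by_cases hc : ∃ r, R r a ∧ R r p
    · obtain ⟨r, h1, h2⟩ := hc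
      obtain ⟨s, hs, t, h3, h4⟩ := h r h2
      exact ⟨t, Or.inl ⟨s, hs, h4⟩, hR.tr h3 h1⟩
    · exact ⟨a, Or.inr fun r h1 h2 => hc ⟨r, h1, h2⟩, ha⟩
  filter_upwards [gen_dn hD, gen_isF] with G ⟨t, ht, htG⟩ hG hp
  rcases ht with ⟨s, hs, h1⟩ | ht
  · exact ⟨s, hs, hG.1 t htG s h1⟩
  · obtain ⟨r, -, h1, h2⟩ := hG.2 t htG p hp
    exact (ht r h1 h2).elim

theorem exists_antichain (A : Set U) : ∃ B ⊆ A,
    (∀ a ∈ B, ∀ b ∈ B, ∀ r, R r a → R r b → a = b) ∧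
      ∀ a ∈ A, R a a → ∃ b ∈ B, ∃ r, R r a ∧ R r b := by
  obtain ⟨B, hB⟩ := zorn_subset {B | B ⊆ A ∧ ∀ a ∈ B, ∀ b ∈ B, ∀ r, R r a → R r b → a = b} (by
    intro c hc hch
    refine ⟨⋃₀ c, ⟨sUnion_subset fun t ht => (hc ht).1, ?_⟩, fun s hs => subset_sUnion_of_mem hs⟩
    rintro a ⟨s, hs, ha⟩ b ⟨t, ht, hb⟩
    rcases hch.total hs ht with h | h
    · exact (hc ht).2 a (h ha) b hb
    · exact (hc hs).2 a ha b (h hb))
  refine ⟨B, hB.prop.1, hB.prop.2, fun a ha haa => ?_⟩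
  by_contra hc
  have hm : insert a B ∈ {B | B ⊆ A ∧ ∀ a ∈ B, ∀ b ∈ B, ∀ r, R r a → R r b → a = b} := by
    refine ⟨insert_subset ha hB.prop.1, ?_⟩
    rintro x (rfl | hx) y (rfl | hy) r h1 h2
    · rfl
    · exact (hc ⟨y, hy, r, h1, h2⟩).elim
    · exact (hc ⟨x, hx, r, h2, h1⟩).elim
    · exact hB.prop.2 x hx y hy r h1 h2
  have := hB.le_of_ge hm (subset_insert a B)
  exact hc ⟨a, this (mem_insert a B), a, haa, haa⟩

theorem frc_of_dense (hR : Fo R) (h : ∀ r, R r p → ∃ s, R s r ∧ Frc R s φ) : Frc R p φ := by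
  obtain ⟨B, hB, hB1, hB2⟩ := exists_antichain (R := R) {s | Frc R s φ}
  choose! D hD hD' using fun b (hb : b ∈ B) => hB hb
  have hE : ∀ n, Dn R {t | (∃ b ∈ B, R t b ∧ ∃ d ∈ D b n, R t d) ∨ ∀ r, R r t → ¬ R r p} := by
    intro n a ha
    by_cases hc : ∃ r, R r a ∧ R r p
    · obtain ⟨r, h1, h2⟩ := hc
      obtain ⟨s, h3, h4⟩ := h r h2
      obtain ⟨b, hb, t, h5, h6⟩ := hB2 s h4 (hR.l h3)
      obtain ⟨d, hd, h7⟩ := hD b hb n t (hR.l h5)
      exact ⟨d, Or.inl ⟨b, hb, hR.tr h7 h6, d, hd, hR.l h7⟩, hR.tr h7 (hR.tr h5 (hR.tr h3 h1))⟩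
    · exact ⟨a, Or.inr fun r h1 h2 => hc ⟨r, h1, h2⟩, ha⟩
  refine ⟨_, hE, fun G hG h1 hp => ?_⟩
  have h2 : ∀ n, ∃ b ∈ B, b ∈ G ∧ ∃ d ∈ D b n, d ∈ G := by
    intro n
    obtain ⟨t, ht | ht, htG⟩ := h1 n
    · obtain ⟨b, hb, h3, d, hd, h4⟩ := ht
      exact ⟨b, hb, hG.1 t htG b h3, d, hd, hG.1 t htG d h4⟩
    · obtain ⟨r, -, h3, h4⟩ := hG.2 t htG p hp
      exact (ht r h3 h4).elim
  obtain ⟨b, hb, hbG, -⟩ := h2 0
  refine hD' b hb G hG (fun n => ?_) hbG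
  obtain ⟨b', hb', hbG', h3⟩ := h2 n
  obtain ⟨r, -, h4, h5⟩ := hG.2 b hbG b' hbG'
  rwa [hB1 b hb b' hb' r h4 h5]

/-- Sets of conditions, with the sigma algebra that only looks at conditions in `S`. -/
structure Fl (S : Set U) : Type 1 where
  g : Set U

instance (S : Set U) : MeasurableSpace (Fl S) :=
  MeasurableSpace.generateFrom {t | ∃ A ⊆ S, t = {G : Fl S | ∃ s ∈ A, s ∈ G.g}}

/-- Names as measurable functions of the filter. -/
def Ms (S : Set U) {T : Type*} [MeasurableSpace T] (f : Set U → T) : Prop :=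
  Measurable fun G : Fl S => f G.g

section
variable {S : Set U} {T T' : Type*} [MeasurableSpace T] [MeasurableSpace T']

theorem ms_open {A : Set U} (h : A ⊆ S) : Ms S fun G => ∃ s ∈ A, s ∈ G :=
  measurableSet_setOfPred.1 (MeasurableSpace.measurableSet_generateFrom ⟨A, h, rfl⟩)

theorem ms_open' (A : U → Prop) (h : ∀ s, A s → s ∈ S) : Ms S fun G => ∃ s ∈ G, A s := by
  have := ms_open (A := {s | A s}) h
  simpa only [mem_ofPred_eq, and_comm] using this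

theorem ms_mem (h : p ∈ S) : Ms S fun G => p ∈ G := by
  have := ms_open (A := {p}) (singleton_subset_iff.2 h)
  simpa using this

theorem ms_const (c : T) : Ms S fun _ => c := measurable_const

theorem Ms.comp {f : Set U → T} (hf : Ms S f) {g : T → T'} (hg : Measurable g) :
    Ms S fun G => g (f G) := hg.comp hf

theorem Ms.prod {f : Set U → T} {g : Set U → T'} (hf : Ms S f) (hg : Ms S g) :
    Ms S fun G => (f G, g G) := Measurable.prodMk hf hg

theorem ms_pi {ι : Type*} {f : Set U → ι → T} (h : ∀ i, Ms S fun G => f G i) : Ms S f :=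
  measurable_pi_lambda _ h

theorem Ms.app {ι : Type*} {f : Set U → ι → T} (h : Ms S f) (i : ι) : Ms S fun G => f G i :=
  h.comp (measurable_pi_apply i)

theorem Ms.and (h : Ms S φ) (k : Ms S ψ) : Ms S fun G => φ G ∧ ψ G := Measurable.and h k
theorem Ms.or (h : Ms S φ) (k : Ms S ψ) : Ms S fun G => φ G ∨ ψ G := Measurable.or h k
theorem Ms.imp (h : Ms S φ) (k : Ms S ψ) : Ms S fun G => φ G → ψ G := Measurable.imp h k
theorem Ms.not (h : Ms S φ) : Ms S fun G => ¬ φ G := Measurable.not h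
theorem ms_all {ι : Sort*} [Countable ι] {φ : ι → Set U → Prop} (h : ∀ i, Ms S (φ i)) :
    Ms S fun G => ∀ i, φ i G := Measurable.forall h
theorem ms_ex {ι : Sort*} [Countable ι] {φ : ι → Set U → Prop} (h : ∀ i, Ms S (φ i)) :
    Ms S fun G => ∃ i, φ i G := Measurable.exists h

theorem meas_id_mono {S' : Set U} (h : S ⊆ S') : Measurable fun G : Fl S' => (⟨G.g⟩ : Fl S) := by
  refine measurable_generateFrom ?_
  rintro _ ⟨A, hA, rfl⟩
  exact MeasurableSpace.measurableSet_generateFrom ⟨A, hA.trans h, rfl⟩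

theorem Ms.mono {S' : Set U} {f : Set U → T} (hf : Ms S f) (h : S ⊆ S') : Ms S' f :=
  Measurable.comp (g := fun G : Fl S => f G.g) hf (meas_id_mono h)

theorem Ms.loc [MeasurableSingletonClass T] {f : Set U → T} (hf : Ms S f) (G : Set U) :
    f (G ∩ S) = f G := by
  have key : ∀ t : Set (Fl S), MeasurableSet t → ((⟨G ∩ S⟩ : Fl S) ∈ t ↔ (⟨G⟩ : Fl S) ∈ t) := by
    intro t ht
    induction t, ht using MeasurableSpace.generateFrom_induction with
    | hC t ht =>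
      obtain ⟨A, hA, rfl⟩ := ht
      exact ⟨fun ⟨s, h1, h2⟩ => ⟨s, h1, h2.1⟩, fun ⟨s, h1, h2⟩ => ⟨s, h1, h2, hA h1⟩⟩
    | empty => exact Iff.rfl
    | compl t _ ih => exact not_congr ih
    | iUnion s _ ih => exact mem_iUnion.trans ((exists_congr ih).trans mem_iUnion.symm)
  exact (key _ (hf (measurableSet_singleton (f G)))).2 rfl

theorem Ms.dec (hR : Fo R) (h : Ms S φ) (hp : R p p) :
    ∃ q, R q p ∧ (Frc R q φ ∨ Frc R q fun G => ¬ φ G) := by
  have key : ∀ t : Set (Fl S), MeasurableSet t → ∀ p, R p p →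
      ∃ q, R q p ∧ (Frc R q (fun G => (⟨G⟩ : Fl S) ∈ t) ∨ Frc R q fun G => (⟨G⟩ : Fl S) ∉ t) := by
    intro t ht
    induction t, ht using MeasurableSpace.generateFrom_induction with
    | hC t ht =>
      obtain ⟨A, -, rfl⟩ := ht
      intro p hp
      by_cases hc : ∃ s ∈ A, ∃ r, R r p ∧ R r s
      · obtain ⟨s, hs, r, h1, h2⟩ := hc
        exact ⟨r, h1, Or.inl ((frc_mem h2).mono fun G _ _ h => ⟨s, hs, h⟩)⟩
      · refine ⟨p, hp, Or.inr (frc_of_all fun G hG hpG ⟨s, hs, hsG⟩ => ?_)⟩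
        obtain ⟨r, -, h1⟩ := hG.2 p hpG s hsG
        exact hc ⟨s, hs, r, h1⟩
    | empty => exact fun p hp => ⟨p, hp, Or.inr (frc_of_all fun _ _ _ h => h)⟩
    | compl t _ ih =>
      intro p hp
      obtain ⟨q, h1, h2 | h2⟩ := ih p hp
      · exact ⟨q, h1, Or.inr (h2.mono fun _ _ _ h k => k h)⟩
      · exact ⟨q, h1, Or.inl h2⟩
    | iUnion s _ ih =>
      intro p hp
      by_cases hc : ∃ n q, R q p ∧ Frc R q fun G => (⟨G⟩ : Fl S) ∈ s n
      · obtain ⟨n, q, h1, h2⟩ := hc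
        exact ⟨q, h1, Or.inl (h2.mono fun _ _ _ h => mem_iUnion.2 ⟨n, h⟩)⟩
      · refine ⟨p, hp, Or.inr ((frc_all (φ := fun n G => (⟨G⟩ : Fl S) ∉ s n) fun n => ?_).mono
          fun _ _ _ h k => let ⟨n, hn⟩ := mem_iUnion.1 k; h n hn)⟩
        refine frc_of_dense hR fun r hr => ?_
        obtain ⟨q, h1, h2 | h2⟩ := ih n r (hR.l hr)
        · exact (hc ⟨n, q, hR.tr h1 hr, h2⟩).elim
        · exact ⟨q, h1, h2⟩
  exact key _ (measurableSet_setOfPred.2 h) p hp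

theorem Ms.of_not_frc (hR : Fo R) (h : Ms S φ) (k : ¬ Frc R p φ) :
    ∃ q, R q p ∧ Frc R q fun G => ¬ φ G := by
  by_contra hc
  refine k (frc_of_dense hR fun r hr => ?_)
  obtain ⟨q, h1, h2 | h2⟩ := h.dec hR (hR.l hr)
  · exact ⟨q, h1, h2⟩
  · exact (hc ⟨q, hR.tr h1 hr, h2⟩).elim

theorem Frc.ex (hR : Fo R) {ι : Type*} [Countable ι] {φ : ι → Set U → Prop}
    (h : Frc R p fun G => ∃ i, φ i G) (hm : ∀ i, Ms S (φ i)) (hp : R p p) :
    ∃ q i, R q p ∧ Frc R q (φ i) := by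
  by_contra hc
  have : Frc R p fun G => ∀ i, ¬ φ i G := frc_all fun i => by
    by_contra k
    obtain ⟨q, h1, h2⟩ := (hm i).not.of_not_frc hR k
    exact hc ⟨q, i, h1, h2.mono fun _ _ _ h => not_not.1 h⟩
  exact ((h.and this).mono fun _ _ _ ⟨⟨i, h1⟩, h2⟩ => h2 i h1).elim hR hp

theorem Ms.dec_val (hR : Fo R) {ι : Type*} [Countable ι] [MeasurableSpace ι]
    [MeasurableSingletonClass ι] {f : Set U → ι} (h : Ms S f) (hp : R p p) :
    ∃ q i, R q p ∧ Frc R q fun G => f G = i :=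
  Frc.ex (S := S) hR (φ := fun i G => f G = i) (frc_of_all fun G _ _ => ⟨f G, rfl⟩)
    (fun i => measurableSet_setOfPred.1 (h (measurableSet_singleton i))) hp

end

/-- Names for points of Cantor space. -/
abbrev Nam (U : Type 1) : Type 1 := Set (U × ℕ)

open Classical in
/-- The value of a name. -/
noncomputable def ev (ρ : Nam U) (G : Set U) : Cs := fun n => decide (∃ p ∈ G, (p, n) ∈ ρ)

theorem ev_true {ρ : Nam U} {G : Set U} {n : ℕ} : ev ρ G n = true ↔ ∃ p ∈ G, (p, n) ∈ ρ := by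
  simp [ev]

/-- The name only mentions conditions in `S`. -/
def Sup (S : Set U) (ρ : Nam U) : Prop := ∀ x ∈ ρ, x.1 ∈ S

theorem meas_bool {α : Type*} [MeasurableSpace α] {f : α → Bool}
    (h : Measurable fun a => f a = true) : Measurable f :=
  measurable_to_bool (measurableSet_setOfPred.2 h)

theorem ms_ev {S : Set U} {ρ : Nam U} (h : Sup S ρ) : Ms S (ev ρ) :=
  ms_pi fun n => meas_bool (by
    simp only [ev_true]
    exact ms_open' (fun p => (p, n) ∈ ρ) fun s hs => h _ hs)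

theorem ms_ev' (ρ : Nam U) : Ms univ (ev ρ) := ms_ev fun _ _ => trivial

/-- The canonical name of a measurable function of the filter. -/
def nameOf (R : U → U → Prop) (f : Set U → Cs) : Nam U :=
  {x | R x.1 x.1 ∧ Frc R x.1 fun G => f G x.2 = true}

theorem ev_nameOf (hR : Fo R) {S : Set U} {f : Set U → Cs} (hf : Ms S f) :
    Frc R p fun G => ev (nameOf R f) G = f G := by
  refine (frc_all (φ := fun n G => ev (nameOf R f) G n = f G n) fun n => ?_).mono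
    fun _ _ _ h => funext h
  refine frc_of_dense hR fun r hr => ?_
  obtain ⟨q, b, h1, h2⟩ := (hf.app n).dec_val hR (hR.l hr)
  refine ⟨q, h1, h2.mono fun G hG hq h => ?_⟩
  rw [h]
  cases b
  · rw [Bool.eq_false_iff]
    intro k
    obtain ⟨s, hs, -, k⟩ := ev_true.1 k
    obtain ⟨t, -, h3, h4⟩ := hG.2 q hq s hs
    exact (((h2.le h3).and (k.le h4)).mono fun _ _ _ h => by
      simpa [h.1] using h.2 : Frc R t fun _ => False).elim hR (hR.l h3)
  · exact ev_true.2 ⟨q, hq, hR.l h1, h2⟩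

theorem meas_nat {α : Type*} [MeasurableSpace α] {f : α → ℕ}
    (h : ∀ n, Measurable fun a => f a = n) : Measurable f :=
  measurable_to_countable' fun n => measurableSet_setOfPred.2 (h n)

theorem meas_sInf {α : Type*} [MeasurableSpace α] {P : ℕ → α → Prop}
    (h : ∀ n, Measurable (P n)) : Measurable fun a => sInf {n | P n a} := by
  refine meas_nat fun n => ?_
  have : (fun a => sInf {n | P n a} = n) =
      fun a => (P n a ∧ ∀ m, m < n → ¬ P m a) ∨ (n = 0 ∧ ∀ m, ¬ P m a) := by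
    funext a
    apply propext
    constructor
    · rintro rfl
      by_cases hc : ∃ m, P m a
      · exact Or.inl ⟨Nat.sInf_mem (s := {n | P n a}) hc, fun m hm => Nat.notMem_of_lt_sInf hm⟩
      · have : {n | P n a} = ∅ := eq_empty_of_forall_notMem fun m hm => hc ⟨m, hm⟩
        exact Or.inr ⟨by rw [this, Nat.sInf_empty], fun m hm => hc ⟨m, hm⟩⟩
    · rintro (⟨h1, h2⟩ | ⟨rfl, h2⟩)
      · exact le_antisymm (Nat.sInf_le h1) (not_lt.1 fun k =>
          h2 _ k (Nat.sInf_mem (s := {n | P n a}) ⟨n, h1⟩))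
      · have : {n | P n a} = ∅ := eq_empty_of_forall_notMem h2
        rw [this, Nat.sInf_empty]
  rw [this]
  exact ((h n).and (Measurable.forall fun m => measurable_const.imp (h m).not)).or
    (measurable_const.and (Measurable.forall fun m => (h m).not))

theorem meas_ctbl {α β ι : Type*} [MeasurableSpace α] [MeasurableSpace β] [MeasurableSpace ι]
    [Countable ι] [MeasurableSingletonClass ι] {f : ι → α → β} {g : α → ι}
    (hf : ∀ i, Measurable (f i)) (hg : Measurable g) : Measurable fun a => f (g a) a := by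
  intro t ht
  have : (fun a => f (g a) a) ⁻¹' t = ⋃ i, g ⁻¹' {i} ∩ f i ⁻¹' t := by
    ext a; simp
  rw [this]
  exact MeasurableSet.iUnion fun i => (hg (measurableSet_singleton i)).inter (hf i ht)

theorem ms_sInf {S : Set U} {P : ℕ → Set U → Prop} (h : ∀ n, Ms S (P n)) :
    Ms S fun G => sInf {n | P n G} := meas_sInf h

theorem ms_ctbl {S : Set U} {β ι : Type*} [MeasurableSpace β] [MeasurableSpace ι]
    [Countable ι] [MeasurableSingletonClass ι] {f : ι → Set U → β} {g : Set U → ι}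
    (hf : ∀ i, Ms S (f i)) (hg : Ms S g) : Ms S fun G => f (g G) G :=
  meas_ctbl (f := fun i (G : Fl S) => f i G.g) hf hg

/-- Mixing. -/
theorem mix (hR : Fo R) (A : U → (ℕ → ℕ) → Prop) :
    ∃ f : Set U → ℕ → ℕ, Ms {s | R s s} f ∧ ∀ r x, R r r → A r x →
      ∃ s a y, R s r ∧ R s a ∧ A a y ∧ Frc R s fun G => f G = y := by
  obtain ⟨B, hB, hB1, hB2⟩ := exists_antichain (R := R) {s | R s s ∧ ∃ x, A s x}
  choose! hB0 c hc using fun b (hb : b ∈ B) => hB hb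
  refine ⟨fun G n => sInf {m | ∃ b ∈ G, b ∈ B ∧ c b n = m},
    ms_pi fun n => ms_sInf fun m => ms_open' _ fun s hs => hB0 s hs.1, fun r x hr hx => ?_⟩
  obtain ⟨b, hb, s, h1, h2⟩ := hB2 r ⟨hr, x, hx⟩ hr
  refine ⟨s, b, c b, h1, h2, hc b hb, frc_of_all fun G hG hs => funext fun n => ?_⟩
  have hbG := hG.1 s hs b h2
  have : {m | ∃ b ∈ G, b ∈ B ∧ c b n = m} = {c b n} := by
    ext m
    refine ⟨?_, fun h => ⟨b, hbG, hb, h.symm⟩⟩
    rintro ⟨b', h3, h4, rfl⟩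
    obtain ⟨t, -, h5, h6⟩ := hG.2 b hbG b' h3
    rw [hB1 b hb b' h4 t h5 h6]
    rfl
  simp only [this, csInf_singleton]

/-- The filter meets the dense sets of the hull inside the hull. -/
def GenN (N : Set Wd) (R : U → U → Prop) (G : Set U) : Prop :=
  ∀ D : Set U, In N D → Dn R D → ∃ d ∈ D, d ∈ G ∧ In N d

theorem club_reflect : ∀ᶠ N in Club, ∀ (R : U → U → Prop) (p : U) (φ : Set U → Prop) (G : Set U),
    In N R → In N p → In N φ → Frc R p φ → IsF R G → GenN N R G → p ∈ G → φ G := by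
  filter_upwards [sk3 fun (R : U → U → Prop) (p : U) (φ : Set U → Prop) (D : ℕ → Set U) =>
    (∀ n, Dn R (D n)) ∧ ∀ G, IsF R G → (∀ n, ∃ d ∈ D n, d ∈ G) → p ∈ G → φ G,
    clo1n fun (D : ℕ → Set U) n => D n] with N h1 h2 R p φ G hR hp hφ h hG hN hpG
  obtain ⟨D, hD, h3, h4⟩ := h1 R p φ hR hp hφ h
  refine h4 G hG (fun n => ?_) hpG
  obtain ⟨d, h5, h6, -⟩ := hN _ (h2 D hD n) (h3 n)
  exact ⟨d, h5, h6⟩

theorem club_meet : ∀ᶠ N in Club, ∀ (R : U → U → Prop) (A G : Set U), Fo R →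
    In N R → In N A → IsF R G → GenN N R G → (∃ s ∈ A, s ∈ G) →
      ∃ t, t ∈ G ∧ In N t ∧ ∃ s ∈ A, In N s ∧ R t s := by
  filter_upwards [clo2 fun (R : U → U → Prop) (A : Set U) =>
    {t | (∃ s ∈ A, R t s) ∨ ∀ s ∈ A, ∀ r, R r t → ¬ R r s},
    sk3 fun (R : U → U → Prop) (A : Set U) (t s : U) => s ∈ A ∧ R t s]
    with N h1 h2 R A G hF hR hA hG hN ⟨s, hs, hsG⟩
  obtain ⟨t, ht | ht, htG, htN⟩ := hN _ (h1 R A hR hA) (by
    intro a ha
    by_cases hc : ∃ s ∈ A, ∃ r, R r a ∧ R r s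
    · obtain ⟨s, hs, r, h3, h4⟩ := hc
      exact ⟨r, Or.inl ⟨s, hs, h4⟩, h3⟩
    · exact ⟨a, Or.inr fun s hs r h3 h4 => hc ⟨s, hs, r, h3, h4⟩, ha⟩)
  · obtain ⟨s', h3, h4, h5⟩ := h2 R A t hR hA htN ht
    exact ⟨t, htG, htN, s', h4, h3, h5⟩
  · obtain ⟨r, -, h3, h4⟩ := hG.2 t htG s hsG
    exact (ht s hs r h3 h4).elim

theorem club_meet' : ∀ᶠ N in Club, ∀ (R : U → U → Prop) (A G : Set U), Fo R →
    In N R → In N A → IsF R G → GenN N R G → (∃ s ∈ A, s ∈ G) →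
      ∃ s ∈ A, s ∈ G ∧ In N s := by
  filter_upwards [club_meet] with N h R A G hF hR hA hG hN hs
  obtain ⟨t, h1, -, s, h2, h3, h4⟩ := h R A G hF hR hA hG hN hs
  exact ⟨s, h2, hG.1 t h1 s h4, h3⟩

/-- Truth lemma for measurable properties in the hull. -/
theorem club_truth : ∀ᶠ N in Club, ∀ (R : U → U → Prop) (φ : Set U → Prop) (G : Set U), Fo R →
    In N R → In N φ → Ms univ φ → IsF R G → GenN N R G →
      ((∃ p ∈ G, Frc R p φ) → φ G) ∧ (φ G → ∃ p ∈ G, In N p ∧ Frc R p φ) := by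
  filter_upwards [club_reflect, club_meet',
    clo2 fun (R : U → U → Prop) (φ : Set U → Prop) => {p | Frc R p φ},
    clo2 fun (R : U → U → Prop) (φ : Set U → Prop) => {p | Frc R p φ ∨ Frc R p fun G => ¬ φ G},
    clo1 fun (φ : Set U → Prop) (G : Set U) => ¬ φ G]
    with N h1 h2 h3 h4 h5 R φ G hF hR hφ hm hG hN
  refine ⟨fun ⟨p, hp, h⟩ => ?_, fun h => ?_⟩
  · obtain ⟨s, h6, h7, h8⟩ := h2 R _ G hF hR (h3 R φ hR hφ) hG hN ⟨p, h, hp⟩
    exact h1 R s φ G hR h8 hφ h6 hG hN h7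
  · obtain ⟨d, hd | hd, h6, h7⟩ := hN _ (h4 R φ hR hφ) fun a ha =>
      let ⟨q, h1, h2⟩ := hm.dec hF ha; ⟨q, h2, h1⟩
    · exact ⟨d, h6, h7, hd⟩
    · exact (h1 R d _ G hR h7 (h5 φ hφ) hd hG hN h6 h).elim

theorem frc_genN_iff (hR : Fo R) {N : Set Wd} (hN : N.Countable) : Frc R p (GenN N R) ↔
    ∀ D : Set U, In N D → Dn R D → ∀ r, R r p → ∃ d ∈ D, In N d ∧ ∃ t, R t r ∧ R t d := by
  constructor
  · intro h D h1 h2 r hr
    obtain ⟨G, hG, h3, h4⟩ := (h.le hr).exists hR (hR.l hr)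
    obtain ⟨d, h5, h6, h7⟩ := h4 D h1 h2
    obtain ⟨t, -, h8⟩ := hG.2 r h3 d h6
    exact ⟨d, h5, h7, t, h8⟩
  · intro h
    have : Countable {D : Set U // In N D} := (countable_In (Set U) hN).to_subtype
    refine (frc_all (φ := fun (D : {D : Set U // In N D}) G =>
      Dn R D.1 → ∃ d ∈ D.1, d ∈ G ∧ In N d) fun D => ?_).mono fun G _ _ k D hD => k ⟨D, hD⟩
    by_cases hD : Dn R D.1
    · refine (frc_meet hR (A := {d | d ∈ D.1 ∧ In N d}) fun r hr => ?_).mono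
        fun G _ _ ⟨s, h1, h2⟩ _ => ⟨s, h1.1, h2, h1.2⟩
      obtain ⟨d, h1, h2, h3⟩ := h D.1 D.2 hD r hr
      exact ⟨d, ⟨h1, h2⟩, h3⟩
    · exact frc_of_all fun _ _ _ k => (hD k).elim

end Pool.Agent.Lib.MP_fecf72_lc
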