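import Mathlib

namespace Pool.Agent.Lib.MP_fecf72_lc

open Filter Set

universe u v w x y

/-- All objects of all types of the third universe. -/
abbrev Wd : Type 3 := Σ T : Type 2, T

/-- Types whose elements are viewed inside `Wd`. -/
class Srt (T : Type u) where
  emb : T → Wd
  inj : Function.Injective emb

instance srt0 (T : Type) : Srt T :=
  ⟨fun a => ⟨ULift.{2} T, ⟨a⟩⟩, fun _ _ h => by
    simpa using eq_of_heq (Sigma.mk.inj_iff.1 h).2⟩

instance srt1 (T : Type 1) : Srt T :=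
  ⟨fun a => ⟨ULift.{2} T, ⟨a⟩⟩, fun _ _ h => by
    simpa using eq_of_heq (Sigma.mk.inj_iff.1 h).2⟩

instance srt2 (T : Type 2) : Srt T :=
  ⟨fun a => ⟨T, a⟩, fun _ _ h => eq_of_heq (Sigma.mk.inj_iff.1 h).2⟩

/-- The object `a` belongs to the hull `N`. -/
def In {T : Type u} (N : Set Wd) (a : T) [Srt T] : Prop := Srt.emb a ∈ N

/-- Closure under a binary operation with countably many values. -/
def Clsd (F : Wd → Wd → ℕ → Wd) (N : Set Wd) : Prop := ∀ a ∈ N, ∀ b ∈ N, ∀ n, F a b n ∈ N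

/-- The club filter on countable sets of objects. -/
def Club : Filter (Set Wd) where
  sets := {A | ∃ F, ∀ N : Set Wd, N.Countable → N.Nonempty → Clsd F N → N ∈ A}
  univ_sets := ⟨fun a _ _ => a, fun _ _ _ _ => mem_univ _⟩
  sets_of_superset := fun ⟨F, h⟩ hs => ⟨F, fun N h1 h2 h3 => hs (h N h1 h2 h3)⟩
  inter_sets := fun ⟨F, h⟩ ⟨F', h'⟩ =>
    ⟨fun a b n => if n % 2 = 0 then F a b (n / 2) else F' a b (n / 2), fun N h1 h2 h3 =>
      ⟨h N h1 h2 fun a ha b hb n => by
        have := h3 a ha b hb (2 * n)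
        simpa using this,
       h' N h1 h2 fun a ha b hb n => by
        have := h3 a ha b hb (2 * n + 1)
        have e1 : (2 * n + 1) % 2 ≠ 0 := by omega
        have e2 : (2 * n + 1) / 2 = n := by omega
        simpa [e1, e2] using this⟩⟩

theorem club_iInter {p : ℕ → Set Wd → Prop} (h : ∀ n, ∀ᶠ N in Club, p n N) :
    ∀ᶠ N in Club, ∀ n, p n N := by
  choose F hF using h
  refine ⟨fun a b n => F n.unpair.1 a b n.unpair.2, fun N h1 h2 h3 n => hF n N h1 h2 ?_⟩
  intro a ha b hb m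
  simpa using h3 a ha b hb (Nat.pair n m)

instance : CountableInterFilter Club := by
  refine ⟨fun S hS h => ?_⟩
  rcases S.eq_empty_or_nonempty with rfl | hne
  · simp
  obtain ⟨f, rfl⟩ := hS.exists_eq_range hne
  have := club_iInter (p := fun n N => N ∈ f n) fun n => h _ ⟨n, rfl⟩
  filter_upwards [this] with N hN
  simpa using hN

theorem club_all {ι : Type u} [Countable ι] {p : ι → Set Wd → Prop}
    (h : ∀ n, ∀ᶠ N in Club, p n N) : ∀ᶠ N in Club, ∀ n, p n N :=
  eventually_countable_forall.2 h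

instance : NeBot Club := by
  refine ⟨fun hb => ?_⟩
  have : (∅ : Set (Set Wd)) ∈ Club := by rw [hb]; exact mem_bot
  obtain ⟨F, h⟩ := this
  let a0 : Wd := ⟨PUnit, ⟨⟩⟩
  let s : ℕ → Set Wd := fun n => Nat.rec {a0}
    (fun _ t => t ∪ ⋃ a ∈ t, ⋃ b ∈ t, range (F a b)) n
  have hs : ∀ n, (s n).Countable := by
    intro n
    induction n with
    | zero => exact countable_singleton _
    | succ n ih => exact ih.union (ih.biUnion fun a _ => ih.biUnion fun b _ => countable_range _)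
  have hm : Monotone s := monotone_nat_of_le_succ fun n => subset_union_left
  refine h (⋃ n, s n) (countable_iUnion hs) ⟨a0, mem_iUnion.2 ⟨0, rfl⟩⟩ ?_
  intro a ha b hb n
  obtain ⟨i, hi⟩ := mem_iUnion.1 ha
  obtain ⟨j, hj⟩ := mem_iUnion.1 hb
  refine mem_iUnion.2 ⟨max i j + 1, Or.inr ?_⟩
  simp only [mem_iUnion]
  exact ⟨a, hm (le_max_left _ _) hi, b, hm (le_max_right _ _) hj, n, rfl⟩

theorem club_countable : ∀ᶠ N in Club, N.Countable := ⟨fun a _ _ => a, fun _ h _ _ => h⟩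

section
variable {A : Type u} {B : Type v} {C : Type w} {D : Type x}

theorem countable_In (A : Type u) [Srt A] {N : Set Wd} (h : N.Countable) : {a : A | In N a}.Countable :=
  h.preimage_of_injOn Srt.inj.injOn

theorem clo0 (a : A) [Srt A] : ∀ᶠ N in Club, In N a :=
  ⟨fun _ _ _ => Srt.emb a, fun _ _ ⟨b, hb⟩ h => h b hb b hb 0⟩

theorem clo2n (f : A → B → ℕ → C) [Srt A] [Srt B] [Srt C] :
    ∀ᶠ N in Club, ∀ a b, In N a → In N b → ∀ n, In N (f a b n) := by
  classical
  refine ⟨fun x y n => if h : (∃ a : A, Srt.emb a = x) ∧ ∃ b : B, Srt.emb b = y then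
    Srt.emb (f h.1.choose h.2.choose n) else x, fun N _ _ h3 a b ha hb n => ?_⟩
  have h : (∃ a' : A, Srt.emb a' = Srt.emb a) ∧ ∃ b' : B, Srt.emb b' = Srt.emb b :=
    ⟨⟨a, rfl⟩, b, rfl⟩
  have := h3 _ ha _ hb n
  simp only [dif_pos h] at this
  rwa [Srt.inj h.1.choose_spec, Srt.inj h.2.choose_spec] at this

theorem clo2 (f : A → B → C) [Srt A] [Srt B] [Srt C] :
    ∀ᶠ N in Club, ∀ a b, In N a → In N b → In N (f a b) :=
  (clo2n fun a b _ => f a b).mono fun _ h a b ha hb => h a b ha hb 0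

theorem clo1n (f : A → ℕ → C) [Srt A] [Srt C] :
    ∀ᶠ N in Club, ∀ a, In N a → ∀ n, In N (f a n) :=
  (clo2n fun a (_ : A) n => f a n).mono fun _ h a ha => h a a ha ha

theorem clo1 (f : A → C) [Srt A] [Srt C] : ∀ᶠ N in Club, ∀ a, In N a → In N (f a) :=
  (clo2 fun a (_ : A) => f a).mono fun _ h a ha => h a a ha ha

theorem clo_ctbl (A : Type u) [Srt A] [Countable A] : ∀ᶠ N in Club, ∀ a : A, In N a :=
  club_all fun a => clo0 a

theorem clo3 {E : Type} [Countable E] (f : A → B → E → C) [Srt A] [Srt B] [Srt C] :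
    ∀ᶠ N in Club, ∀ a b e, In N a → In N b → In N (f a b e) :=
  (club_all fun e => clo2 fun a b => f a b e).mono fun _ h a b e => h e a b

theorem sk1 (r : A → B → Prop) [Srt A] [Srt B] :
    ∀ᶠ N in Club, ∀ a, In N a → (∃ b, r a b) → ∃ b, In N b ∧ r a b := by
  classical
  by_cases hB : Nonempty B
  · filter_upwards [clo1 fun a => Classical.epsilon (r a)] with N h a ha hb
    exact ⟨_, h a ha, Classical.epsilon_spec hb⟩
  · exact Eventually.of_forall fun N a _ ⟨b, _⟩ => (hB ⟨b⟩).elim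

theorem sk2 (r : A → B → C → Prop) [Srt A] [Srt B] [Srt C] :
    ∀ᶠ N in Club, ∀ a b, In N a → In N b → (∃ c, r a b c) → ∃ c, In N c ∧ r a b c := by
  classical
  by_cases hC : Nonempty C
  · filter_upwards [clo2 fun a b => Classical.epsilon (r a b)] with N h a b ha hb hc
    exact ⟨_, h a b ha hb, Classical.epsilon_spec hc⟩
  · exact Eventually.of_forall fun N a b _ _ ⟨c, _⟩ => (hC ⟨c⟩).elim

/-- Countable sets in the hull are included in the hull. -/
theorem clo_sub (f : A → Set B) (hf : ∀ a, (f a).Countable) [Srt A] [Srt B] :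
    ∀ᶠ N in Club, ∀ a, In N a → ∀ b ∈ f a, In N b := by
  classical
  by_cases hB : Nonempty B
  · have : ∀ a, ∃ g : ℕ → B, f a ⊆ range g := fun a =>
      ⟨_, subset_range_enumerate (hf a) hB.some⟩
    choose g hg using this
    filter_upwards [clo1n g] with N h a ha b hb
    obtain ⟨n, rfl⟩ := hg a hb
    exact h a ha n
  · exact Eventually.of_forall fun N a _ b _ => (hB ⟨b⟩).elim

end

/-- Pairs. -/
theorem clo_pair (A : Type u) (B : Type v) [Srt A] [Srt B] [Srt (A × B)] :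
    ∀ᶠ N in Club, ∀ (a : A) (b : B), In N (a, b) ↔ In N a ∧ In N b := by
  filter_upwards [clo2 (Prod.mk : A → B → A × B), clo1 (Prod.fst : A × B → A),
    clo1 (Prod.snd : A × B → B)] with N h1 h2 h3 a b
  exact ⟨fun h => ⟨h2 _ h, h3 _ h⟩, fun h => h1 a b h.1 h.2⟩

theorem clo3' {A : Type u} {B : Type v} {C : Type w} {D : Type x} (f : A → B → C → D)
    [Srt A] [Srt B] [Srt C] [Srt D] [Srt (A × B)] :
    ∀ᶠ N in Club, ∀ a b c, In N a → In N b → In N c → In N (f a b c) := by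
  filter_upwards [clo_pair A B, clo2 fun (p : A × B) c => f p.1 p.2 c]
    with N h1 h2 a b c ha hb hc
  exact h2 (a, b) c ((h1 a b).2 ⟨ha, hb⟩) hc

theorem sk3 {A : Type u} {B : Type v} {C : Type w} {D : Type x} (r : A → B → C → D → Prop)
    [Srt A] [Srt B] [Srt C] [Srt D] [Srt (A × B)] :
    ∀ᶠ N in Club, ∀ a b c, In N a → In N b → In N c → (∃ d, r a b c d) →
      ∃ d, In N d ∧ r a b c d := by
  filter_upwards [clo_pair A B, sk2 fun (p : A × B) c d => r p.1 p.2 c d]
    with N h1 h2 a b c ha hb hc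
  exact h2 (a, b) c ((h1 a b).2 ⟨ha, hb⟩) hc

theorem clo4 {A : Type u} {B : Type v} {C : Type w} {D : Type x} {E : Type y}
    (f : A → B → C → D → E) [Srt A] [Srt B] [Srt C] [Srt D] [Srt E] [Srt (A × B)] [Srt (C × D)] :
    ∀ᶠ N in Club, ∀ a b c d, In N a → In N b → In N c → In N d → In N (f a b c d) := by
  filter_upwards [clo_pair A B, clo_pair C D,
    clo2 fun (p : A × B) (q : C × D) => f p.1 p.2 q.1 q.2] with N h1 h1' h2 a b c d ha hb hc hd
  exact h2 (a, b) (c, d) ((h1 a b).2 ⟨ha, hb⟩) ((h1' c d).2 ⟨hc, hd⟩)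

theorem sk4 {A : Type u} {B : Type v} {C : Type w} {D : Type x} {E : Type y}
    (r : A → B → C → D → E → Prop) [Srt A] [Srt B] [Srt C] [Srt D] [Srt E] [Srt (A × B)]
    [Srt (C × D)] : ∀ᶠ N in Club, ∀ a b c d, In N a → In N b → In N c → In N d →
      (∃ e, r a b c d e) → ∃ e, In N e ∧ r a b c d e := by
  filter_upwards [clo_pair A B, clo_pair C D,
    sk2 fun (p : A × B) (q : C × D) e => r p.1 p.2 q.1 q.2 e] with N h1 h1' h2 a b c d ha hb hc hd
  exact h2 (a, b) (c, d) ((h1 a b).2 ⟨ha, hb⟩) ((h1' c d).2 ⟨hc, hd⟩)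

end Pool.Agent.Lib.MP_fecf72_lc
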