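import Pool.Agent.Lib.MP_fecf72_lc.Gen

namespace Pool.Agent.Lib.MP_fecf72_lc

open Set Cardinal

/-- The ordinals of the first universe: coordinates and codes of conditions. -/
abbrev U0 : Type 1 := Ordinal.{0}

/-- Small sequences of names. -/
def Sm (f : U0 → Nam U0) : Prop := Small.{0} {x : U0 × U0 × ℕ | x.2 ∈ f x.1}

theorem exists_emb {T : Type 1} (h : #T ≤ Cardinal.univ.{0, 1}) : Nonempty (T ↪ U0) := by
  rw [← Cardinal.le_def, mk_ordinal]; exact h

theorem univ_mul : Cardinal.univ.{0, 1} * Cardinal.univ.{0, 1} = Cardinal.univ.{0, 1} := mul_eq_self aleph0_lt_univ.le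

theorem exists_dec : ∃ dec : U0 → U0 → Nam U0, (∀ u, Sm (dec u)) ∧ ∀ f, Sm f → ∃ u, dec u = f := by
  obtain ⟨e⟩ := exists_emb (T := U0 × U0 × ℕ) (by
    simp only [mk_prod, mk_ordinal, lift_id, mk_nat, lift_aleph0, lift_uzero]
    rw [mul_eq_left aleph0_lt_univ.le aleph0_lt_univ.le aleph0_ne_zero, univ_mul])
  obtain ⟨j⟩ := exists_emb (T := Σ o : U0, Set (Iio o)) (by
    rw [mk_sigma]
    refine (sum_le_sum _ (fun _ => Cardinal.univ.{0, 1}) fun o => ?_).trans (by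
      rw [sum_const', mk_ordinal, univ_mul])
    have := (small_iff_lift_mk_lt_univ.{1, 0} (α := Set (Iio o))).1 inferInstance
    rw [Cardinal.lift_id] at this
    exact this.le)
  let D : (Σ o : U0, Set (Iio o)) → U0 → Nam U0 := fun s β => {x | e (β, x) ∈ Subtype.val '' s.2}
  have : Nonempty (Σ o : U0, Set (Iio o)) := ⟨⟨0, ∅⟩⟩
  refine ⟨fun u => D (Function.invFun j u), fun u => ?_, fun f hf => ?_⟩
  · exact small_of_injective (β := Subtype.val '' (Function.invFun j u).2)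
      (f := fun x => ⟨e x.1, x.2⟩) fun a b h => Subtype.ext (e.injective (congrArg Subtype.val h))
  · have := hf
    rw [Sm] at this
    obtain ⟨o, ho⟩ := Ordinal.bddAbove_of_small (s := e '' {x : U0 × U0 × ℕ | x.2 ∈ f x.1})
    refine ⟨j ⟨o + 1, {a | a.1 ∈ e '' {x : U0 × U0 × ℕ | x.2 ∈ f x.1}}⟩, ?_⟩
    dsimp only
    rw [Function.leftInverse_invFun j.injective]
    ext β x
    constructor
    · rintro ⟨a, ⟨y, h1, h2⟩, h3⟩
      obtain rfl := e.injective (h2.trans h3)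
      exact h1
    · intro h
      exact ⟨⟨e (β, x), Order.lt_add_one_iff.2 (ho ⟨_, h, rfl⟩)⟩, ⟨_, h, rfl⟩, rfl⟩

/-- Decoding. -/
noncomputable def dec : U0 → U0 → Nam U0 := exists_dec.choose

theorem sm_dec (u : U0) : Sm (dec u) := exists_dec.choose_spec.1 u

/-- Encoding. -/
noncomputable def enc : (U0 → Nam U0) → U0 := Function.invFun dec

theorem dec_enc {f : U0 → Nam U0} (h : Sm f) : dec (enc f) = f :=
  Function.invFun_eq (exists_dec.choose_spec.2 f h)

theorem sm_of_cover {ι : Type} {g : ι → U0 → Nam U0} (hg : ∀ i, Sm (g i)) {f : U0 → Nam U0}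
    (h : ∀ β, ∀ x ∈ f β, ∃ i, x ∈ g i β) : Sm f := by
  have : ∀ i, Small.{0} {x : U0 × U0 × ℕ | x.2 ∈ g i x.1} := hg
  exact small_subset (s := ⋃ i, {x : U0 × U0 × ℕ | x.2 ∈ g i x.1}) fun x hx =>
    mem_iUnion.2 (h _ _ hx)

theorem Sm.mono {g f : U0 → Nam U0} (hg : Sm g) (h : ∀ β, f β ⊆ g β) : Sm f :=
  sm_of_cover (ι := Unit) (fun _ => hg) fun β _ hx => ⟨(), h β hx⟩

theorem Sm.union {g g' f : U0 → Nam U0} (hg : Sm g) (hg' : Sm g') (h : ∀ β, f β ⊆ g β ∪ g' β) :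
    Sm f :=
  sm_of_cover (ι := Bool) (g := fun b => if b then g else g') (by rintro (_ | _) <;> simpa)
    fun β _ hx => (h β hx).elim (fun k => ⟨true, k⟩) fun k => ⟨false, k⟩

theorem sm_single (β : U0) (τ : Nam U0) [Small.{0} τ] : Sm fun γ => {x | γ = β ∧ x ∈ τ} :=
  small_subset (s := (fun x => (β, x)) '' τ) fun x hx => ⟨x.2, hx.2, by rw [← hx.1]⟩

theorem exists_bk : ∃ bk : U0 → U0, ∀ u β, ∃ γ, β ≤ γ ∧ bk γ = u := by
  obtain ⟨e⟩ := exists_emb (T := U0 × U0) (by simp [univ_mul])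
  refine ⟨fun γ => (Function.invFun e γ).1, fun u β => ?_⟩
  by_contra hc
  refine not_small_ordinal.{0, 0} (small_of_injective (β := Iio β)
    (f := fun v => ⟨e (u, v), not_le.1 fun k => hc ⟨_, k, ?_⟩⟩) fun a b h => ?_)
  · dsimp only
    rw [Function.leftInverse_invFun e.injective]
  · simpa using h

/-- Bookkeeping. -/
noncomputable def bk : U0 → U0 := exists_bk.choose

theorem bk_spec (u β : U0) : ∃ γ, β ≤ γ ∧ bk γ = u := exists_bk.choose_spec u β

end Pool.Agent.Lib.MP_fecf72_lc
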