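import Pool.Agent.Lib.MP_fecf72_lc.Gen

namespace Pool.Agent.Lib.MP_fecf72_lc

open Set

/-- Nodes: finite sequences of guesses. -/
abbrev Nd : Type := List (List Bool)

/-- Initial segment. -/
def res (n : ℕ) (y : Cs) : List Bool := (List.range n).map y

theorem res_eq {n : ℕ} {y z : Cs} : res n y = res n z ↔ ∀ i < n, y i = z i := by
  simp [res, List.map_inj_left]

/-- The node guesses `y` at level `n`. -/
def Hit (t : Nd) (n : ℕ) (y : Cs) : Prop := t[n]? = some (res (n + 1) y)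

/-- Separated below `k`. -/
def Sep (k : ℕ) (z y : Cs) : Prop := ∃ i < k, z i ≠ y i

theorem Sep.mono {k k' : ℕ} {z y : Cs} (h : Sep k z y) (hk : k ≤ k') : Sep k' z y :=
  let ⟨i, h1, h2⟩ := h; ⟨i, h1.trans_le hk, h2⟩

theorem Hit.lt {t : Nd} {n : ℕ} {y : Cs} (h : Hit t n y) : n < t.length := by
  by_contra hc
  rw [Hit, List.getElem?_eq_none (not_lt.1 hc)] at h
  cases h

theorem hit_pre {t t' : Nd} (h : t <+: t') {n : ℕ} (hn : n < t.length) {y : Cs} :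
    Hit t' n y ↔ Hit t n y := by
  obtain ⟨u, rfl⟩ := h
  simp [Hit, List.getElem?_append_left hn]

theorem Hit.pre {t t' : Nd} {n : ℕ} {y : Cs} (h : Hit t n y) (k : t <+: t') : Hit t' n y :=
  (hit_pre k h.lt).2 h

theorem Hit.not_sep {t : Nd} {n k : ℕ} {y z : Cs} (h : Hit t n z) (h' : Hit t n y) (hk : k ≤ n + 1) :
    ¬ Sep k z y := by
  rintro ⟨i, h1, h2⟩
  rw [Hit] at h h'
  exact h2 (res_eq.1 (Option.some.inj (h.symm.trans h')) i (h1.trans_le hk))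

theorem exists_sep {L : Set Cs} (hL : L.Finite) {y : Cs} (h : y ∉ L) : ∃ k, ∀ z ∈ L, Sep k z y := by
  induction L, hL using Set.Finite.induction_on with
  | empty => exact ⟨0, fun _ h => h.elim⟩
  | @insert a s _ _ ih =>
    obtain ⟨k, hk⟩ := ih fun k => h (mem_insert_of_mem _ k)
    obtain ⟨i, hi⟩ : ∃ i, a i ≠ y i := Function.ne_iff.1 fun k => h (k ▸ mem_insert _ _)
    refine ⟨max k (i + 1), ?_⟩
    rintro z (rfl | hz)
    · exact ⟨i, by omega, hi⟩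
    · exact (hk z hz).mono (le_max_left _ _)

theorem exists_sep2 {L Y : Set Cs} (hL : L.Finite) (hY : Y.Finite) (h : ∀ y ∈ Y, y ∉ L) :
    ∃ k, ∀ y ∈ Y, ∀ z ∈ L, Sep k z y := by
  choose! f hf using fun y hy => exists_sep hL (h y hy)
  obtain ⟨k, hk⟩ := (hY.image f).bddAbove
  exact ⟨k, fun y hy z hz => (hf y hy z hz).mono (hk ⟨y, hy, rfl⟩)⟩

/-- Legal moves for `y`, with exceptional levels `E`. -/
def Lg (E : Set ℕ) (t : Nd) (L : Set Cs) (t' : Nd) (L' : Set Cs) (y : Cs) : Prop :=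
  (∀ n, t.length ≤ n → n ∉ E → Hit t' n y → ∃ z ∈ L, Hit t' n z) ∧
    ∀ z ∈ L', z ∉ L → Sep t'.length z y

/-- Exactly one extra hit. -/
def Onc (t : Nd) (L : Set Cs) (t' : Nd) (L' : Set Cs) (y : Cs) : Prop :=
  ∃ n, t.length ≤ n ∧ Hit t' n y ∧ Lg {n} t L t' L' y

section
variable {E E' : Set ℕ} {t t' t'' : Nd} {L L' L'' : Set Cs} {y : Cs}

theorem Lg.refl : Lg E t L t L y :=
  ⟨fun _ h1 _ h2 => absurd h2.lt (not_lt.2 h1), fun _ h1 h2 => (h2 h1).elim⟩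

theorem Lg.trans (h : Lg E t L t' L' y) (k : Lg E t' L' t'' L'' y) (p : t' <+: t'') :
    Lg E t L t'' L'' y := by
  refine ⟨fun n h1 h2 h3 => ?_, fun z h1 h2 => ?_⟩
  · by_cases hn : n < t'.length
    · obtain ⟨z, h4, h5⟩ := h.1 n h1 h2 ((hit_pre p hn).1 h3)
      exact ⟨z, h4, h5.pre p⟩
    · obtain ⟨z, h4, h5⟩ := k.1 n (not_lt.1 hn) h2 h3
      by_cases hz : z ∈ L
      · exact ⟨z, hz, h5⟩
      · exact (h5.not_sep h3 (by omega) (h.2 z h4 hz)).elim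
  · by_cases hz : z ∈ L'
    · exact (h.2 z hz h2).mono p.length_le
    · exact k.2 z h1 hz

theorem Lg.exc (h : Lg ∅ t L t' L' y) : Lg E t L t' L' y :=
  ⟨fun n h1 _ => h.1 n h1 (notMem_empty n), h.2⟩

theorem Lg.onc (h : Lg ∅ t L t' L' y) (k : Onc t' L' t'' L'' y) (p0 : t <+: t') (p : t' <+: t'') :
    Onc t L t'' L'' y :=
  let ⟨n, h1, h2, h3⟩ := k; ⟨n, p0.length_le.trans h1, h2, h.exc.trans h3 p⟩

theorem Onc.lg (h : Onc t L t' L' y) (k : Lg ∅ t' L' t'' L'' y) (p : t' <+: t'') :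
    Onc t L t'' L'' y :=
  let ⟨n, h1, h2, h3⟩ := h; ⟨n, h1, h2.pre p, h3.trans k.exc p⟩

theorem Lg.diff (h : Lg E t L t' L' y) {D : Set Cs}
    (hD : ∀ z ∈ D, ∀ n, t.length ≤ n → ¬ Hit t' n z) : Lg E t (L \ D) t' (L' \ D) y :=
  ⟨fun n h1 h2 h3 => let ⟨z, h4, h5⟩ := h.1 n h1 h2 h3; ⟨z, ⟨h4, fun k => hD z k n h1 h5⟩, h5⟩,
    fun z h1 h2 => h.2 z h1.1 fun k => h2 ⟨k, h1.2⟩⟩

theorem Lg.ins (h : Lg E t L t' L' y) (x : Cs) : Lg E t (insert x L) t' (insert x L') y :=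
  ⟨fun n h1 h2 h3 => let ⟨z, h4, h5⟩ := h.1 n h1 h2 h3; ⟨z, mem_insert_of_mem _ h4, h5⟩,
    fun z h1 h2 => h.2 z (h1.resolve_left fun k => h2 (Or.inl k)) fun k => h2 (Or.inr k)⟩

theorem Lg.ins_self (h : Lg E t L t' L' y) : Lg ∅ t (insert y L) t' (insert y L') y :=
  ⟨fun _ _ _ h3 => ⟨y, mem_insert _ _, h3⟩, (h.ins y).2⟩

theorem Lg.congr {y' : Cs} (h : Lg E t L t' L' y) (k : ∀ i < t'.length, y i = y' i) :
    Lg E t L t' L' y' := by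
  refine ⟨fun n h1 h2 h3 => h.1 n h1 h2 ?_, fun z h1 h2 => ?_⟩
  · have := h3.lt
    rwa [Hit, res_eq.2 fun i hi => k i (by omega)]
  · obtain ⟨i, h3, h4⟩ := h.2 z h1 h2
    exact ⟨i, h3, k i h3 ▸ h4⟩

end

/-- States: node, indices of labels, norm. -/
abbrev St : Type := Nd × Finset ℕ × ℕ

/-- Preconditions: labels, states, exceptional points. -/
abbrev Qc : Type := (ℕ → Cs) × (St → Prop) × (ℕ → Cs)

/-- The labels with indices in `Z`. -/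
def LS (z : ℕ → Cs) (Z : Finset ℕ) : Set Cs := {y | ∃ i ∈ Z, z i = y}

theorem LS_finite (z : ℕ → Cs) (Z : Finset ℕ) : (LS z Z).Finite := Z.finite_toSet.image z

/-- Legal move between states with the same labelling. -/
def LgS (z : ℕ → Cs) (σ σ' : St) (y : Cs) : Prop := Lg ∅ σ.1 (LS z σ.2.1) σ'.1 (LS z σ'.2.1) y

/-- One hit move between states with the same labelling. -/
def OnS (z : ℕ → Cs) (σ σ' : St) (y : Cs) : Prop := Onc σ.1 (LS z σ.2.1) σ'.1 (LS z σ'.2.1) y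

/-- The norm condition. -/
def Nrm (x : Qc) : Prop :=
  (∃ σ, x.2.1 σ) ∧ ∀ σ, x.2.1 σ → ∀ l : List Cs, l.length ≤ σ.2.2 → ∀ m, ∃ σ', x.2.1 σ' ∧
    σ.1 <+: σ'.1 ∧ m ≤ σ'.1.length ∧ m ≤ σ'.2.2 ∧ ∀ y ∈ l, LgS x.1 σ σ' y

/-- The point `y` can be hit once more. -/
def Good (x : Qc) (y : Cs) : Prop :=
  ∀ σ, x.2.1 σ → ∀ l : List Cs, l.length < σ.2.2 → y ∉ l → ∀ m, ∃ σ', x.2.1 σ' ∧
    σ.1 <+: σ'.1 ∧ m ≤ σ'.2.2 ∧ (∀ v ∈ l, LgS x.1 σ σ' v) ∧ OnS x.1 σ σ' y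

/-- Good or exceptional. -/
def Good' (x : Qc) (y : Cs) : Prop := (∃ i, x.2.2 i = y) ∨ Good x y

/-- The node `u` is in the tree of `x`. -/
def Tr (x : Qc) (u : Nd) : Prop := ∃ σ, x.2.1 σ ∧ u <+: σ.1

/-- Tree inclusion. -/
def Qle (x x' : Qc) : Prop := ∀ σ, x.2.1 σ → Tr x' σ.1

theorem Tr.pre {x : Qc} {u u' : Nd} (h : Tr x u) (k : u' <+: u) : Tr x u' :=
  let ⟨σ, h1, h2⟩ := h; ⟨σ, h1, k.trans h2⟩

theorem Tr.le {x x' : Qc} {u : Nd} (h : Tr x u) (k : Qle x x') : Tr x' u :=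
  let ⟨σ, h1, h2⟩ := h; (k σ h1).pre h2

theorem Qle.refl (x : Qc) : Qle x x := fun σ h => ⟨σ, h, List.prefix_rfl⟩

theorem Qle.trans {x y z : Qc} (h : Qle x y) (k : Qle y z) : Qle x z := fun σ hσ => (h σ hσ).le k

/-- Restriction to the states above a node. -/
def rst (x : Qc) (t : Nd) : Qc := (x.1, fun σ => x.2.1 σ ∧ t <+: σ.1, x.2.2)

theorem rst_le (x : Qc) (t : Nd) : Qle (rst x t) x := fun σ h => ⟨σ, h.1, List.prefix_rfl⟩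

theorem Nrm.to_rst {x : Qc} (h : Nrm x) {σ : St} (hσ : x.2.1 σ) : Nrm (rst x σ.1) :=
  ⟨⟨σ, hσ, List.prefix_rfl⟩, fun τ hτ l hl m =>
    let ⟨σ', h1, h2, h3⟩ := h.2 τ hτ.1 l hl m; ⟨σ', ⟨h1, hτ.2.trans h2⟩, h2, h3⟩⟩

theorem Good'.to_rst {x : Qc} {y : Cs} (h : Good' x y) (t : Nd) : Good' (rst x t) y :=
  h.imp id fun h τ hτ l hl hy m =>
    let ⟨σ', h1, h2, h3⟩ := h τ hτ.1 l hl hy m; ⟨σ', ⟨h1, hτ.2.trans h2⟩, h2, h3⟩

theorem Nrm.long {x : Qc} (h : Nrm x) {σ : St} (hσ : x.2.1 σ) (m : ℕ) :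
    ∃ σ', x.2.1 σ' ∧ σ.1 <+: σ'.1 ∧ m ≤ σ'.1.length ∧ m ≤ σ'.2.2 :=
  let ⟨σ', h1, h2, h3, h4, _⟩ := h.2 σ hσ [] (Nat.zero_le _) m; ⟨σ', h1, h2, h3, h4⟩

/-- Separativity. -/
theorem Nrm.sepv {x x' w : Qc} {σ : St} (hw : Nrm w) (h1 : Qle w (rst x σ.1)) (h2 : Qle w x') :
    Tr x' σ.1 := by
  obtain ⟨τ, hτ⟩ := hw.1
  obtain ⟨τ', h3, -, h4, -⟩ := hw.long hτ σ.1.length
  obtain ⟨υ, ⟨-, h5⟩, h6⟩ := h1 τ' h3
  exact (h2 τ' h3).pre (List.prefix_of_prefix_length_le h5 h6 h4)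

/-- A tree covered by finitely many trees is locally inside one of them. -/
theorem cover_one {x : Qc} {w : ℕ → Qc} (F : Finset ℕ) {σ : St} (hσ : x.2.1 σ)
    (h : ∀ τ, x.2.1 τ → σ.1 <+: τ.1 → ∃ i ∈ F, Tr (w i) τ.1) :
    ∃ τ, x.2.1 τ ∧ ∃ i ∈ F, Qle (rst x τ.1) (w i) := by
  classical
  induction F using Finset.induction_on generalizing σ with
  | empty => simpa using h σ hσ List.prefix_rfl
  | insert a s _ ih =>
    by_cases hc : Qle (rst x σ.1) (w a)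
    · exact ⟨σ, hσ, a, Finset.mem_insert_self _ _, hc⟩
    · simp only [Qle, not_forall] at hc
      obtain ⟨τ, ⟨h1, h2⟩, h3⟩ := hc
      obtain ⟨υ, h4, i, h5, h6⟩ := ih h1 fun υ h4 h5 => by
        obtain ⟨i, h6, h7⟩ := h υ h4 (h2.trans h5)
        rcases Finset.mem_insert.1 h6 with rfl | h6
        · exact (h3 (h7.pre h5)).elim
        · exact ⟨i, h6, h7⟩
      exact ⟨υ, h4, i, Finset.mem_insert_of_mem h5, h6⟩

/-- Interleaving of two sequences. -/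
def itl (a b : ℕ → Cs) (n : ℕ) : Cs := if n % 2 = 0 then a (n / 2) else b (n / 2)

theorem itl_l (a b : ℕ → Cs) (n : ℕ) : itl a b (2 * n) = a n := by simp [itl]

theorem itl_r (a b : ℕ → Cs) (n : ℕ) : itl a b (2 * n + 1) = b n := by
  have e1 : (2 * n + 1) % 2 ≠ 0 := by omega
  have e2 : (2 * n + 1) / 2 = n := by omega
  simp [itl, e1, e2]

/-- Spend `n` units of norm to avoid the first `n` points of `l`. -/
def shr (x : Qc) (σ0 : St) (l : ℕ → Cs) (n : ℕ) : Qc :=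
  (x.1, fun σ => x.2.1 (σ.1, σ.2.1, σ.2.2 + n) ∧ σ0.1 <+: σ.1 ∧ ∀ i < n, LgS x.1 σ0 σ (l i),
    itl l x.2.2)

theorem shr_le (x : Qc) (σ0 : St) (l : ℕ → Cs) (n : ℕ) : Qle (shr x σ0 l n) x :=
  fun _ h => ⟨_, h.1, List.prefix_rfl⟩

theorem mem_tup {l : ℕ → Cs} {n : ℕ} {y : Cs} : y ∈ (List.range n).map l ↔ ∃ i < n, l i = y := by
  simp

theorem Nrm.to_shr {x : Qc} (h : Nrm x) {σ0 : St} (h0 : x.2.1 σ0) (l : ℕ → Cs) {n : ℕ}
    (hn : n ≤ σ0.2.2) : Nrm (shr x σ0 l n) := by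
  refine ⟨⟨(σ0.1, σ0.2.1, σ0.2.2 - n), ?_, List.prefix_rfl, fun i _ => Lg.refl⟩, ?_⟩
  · simpa [Nat.sub_add_cancel hn] using h0
  rintro σ ⟨h1, h2, h3⟩ l' hl m
  obtain ⟨σ', h4, h5, h6, h7, h8⟩ := h.2 _ h1 (l' ++ (List.range n).map l) (by simpa using hl) (m + n)
  refine ⟨(σ'.1, σ'.2.1, σ'.2.2 - n), ⟨?_, h2.trans h5, fun i hi => ?_⟩, h5, by simp; omega,
    by simp; omega, fun y hy => h8 y (List.mem_append_left _ hy)⟩
  · simpa [Nat.sub_add_cancel (show n ≤ σ'.2.2 by omega)] using h4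
  · exact (h3 i hi).trans (h8 _ (List.mem_append_right _ (mem_tup.2 ⟨i, hi, rfl⟩))) h5

theorem Good'.to_shr {x : Qc} {y : Cs} (h : Good' x y) (σ0 : St) (l : ℕ → Cs) (n : ℕ) :
    Good' (shr x σ0 l n) y := by
  rcases h with ⟨i, hi⟩ | h
  · exact Or.inl ⟨2 * i + 1, (itl_r _ _ _).trans hi⟩
  by_cases hy : ∃ i, l i = y
  · obtain ⟨i, hi⟩ := hy
    exact Or.inl ⟨2 * i, (itl_l _ _ _).trans hi⟩
  right
  rintro σ ⟨h1, h2, h3⟩ l' hl hy' m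
  obtain ⟨σ', h4, h5, h7, h8, h9⟩ := h _ h1 (l' ++ (List.range n).map l) (by simpa using hl)
    (fun k => (List.mem_append.1 k).elim hy' fun k => let ⟨i, _, hi⟩ := mem_tup.1 k; hy ⟨i, hi⟩)
    (m + n)
  refine ⟨(σ'.1, σ'.2.1, σ'.2.2 - n), ⟨?_, h2.trans h5, fun i hi => ?_⟩, h5,
    by simp; omega, fun y hy => h8 y (List.mem_append_left _ hy), h9⟩
  · simpa [Nat.sub_add_cancel (show n ≤ σ'.2.2 by omega)] using h4
  · exact (h3 i hi).trans (h8 _ (List.mem_append_right _ (mem_tup.2 ⟨i, hi, rfl⟩))) h5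

/-- Drop the labels in `Y \ L0` from the long states. -/
def rel (w : Qc) (m0 : ℕ) (L0 Y : Set Cs) : Qc :=
  (w.1, fun σ => ∃ Z : Finset ℕ, w.2.1 (σ.1, Z, σ.2.2) ∧
    (∀ i, i ∈ σ.2.1 ↔ i ∈ Z ∧ w.1 i ∉ Y \ L0) ∧ m0 ≤ σ.1.length ∧
    ∀ y ∈ Y \ L0, ∀ z ∈ L0, Sep σ.1.length z y, w.2.2)

theorem rel_le (w : Qc) (m0 : ℕ) (L0 Y : Set Cs) : Qle (rel w m0 L0 Y) w :=
  fun _ ⟨_, h, _⟩ => ⟨_, h, List.prefix_rfl⟩

theorem LS_diff {z : ℕ → Cs} {Z Z' : Finset ℕ} {D : Set Cs} (h : ∀ i, i ∈ Z' ↔ i ∈ Z ∧ z i ∉ D) :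
    LS z Z' = LS z Z \ D := by
  ext y
  constructor
  · rintro ⟨i, hi, rfl⟩
    exact ⟨⟨i, ((h i).1 hi).1, rfl⟩, ((h i).1 hi).2⟩
  · rintro ⟨⟨i, hi, rfl⟩, h2⟩
    exact ⟨i, (h i).2 ⟨hi, h2⟩, rfl⟩

section
variable {w : Qc} {m0 : ℕ} {L0 Y : Set Cs}

/-- Hits on `Y` are hits on `L0`. -/
def HH (w : Qc) (m0 : ℕ) (L0 Y : Set Cs) : Prop :=
  ∀ σ, w.2.1 σ → ∀ y ∈ Y, ∀ n, m0 ≤ n → Hit σ.1 n y → ∃ z ∈ L0, Hit σ.1 n z

theorem rel_aux (H : HH w m0 L0 Y) {σ : St} (hσ : (rel w m0 L0 Y).2.1 σ) :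
    ∃ Z, w.2.1 (σ.1, Z, σ.2.2) ∧ ∀ σ', w.2.1 σ' → σ.1 <+: σ'.1 → ∃ Z',
      (rel w m0 L0 Y).2.1 (σ'.1, Z', σ'.2.2) ∧ ∀ E y, Lg E σ.1 (LS w.1 Z) σ'.1 (LS w.1 σ'.2.1) y →
        Lg E σ.1 (LS w.1 σ.2.1) σ'.1 (LS w.1 Z') y := by
  classical
  obtain ⟨Z, h1, h2, h3, h4⟩ := hσ
  refine ⟨Z, h1, fun σ' h5 h6 => ⟨σ'.2.1.filter fun i => w.1 i ∉ Y \ L0,
    ⟨σ'.2.1, h5, fun i => Finset.mem_filter, h3.trans h6.length_le,
      fun y hy z hz => (h4 y hy z hz).mono h6.length_le⟩, fun E y h7 => ?_⟩⟩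
  rw [LS_diff h2, LS_diff (fun i => Finset.mem_filter)]
  refine h7.diff fun z hz n hn k => ?_
  obtain ⟨z', h8, h9⟩ := H σ' h5 z hz.1 n (h3.trans hn) k
  exact h9.not_sep k (by omega) (h4 z hz z' h8)

theorem Nrm.to_rel (h : Nrm w) (H : HH w m0 L0 Y) (hL : L0.Finite) (hY : Y.Finite) :
    Nrm (rel w m0 L0 Y) := by
  classical
  constructor
  · obtain ⟨σ, hσ⟩ := h.1
    obtain ⟨k, hk⟩ := exists_sep2 hL (hY.sdiff (t := L0)) fun y hy => hy.2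
    obtain ⟨σ', h1, -, h2, -⟩ := h.long hσ (max m0 k)
    exact ⟨(σ'.1, σ'.2.1.filter fun i => w.1 i ∉ Y \ L0, σ'.2.2), σ'.2.1, h1,
      fun i => Finset.mem_filter, (le_max_left _ _).trans h2,
      fun y hy z hz => (hk y hy z hz).mono ((le_max_right _ _).trans h2)⟩
  · intro σ hσ l hl m
    obtain ⟨Z, h1, h2⟩ := rel_aux H hσ
    obtain ⟨σ', h3, h4, h5, h6, h7⟩ := h.2 _ h1 l hl m
    obtain ⟨Z', h8, h9⟩ := h2 σ' h3 h4
    exact ⟨_, h8, h4, h5, h6, fun y hy => h9 _ y (h7 y hy)⟩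

theorem Good'.to_rel {y : Cs} (h : Good' w y) (H : HH w m0 L0 Y) : Good' (rel w m0 L0 Y) y := by
  refine h.imp id fun h σ hσ l hl hy m => ?_
  obtain ⟨Z, h1, h2⟩ := rel_aux H hσ
  obtain ⟨σ', h3, h4, h6, h7, n, k1, k2, k3⟩ := h _ h1 l hl hy m
  obtain ⟨Z', h8, h9⟩ := h2 σ' h3 h4
  exact ⟨_, h8, h4, h6, fun y hy => h9 _ y (h7 y hy), n, k1, k2, h9 _ y k3⟩

end

theorem hh_of_le {x w : Qc} {σ0 : St} {l : ℕ → Cs} {n : ℕ} (h : Qle w (shr x σ0 l n)) :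
    HH w σ0.1.length (LS x.1 σ0.2.1) (LS l (Finset.range n)) := by
  rintro σ hσ _ ⟨i, hi, rfl⟩ k hk h1
  obtain ⟨τ, ⟨-, -, h2⟩, h3⟩ := h σ hσ
  obtain ⟨z, h4, h5⟩ := (h2 i (Finset.mem_range.1 hi)).1 k hk (notMem_empty _) (h1.pre h3)
  exact ⟨z, h4, (hit_pre h3 h1.lt).1 h5⟩

/-- The relabelled version of a condition below the shrunk condition. -/
def rel' (x : Qc) (σ0 : St) (l : ℕ → Cs) (n : ℕ) (w : Qc) : Qc :=
  rel w σ0.1.length (LS x.1 σ0.2.1) (LS l (Finset.range n))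

theorem rel_step {x w : Qc} {σ0 : St} {l : ℕ → Cs} {n : ℕ} (hw : Nrm w)
    (h : Qle w (shr x σ0 l n)) (m : ℕ) : ∃ σ', (rel' x σ0 l n w).2.1 σ' ∧ σ0.1 <+: σ'.1 ∧
      m ≤ σ'.1.length ∧ m ≤ σ'.2.2 ∧
      ∀ i < n, Lg ∅ σ0.1 (LS x.1 σ0.2.1) σ'.1 (LS w.1 σ'.2.1) (l i) := by
  have H := hh_of_le h
  have hN : Nrm (rel' x σ0 l n w) := hw.to_rel H (LS_finite _ _) (LS_finite _ _)
  obtain ⟨σ, hσ⟩ := hN.1
  obtain ⟨σ1, h1, -, -, h2⟩ := hN.long hσ n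
  obtain ⟨k, hk⟩ := exists_sep2 ((LS_finite w.1 σ1.2.1).sdiff (t := LS x.1 σ0.2.1))
    (LS_finite l (Finset.range n)) (by
      rintro y hy ⟨⟨i, hi, rfl⟩, h3⟩
      obtain ⟨Z, -, h4, -⟩ := h1
      exact ((h4 i).1 hi).2 ⟨hy, h3⟩)
  obtain ⟨σ2, h3, h4, h5, h6, h7⟩ := hN.2 σ1 h1 ((List.range n).map l) (by simpa using h2) (max m k)
  obtain ⟨Z, h8, -, h9, -⟩ := id h3
  refine ⟨σ2, h3, ?_, (le_max_left _ _).trans h5, (le_max_left _ _).trans h6, fun i hi => ⟨?_, ?_⟩⟩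
  · obtain ⟨τ, ⟨-, k1, -⟩, k2⟩ := h _ h8
    exact List.prefix_of_prefix_length_le k1 k2 h9
  · exact fun j hj _ k1 => H _ h8 _ ⟨i, Finset.mem_range.2 hi, rfl⟩ j hj k1
  · intro z k1 k2
    by_cases hz : z ∈ LS w.1 σ1.2.1
    · exact (hk _ ⟨i, Finset.mem_range.2 hi, rfl⟩ z ⟨hz, k2⟩).mono ((le_max_right _ _).trans h5)
    · exact (h7 _ (mem_tup.2 ⟨i, hi, rfl⟩)).2 z k1 hz

/-- The largest precondition is a condition. -/
theorem nrm_top {x : Qc} (h : ∀ σ, x.2.1 σ) : Nrm x := by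
  refine ⟨⟨([], ∅, 0), h _⟩, fun σ _ l _ m => ⟨(σ.1 ++ List.replicate m [], σ.2.1, m), h _,
    List.prefix_append _ _, by simp, le_rfl, fun y _ => ⟨fun n h1 _ h2 => ?_,
      fun z h1 h2 => (h2 h1).elim⟩⟩⟩
  rw [Hit, List.getElem?_append_right h1, List.getElem?_replicate] at h2
  split_ifs at h2
  simp [res] at h2

theorem good_top {x : Qc} (h : ∀ σ, x.2.1 σ) (y : Cs) : Good x y := by
  intro σ _ l _ hy m
  obtain ⟨k, hk⟩ := exists_sep (List.finite_toSet l) (show y ∉ {v | v ∈ l} from hy)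
  have key : ∀ n v, σ.1.length ≤ n →
      Hit (σ.1 ++ (List.replicate k [] ++ [res (σ.1.length + k + 1) y])) n v →
      n = σ.1.length + k := by
    intro n v h1 h2
    have := h2.lt
    by_contra hc
    simp only [List.length_append, List.length_replicate, List.length_singleton] at this
    rw [Hit, List.getElem?_append_right h1, List.getElem?_append_left (by simp; omega),
      List.getElem?_replicate] at h2
    split_ifs at h2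
    simp [res] at h2
  have h0 : Hit (σ.1 ++ (List.replicate k [] ++ [res (σ.1.length + k + 1) y]))
      (σ.1.length + k) y := by
    rw [Hit, List.getElem?_append_right (by omega), List.getElem?_append_right (by simp)]
    simp
  refine ⟨(σ.1 ++ (List.replicate k [] ++ [res (σ.1.length + k + 1) y]), σ.2.1, m), h _,
    List.prefix_append _ _, le_rfl, fun v hv => ⟨fun n h1 _ h2 => ?_, fun z h1 h2 => (h2 h1).elim⟩,
    σ.1.length + k, by simp, h0, fun n h1 h2 h3 => (h2 (key n y h1 h3)).elim,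
      fun z h1 h2 => (h2 h1).elim⟩
  obtain rfl := key n v h1 h2
  exact (h2.not_sep h0 (by omega) (hk v hv)).elim

end Pool.Agent.Lib.MP_fecf72_lc
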