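import Mathlib

namespace Pool.Agent.Lib.MP_fecf72_lc

/-- The ambient universe of sets. -/
abbrev V : Type 1 := ZFSet.{0}

/-- First order formulas of set theory (de Bruijn variables). -/
inductive Fm : Type
  | mem : ℕ → ℕ → Fm
  | eq : ℕ → ℕ → Fm
  | not : Fm → Fm
  | and : Fm → Fm → Fm
  | all : Fm → Fm

/-- Truth of a formula in `(M, ∈)` under a finite assignment. -/
def Sat (M : Set V) : Fm → List V → Prop
  | .mem i j, v => v.getD i ∅ ∈ v.getD j ∅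
  | .eq i j, v => v.getD i ∅ = v.getD j ∅
  | .not φ, v => ¬ Sat M φ v
  | .and φ ψ, v => Sat M φ v ∧ Sat M ψ v
  | .all φ, v => ∀ x ∈ M, Sat M φ (x :: v)

/-- Transitive models of ZFC (extensionality and foundation hold by transitivity). -/
structure IsZFC (M : Set V) : Prop where
  trans : ∀ x ∈ M, ∀ y ∈ x, y ∈ M
  pairing : ∀ x ∈ M, ∀ y ∈ M, ({x, y} : V) ∈ M
  union : ∀ x ∈ M, ZFSet.sUnion x ∈ M
  power : ∀ x ∈ M, ∃ y ∈ M, ∀ z ∈ M, (z ∈ y ↔ z ⊆ x)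
  infinity : ∃ w ∈ M, ∅ ∈ w ∧ ∀ x ∈ w, insert x x ∈ w
  separation : ∀ (φ : Fm) (v : List V), (∀ x ∈ v, x ∈ M) → ∀ a ∈ M,
    ∃ b ∈ M, ∀ x, x ∈ b ↔ x ∈ a ∧ Sat M φ (x :: v)
  collection : ∀ (φ : Fm) (v : List V), (∀ x ∈ v, x ∈ M) → ∀ a ∈ M,
    (∀ x ∈ a, ∃ y ∈ M, Sat M φ (y :: x :: v)) → ∃ b ∈ M, ∀ x ∈ a, ∃ y ∈ b, Sat M φ (y :: x :: v)
  choice : ∀ a ∈ M, (∀ x ∈ a, x ≠ ∅) → (∀ x ∈ a, ∀ y ∈ a, x ≠ y → ∀ z ∈ x, z ∉ y) →
    ∃ c ∈ M, ∀ x ∈ a, ∃! z, z ∈ x ∧ z ∈ c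

/-- Von Neumann numerals. -/
def natC : ℕ → V
  | 0 => ∅
  | n + 1 => insert (natC n) (natC n)

/-- The set of all `f x` with `x ∈ s`. -/
noncomputable def img {α : Type} (s : Set α) (f : α → V) : V := ZFSet.range fun x : s => f x

/-- A real number as the Dedekind cut of (numbers of) rationals below it. -/
noncomputable def realC (x : ℝ) : V := img {q : ℚ | (q : ℝ) < x} fun q => natC (Encodable.encode q)

/-- A set of reals as a set. -/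
noncomputable def setC (A : Set ℝ) : V := img A realC

/-- A family of sets of reals as a set. -/
noncomputable def famC (F : Set (Set ℝ)) : V := img F setC

/-- A sequence as a set of ordered pairs. -/
noncomputable def seqC (f : ℕ → V) : V := ZFSet.range fun n => ZFSet.pair (natC n) (f n)

/-- `s` is countable in `M`. -/
def CtblIn (M : Set V) (s : V) : Prop := ∃ f : ℕ → V, seqC f ∈ M ∧ ∀ x ∈ s, ∃ n, f n = x

/-- In `M`, `B` is a Borel subset of the space `X`. -/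
def BorelIn (M : Set V) (X B : Set ℝ) : Prop :=
  setC B ∈ M ∧ ∀ F : Set (Set ℝ), famC F ∈ M →
    (∀ O, IsOpen O → setC (X ∩ O) ∈ M → X ∩ O ∈ F) → (∀ A ∈ F, X \ A ∈ F) →
    (∀ e : ℕ → Set ℝ, seqC (fun n => setC (e n)) ∈ M → (∀ n, e n ∈ F) → (⋃ n, e n) ∈ F) → B ∈ F

/-- In `M`, `C` is a countable Borel cover of `X` not containing `X`. -/
def BCover (M : Set V) (X : Set ℝ) (C : Set (Set ℝ)) : Prop :=
  famC C ∈ M ∧ CtblIn M (famC C) ∧ (∀ B ∈ C, BorelIn M X B) ∧ ⋃₀ C = X ∧ X ∉ C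

/-- In `M`, the space `X` has the Borel Menger property. -/
def SfinBB (M : Set V) (X : Set ℝ) : Prop :=
  ∀ C : ℕ → Set (Set ℝ), seqC (fun n => famC (C n)) ∈ M → (∀ n, BCover M X (C n)) →
    ∃ F : ℕ → Set (Set ℝ), seqC (fun n => famC (F n)) ∈ M ∧ (∀ n, (F n).Finite ∧ F n ⊆ C n) ∧
      BCover M X (⋃ n, F n)

end Pool.Agent.Lib.MP_fecf72_lc
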