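import Pool.Agent.Lib.MP_fecf72_lc.Meas

namespace Pool.Agent.Lib.MP_fecf72_lc

open Set

/-- Enumeration of candidates for the master condition. -/
noncomputable def cd : ℕ → ℕ × St × ℕ := (exists_surjective_nat (ℕ × St × ℕ)).choose

theorem cd_surj : Function.Surjective cd := (exists_surjective_nat (ℕ × St × ℕ)).choose_spec

/-- Nodes and labels of these candidates. -/
noncomputable def csD (a : ℕ) : Nd × Finset ℕ :=
  ((cd a).2.1.1, (cd a).2.1.2.1.image (Nat.pair (cd a).1))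

/-- All entries of a double sequence. -/
def flat (z : ℕ → ℕ → Cs) (n : ℕ) : Cs := z n.unpair.1 n.unpair.2

theorem LS_flat (z : ℕ → ℕ → Cs) (i : ℕ) (Z : Finset ℕ) :
    LS (flat z) (Z.image (Nat.pair i)) = LS (z i) Z := by
  ext y; simp [LS, flat]

/-- A countable system of preconditions, valid indices, dense sets, and a starting index. -/
abbrev Sy : Type := (ℕ → Qc) × (ℕ → Prop) × (ℕ → ℕ → Prop) × ℕ

/-- Fusion data for the master condition. -/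
noncomputable def dD (s : Sy) : Fd :=
  (flat fun i => (s.1 i).1,
   fun n a b => s.2.1 (cd b).1 ∧ s.2.2.1 n (cd b).2.2 ∧ (s.1 (cd b).1).2.1 (cd b).2.1 ∧
    Qle (s.1 (cd b).1) (s.1 (cd a).1) ∧ Qle (s.1 (cd b).1) (s.1 (cd b).2.2) ∧
    (cd a).2.1.1 <+: (cd b).2.1.1 ∧ n + 1 ≤ (cd b).2.1.1.length ∧ n + 1 ≤ (cd b).2.1.2.2,
   sInf {a | (cd a).1 = s.2.2.2 ∧ (s.1 (cd a).1).2.1 (cd a).2.1},
   flat fun i => (s.1 i).2.2)

theorem meas_dD : Measurable dD := by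
  have h1 : ∀ i, Measurable fun s : Sy => s.1 i := fun i => measurable_fst.eval
  refine (measurable_pi_lambda _ fun n => (h1 _).fst.eval).prodMk
    ((measurable_pi_lambda _ fun n => measurable_pi_lambda _ fun a => measurable_pi_lambda _ fun b =>
      measurable_snd.fst.eval.and (measurable_snd.snd.fst.eval.eval.and ((h1 _).snd.fst.eval.and
        ((meas_qle (h1 _) (h1 _)).and ((meas_qle (h1 _) (h1 _)).and measurable_const))))).prodMk
    ((meas_sInf fun a => (meas_eq_ctbl measurable_const measurable_snd.snd.snd).and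
      (h1 _).snd.fst.eval).prodMk (measurable_pi_lambda _ fun n => (h1 _).snd.snd.eval)))

/-- The closure hypothesis on a system. -/
structure SH (s : Sy) : Prop where
  v0 : s.2.1 s.2.2.2
  nrm : ∀ i, s.2.1 i → Nrm (s.1 i)
  ext : ∀ i, s.2.1 i → ∀ σ, (s.1 i).2.1 σ → ∀ j m, ∀ l : List Cs, l.length ≤ σ.2.2 →
    ∃ i' i'' σ', s.2.1 i' ∧ s.2.2.1 j i'' ∧ (s.1 i').2.1 σ' ∧ Qle (s.1 i') (s.1 i) ∧
      Qle (s.1 i') (s.1 i'') ∧ σ.1 <+: σ'.1 ∧ m ≤ σ'.1.length ∧ m ≤ σ'.2.2 ∧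
      ∀ v ∈ l, Lg ∅ σ.1 (LS (s.1 i).1 σ.2.1) σ'.1 (LS (s.1 i').1 σ'.2.1) v

/-- Valid candidates. -/
def VdD (s : Sy) (n a : ℕ) : Prop :=
  s.2.1 (cd a).1 ∧ (s.1 (cd a).1).2.1 (cd a).2.1 ∧ n ≤ (cd a).2.1.2.2

section
variable {s : Sy} {e : ℕ → ℕ}

theorem SH.start (H : SH s) : (cd (dD s).2.2.1).1 = s.2.2.2 ∧
    (s.1 (cd (dD s).2.2.1).1).2.1 (cd (dD s).2.2.1).2.1 := by
  obtain ⟨σ, hσ⟩ := (H.nrm _ H.v0).1
  obtain ⟨a, ha⟩ := cd_surj (s.2.2.2, σ, 0)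
  exact Nat.sInf_mem (s := {a | (cd a).1 = s.2.2.2 ∧ (s.1 (cd a).1).2.1 (cd a).2.1})
    ⟨a, by simp [ha, hσ]⟩

theorem SH.fh (H : SH s) : FH csD (dD s) (VdD s) where
  v0 := ⟨H.start.1 ▸ H.v0, H.start.2, Nat.zero_le _⟩
  vs := fun _ _ _ _ h => ⟨h.1, h.2.2.1, h.2.2.2.2.2.2.2⟩
  pre := fun _ _ _ h => ⟨h.2.2.2.2.2.1, h.2.2.2.2.2.2.1⟩
  av := by
    rintro n a ⟨h1, h2, h3⟩ l hl
    obtain ⟨i', i'', σ', k1, k2, k3, k4, k5, k6, k7, k8, k9⟩ :=
      H.ext _ h1 _ h2 n (n + 1) l (hl.trans h3)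
    obtain ⟨b, hb⟩ := cd_surj (i', σ', i'')
    refine ⟨b, by simp only [dD, hb]; exact ⟨k1, k2, k3, k4, k5, k6, k7, k8⟩, fun v hv => ?_⟩
    simp only [LgS, st, csD, dD, LS_flat, hb]
    exact k9 v hv

theorem SH.bv (H : SH s) {y : Cs} (hy : ∀ i, s.2.1 i → Good (s.1 i) y) :
    BV csD (dD s) (VdD s) y := by
  rintro n a ⟨h1, h2, h3⟩ l hl hyl
  obtain ⟨σ1, j1, j2, j3, j4, j5⟩ := hy _ h1 _ h2 l (hl.trans_le h3) hyl n
  obtain ⟨i', i'', σ', k1, k2, k3, k4, k5, k6, k7, k8, k9⟩ :=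
    H.ext _ h1 _ j1 n (n + 1) (y :: l) (by simp; omega)
  obtain ⟨b, hb⟩ := cd_surj (i', σ', i'')
  refine ⟨b, ⟨by simp only [dD, hb]; exact ⟨k1, k2, k3, k4, k5, j2.trans k6, k7, k8⟩, ?_⟩,
    fun v hv => ?_⟩
  · simp only [OnS, st, csD, dD, LS_flat, hb]
    exact Onc.lg j5 (k9 y List.mem_cons_self) k6
  · simp only [LgS, st, csD, dD, LS_flat, hb]
    exact Lg.trans (j4 v hv) (k9 v (List.mem_cons_of_mem _ hv)) k6

theorem SH.good (H : SH s) {y : Cs} (hy : ∀ i, s.2.1 i → Good' (s.1 i) y)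
    (he : ¬ Lst e (Phi csD (dD s) y)) : Good' (Sig csD (dD s) e) y := by
  by_cases hc : ∃ i j, (s.1 i).2.2 j = y
  · obtain ⟨i, j, h⟩ := hc
    exact Or.inl ⟨Nat.pair i j, by simpa [Sig, dD, flat] using h⟩
  · exact Or.inr (H.fh.good (H.bv fun i hi => (hy i hi).resolve_left fun ⟨j, h⟩ => hc ⟨i, j, h⟩) he)

theorem SH.down {n m b : ℕ} (hm : n ≤ m) (h : Reach csD (dD s) e m b) :
    ∃ a, Reach csD (dD s) e n a ∧ Qle (s.1 (cd b).1) (s.1 (cd a).1) :=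
  reach_down (d := dD s) (Rl := fun a b => Qle (s.1 (cd b).1) (s.1 (cd a).1)) (fun _ => Qle.refl _)
    (fun _ _ _ h1 h2 => h2.trans h1) (fun _ _ _ h => h.2.2.2.1) hm h

theorem SH.le (H : SH s) : Qle (Sig csD (dD s) e) (s.1 s.2.2.2) := by
  intro σ hσ
  obtain ⟨n, a, h, rfl⟩ := sig_cases hσ
  obtain ⟨a0, h1, h2⟩ := SH.down (Nat.zero_le n) h
  rw [Reach] at h1
  rw [h1, H.start.1] at h2
  exact h2 (cd a).2.1 (H.fh.vd h).2.1

/-- Bound for the indices used at a front. -/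
noncomputable def bdD (s : Sy) (e : ℕ → ℕ) (j : ℕ) : ℕ :=
  rmx (fun a => (cd a).2.2) (lv csD (dD s) e (j + 1))

theorem SH.predense (H : SH s) (j : ℕ) {c : Qc} (hc : Nrm c) (h : Qle c (Sig csD (dD s) e)) :
    ∃ τ i, c.2.1 τ ∧ i ≤ bdD s e j ∧ s.2.2.1 j i ∧ Qle (rst c τ.1) (s.1 i) := by
  classical
  obtain ⟨σ, hσ⟩ := hc.1
  obtain ⟨τ, h1, i, h2, h3⟩ := cover_one (w := s.1)
    ((Finset.range (bdD s e j + 1)).filter (s.2.2.1 j)) hσ fun τ hτ _ => by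
      obtain ⟨m, b, k1, k2, k3⟩ := H.fh.front (h τ hτ) (j + 1)
      obtain ⟨a, k4, k5⟩ := SH.down k1 k2
      obtain ⟨a', -, k6, -⟩ := id k4
      refine ⟨(cd a).2.2, Finset.mem_filter.2 ⟨Finset.mem_range.2 (Nat.lt_succ_of_le
        (le_rmx (fun a => (cd a).2.2) k4.lt.le)), k6.2.1⟩, ?_⟩
      exact ((k5.trans k6.2.2.2.2.1) _ (H.fh.vd k2).2.1).pre k3
  rw [Finset.mem_filter, Finset.mem_range] at h2
  exact ⟨τ, i, h1, by omega, h2.2, h3⟩

end

theorem meas_bdD {α : Type*} [MeasurableSpace α] {s : α → Sy} {e : α → ℕ → ℕ} (hs : Measurable s)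
    (he : Measurable e) : Measurable fun a => bdD (s a) (e a) :=
  measurable_pi_lambda _ fun _ => meas_rmx measurable_const (meas_lv _ (meas_dD.comp hs) he _)

/-- Enumeration of states. -/
noncomputable def cp : ℕ → St := (exists_surjective_nat St).choose

theorem cp_surj : Function.Surjective cp := (exists_surjective_nat St).choose_spec

/-- Nodes and labels of the candidates for a promise. -/
noncomputable def csP (a : ℕ) : Nd × Finset ℕ := ((cp a).1, insert 0 ((cp a).2.1.image Nat.succ))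

/-- One more point in front. -/
def cns (p : Cs) (z : ℕ → Cs) : ℕ → Cs
  | 0 => p
  | n + 1 => z n

theorem LS_cns (p : Cs) (z : ℕ → Cs) (Z : Finset ℕ) :
    LS (cns p z) (insert 0 (Z.image Nat.succ)) = insert p (LS z Z) := by
  ext y; simp [LS, cns, eq_comm]

/-- Valid candidates for a promise. -/
def VdP (x : Qc) (p : Cs) (n a : ℕ) : Prop :=
  x.2.1 (cp a) ∧ n + 1 ≤ (cp a).2.2 ∧ ∀ z ∈ LS x.1 (cp a).2.1, Sep (cp a).1.length z p

/-- One late hit on the promised point. -/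
def Late (dd : ℕ → ℕ) (t : Nd) (L : Set Cs) (t' : Nd) (L' : Set Cs) (p : Cs) : Prop :=
  ∃ n, dd t.length ≤ n ∧ t.length ≤ n ∧ Hit t' n p ∧ Lg {n} t L t' L' p

/-- Fusion data for a promise. -/
noncomputable def dP (dd : ℕ → ℕ) (x : Qc) (p : Cs) : Fd :=
  (cns p x.1,
   fun n a b => x.2.1 (cp b) ∧ (cp a).1 <+: (cp b).1 ∧ n + 1 ≤ (cp b).1.length ∧
    n + 2 ≤ (cp b).2.2 ∧ Late dd (cp a).1 (LS x.1 (cp a).2.1) (cp b).1 (LS x.1 (cp b).2.1) p,
   sInf {a | VdP x p 0 a}, cns p x.2.2)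

theorem meas_cns {α : Type*} [MeasurableSpace α] {p : α → Cs} {z : α → ℕ → Cs}
    (hp : Measurable p) (hz : Measurable z) : Measurable fun a => cns (p a) (z a) :=
  measurable_pi_lambda _ fun n => by
    cases n
    exacts [hp, hz.eval]

theorem meas_dP {α : Type*} [MeasurableSpace α] (dd : ℕ → ℕ) {x : α → Qc} {p : α → Cs}
    (hx : Measurable x) (hp : Measurable p) : Measurable fun a => dP dd (x a) (p a) := by
  refine (meas_cns hp hx.fst).prodMk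
    ((measurable_pi_lambda _ fun n => measurable_pi_lambda _ fun a => measurable_pi_lambda _ fun b =>
      hx.snd.fst.eval.and (measurable_const.and (measurable_const.and (measurable_const.and
        (Measurable.exists fun k => measurable_const.and (measurable_const.and
          ((meas_hit _ _ hp).and (meas_lg _ _ _ _ _ hx.fst hx.fst hp)))))))).prodMk
    ((meas_sInf fun a => hx.snd.fst.eval.and (measurable_const.and ?_)).prodMk
      (meas_cns hp hx.snd.snd)))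
  simp only [forall_LS]
  exact Measurable.forall fun i => measurable_const.imp (meas_sep _ hx.fst.eval hp)

section
variable {dd e : ℕ → ℕ} {x : Qc} {p : Cs}

theorem late_step (hx : Nrm x) (hp : Good x p) {σ : St} (hσ : x.2.1 σ) (l : List Cs)
    (hl : l.length < σ.2.2) (hpl : p ∉ l) (k m : ℕ) : ∃ σ', x.2.1 σ' ∧ σ.1 <+: σ'.1 ∧
      m ≤ σ'.1.length ∧ m ≤ σ'.2.2 ∧ (∀ v ∈ l, LgS x.1 σ σ' v) ∧
      ∃ n, k ≤ n ∧ σ.1.length ≤ n ∧ Hit σ'.1 n p ∧
        Lg {n} σ.1 (LS x.1 σ.2.1) σ'.1 (LS x.1 σ'.2.1) p := by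
  obtain ⟨σ1, h1, h2, h3, h4, h5⟩ := hx.2 σ hσ (p :: l) hl (max (max k m) (l.length + 1))
  obtain ⟨σ2, h6, h7, h8, h9, n, k1, k2, k3⟩ := hp σ1 h1 l (by omega) hpl m
  have := h7.length_le
  exact ⟨σ2, h6, h2.trans h7, by omega, h8,
    fun v hv => Lg.trans (h5 v (List.mem_cons_of_mem _ hv)) (h9 v hv) h7,
    n, by omega, h2.length_le.trans k1, k2, (Lg.exc (h5 p List.mem_cons_self)).trans k3 h7⟩

theorem pp_fh (hx : Nrm x) (hp : Good x p) (hz : ∀ i, x.1 i ≠ p) :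
    FH csP (dP dd x p) (VdP x p) where
  v0 := by
    refine Nat.sInf_mem (s := {a | VdP x p 0 a}) ?_
    obtain ⟨σ, hσ⟩ := hx.1
    obtain ⟨σ1, h1, -, -, h2⟩ := hx.long hσ 1
    obtain ⟨k, hk⟩ := exists_sep (LS_finite x.1 σ1.2.1) (y := p) fun ⟨i, _, h⟩ => hz i h
    obtain ⟨σ2, h3, -, h4, h5, h6⟩ := hx.2 σ1 h1 [p] h2 (max k 1)
    obtain ⟨a, rfl⟩ := cp_surj σ2
    refine ⟨a, h3, by omega, fun z hz => ?_⟩
    by_cases hc : z ∈ LS x.1 σ1.2.1
    · exact (hk z hc).mono (by omega)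
    · exact (h6 p (by simp)).2 z hz hc
  vs := by
    rintro n a b ⟨-, -, h1⟩ ⟨h2, h3, -, h4, k, -, -, -, h5⟩
    refine ⟨h2, h4, fun z hz => ?_⟩
    by_cases hc : z ∈ LS x.1 (cp a).2.1
    · exact (h1 z hc).mono h3.length_le
    · exact h5.2 z hz hc
  pre := fun _ _ _ h => ⟨h.2.1, h.2.2.1⟩
  av := by
    classical
    rintro n a ⟨h1, h2, -⟩ l hl
    obtain ⟨σ', k1, k2, k3, k4, k5, k6⟩ := late_step hx hp h1 (l.filter (· ≠ p))
      ((List.length_filter_le _ _).trans_lt (by omega)) (by simp) (dd (cp a).1.length) (n + 2)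
    obtain ⟨b, rfl⟩ := cp_surj σ'
    refine ⟨b, ⟨k1, k2, by omega, k4, k6⟩, fun v hv => ?_⟩
    simp only [LgS, st, csP, dP, LS_cns]
    by_cases hc : v = p
    · obtain ⟨_, -, -, -, k7⟩ := k6
      exact hc ▸ k7.ins_self
    · exact Lg.ins (k5 v (by simp [hv, hc])) p

theorem pp_bv (hx : Nrm x) (hp : Good x p) {y : Cs} (hy : Good x y) (hyp : y ≠ p) :
    BV csP (dP dd x p) (VdP x p) y := by
  classical
  rintro n a ⟨h1, h2, -⟩ l hl hyl
  have hl' := List.length_filter_le (fun v => decide (v ≠ p)) l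
  obtain ⟨σ1, j1, j2, j3, j4, j5⟩ := hy _ h1 (p :: l.filter (· ≠ p)) (by simp only [List.length_cons]; omega)
    (by simp [hyp, hyl]) (n + 1)
  obtain ⟨σ', k1, k2, k3, k4, k5, m, k6, k7, k8, k9⟩ := late_step hx hp j1 (y :: l.filter (· ≠ p))
    (by simp only [List.length_cons]; omega) (by simp [hyp.symm]) (dd (cp a).1.length) (n + 2)
  obtain ⟨b, rfl⟩ := cp_surj σ'
  have hl : Lg {m} (cp a).1 (LS x.1 (cp a).2.1) (cp b).1 (LS x.1 (cp b).2.1) p :=
    (Lg.exc (j4 p List.mem_cons_self)).trans k9 k2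
  refine ⟨b, ⟨⟨k1, j2.trans k2, by omega, k4, m, k6, j2.length_le.trans k7, k8, hl⟩, ?_⟩,
    fun v hv => ?_⟩
  · simp only [OnS, st, csP, dP, LS_cns]
    obtain ⟨i, i1, i2, i3⟩ := Onc.lg j5 (k5 y List.mem_cons_self) k2
    exact ⟨i, i1, i2, i3.ins p⟩
  · simp only [LgS, st, csP, dP, LS_cns]
    by_cases hc : v = p
    · exact hc ▸ hl.ins_self
    · exact Lg.ins (Lg.trans (j4 v (by simp [hv, hc])) (k5 v (by simp [hv, hc])) k2) p

theorem pp_good (hx : Nrm x) (hp : Good x p) (hz : ∀ i, x.1 i ≠ p) {y : Cs} (hy : Good' x y)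
    (he : ¬ Lst e (Phi csP (dP dd x p) y)) : Good' (Sig csP (dP dd x p) e) y := by
  by_cases hc : y = p
  · exact Or.inl ⟨0, hc.symm⟩
  rcases hy with ⟨i, hi⟩ | hy
  · exact Or.inl ⟨i + 1, hi⟩
  · exact Or.inr ((pp_fh hx hp hz).good (pp_bv hx hp hy hc) he)

theorem pp_le (H : FH csP (dP dd x p) (VdP x p)) : Qle (Sig csP (dP dd x p) e) x := by
  intro σ hσ
  obtain ⟨n, a, h, rfl⟩ := sig_cases hσ
  exact ⟨_, (H.vd h).1, List.prefix_rfl⟩

theorem pp_sparse (H : FH csP (dP dd x p) (VdP x p)) (hd : Monotone dd) : ∃ k, ∀ {n a},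
    Reach csP (dP dd x p) e n a → ∀ i j, k ≤ i → i < j → Hit (cp a).1 i p → Hit (cp a).1 j p →
      dd i ≤ j := by
  refine ⟨(cp (dP dd x p).2.2.1).1.length, fun {n} => ?_⟩
  induction n with
  | zero =>
    intro a h i j h1 _ h2
    rw [Reach] at h
    exact absurd (h ▸ h2).lt (not_lt.2 h1)
  | succ n ih =>
    rintro b ⟨a, h1, ⟨-, h2, -, -, m, h3, h4, h5, h6⟩, -⟩ i j k1 k2 k3 k4
    have key : ∀ i, (cp a).1.length ≤ i → Hit (cp b).1 i p → i = m := by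
      intro i i1 i2
      by_contra hc
      obtain ⟨z, i3, i4⟩ := h6.1 i i1 hc i2
      exact i4.not_sep i2 (by omega) ((H.vd h1).2.2 z i3)
    by_cases hj : j < (cp a).1.length
    · exact ih h1 i j k1 k2 ((hit_pre h2 (by omega)).1 k3) ((hit_pre h2 hj).1 k4)
    · have e1 := key j (not_lt.1 hj) k4
      by_cases hi : i < (cp a).1.length
      · exact (hd hi.le).trans (e1 ▸ h3)
      · have e2 := key i (not_lt.1 hi) k3
        omega

/-- The branch hits the point at a level. -/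
def Hr (r : Nd → Prop) (p : Cs) (n : ℕ) : Prop := ∃ u, r u ∧ Hit u n p

/-- The next hit. -/
noncomputable def nx (r : Nd → Prop) (p : Cs) (n : ℕ) : ℕ := sInf {m | n ≤ m ∧ Hr r p m}

/-- The second hit. -/
noncomputable def fr (r : Nd → Prop) (p : Cs) (n : ℕ) : ℕ := nx r p (nx r p n + 1)

theorem pp_branch (H : FH csP (dP dd x p) (VdP x p)) (hd : Monotone dd) {r : Nd → Prop}
    (h1 : ∀ u, r u → Tr (Sig csP (dP dd x p) e) u)
    (h2 : ∀ u u', r u → r u' → u <+: u' ∨ u' <+: u) (h3 : ∀ n, ∃ u, r u ∧ n ≤ u.length) :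
    Lst dd (fr r p) := by
  have hinf : ∀ n, {m | n ≤ m ∧ Hr r p m}.Nonempty := by
    intro n
    obtain ⟨u, k1, k2⟩ := h3 (rmx (fun a => (cp a).1.length) (lv csP (dP dd x p) e (n + 1)))
    obtain ⟨m, b, k3, k4, k5⟩ := H.front (h1 u k1) (n + 1)
    obtain ⟨a, k6, k7⟩ := reach_down (d := dP dd x p) (Rl := fun a b => (cp a).1 <+: (cp b).1)
      (fun _ => List.prefix_rfl) (fun _ _ _ h1 h2 => h1.trans h2) (fun _ _ _ h => h.2.1) k3 k4
    have k8 : (cp a).1 <+: u := List.prefix_of_prefix_length_le k7 k5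
      ((le_rmx (fun a => (cp a).1.length) k6.lt.le).trans k2)
    obtain ⟨a', j1, ⟨-, -, -, -, i, -, j2, j3, -⟩, -⟩ := k6
    exact ⟨i, (H.len j1).trans j2, u, k1, j3.pre k8⟩
  obtain ⟨k, hk⟩ := pp_sparse (e := e) H hd
  refine ⟨k, fun n hn => ?_⟩
  obtain ⟨a1, u, a2, a3⟩ := Nat.sInf_mem (hinf n)
  obtain ⟨b1, u', b2, b3⟩ := Nat.sInf_mem (hinf (nx r p n + 1))
  have key : ∀ v, r v → Hit v (nx r p n) p → Hit v (fr r p n) p → dd (nx r p n) ≤ fr r p n := by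
    intro v c1 c2 c3
    obtain ⟨m, b, -, k4, k5⟩ := H.front (h1 v c1) 0
    exact hk k4 _ _ (hn.trans a1) b1 (c2.pre k5) (c3.pre k5)
  refine (hd a1).trans ?_
  rcases h2 u u' a2 b2 with h | h
  · exact key u' b2 (a3.pre h) b3
  · exact key u a2 a3 (b3.pre h)

end

theorem meas_fr {α : Type*} [MeasurableSpace α] {r : α → Nd → Prop} {p : α → Cs}
    (hr : Measurable r) (hp : Measurable p) : Measurable fun a => fr (r a) (p a) := by
  have h1 : ∀ n, Measurable fun a => nx (r a) (p a) n := fun n =>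
    meas_sInf fun m => measurable_const.and
      (Measurable.exists fun u => hr.eval.and (meas_hit _ _ hp))
  exact measurable_pi_lambda _ fun n => meas_ctbl (f := fun k a => nx (r a) (p a) (k + 1))
    (fun k => h1 _) (h1 n)

end Pool.Agent.Lib.MP_fecf72_lc
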