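import Pool.Agent.Lib.MP_fecf72_lc.Defs
import Pool.Agent.Lib.MP_fecf72_lc.Gen

namespace Pool.Agent.Lib.MP_fecf72_lc

open Set Filter

universe u v

/-- Names for sets. -/
inductive Nm (U : Type 1) : Type 2
  | mk (ι : Type 1) (A : ι → Nm U) (c : ι → U) : Nm U

variable {U : Type 1}

/-- Index type of a name. -/
def Nm.idx : Nm U → Type 1
  | .mk ι _ _ => ι

/-- Members of a name. -/
def Nm.sub : (τ : Nm U) → τ.idx → Nm U
  | .mk _ A _ => A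

/-- Conditions of a name. -/
def Nm.cnd : (τ : Nm U) → τ.idx → U
  | .mk _ _ c => c

/-- The pair `(π, s)` belongs to the name `τ`. -/
def Ch (τ π : Nm U) (s : U) : Prop := ∃ i, τ.sub i = π ∧ τ.cnd i = s

theorem Nm.ind {P : Nm U → Prop} (h : ∀ τ, (∀ π s, Ch τ π s → P π) → P τ) (τ : Nm U) : P τ := by
  induction τ with
  | mk ι A c ih => exact h _ fun _ _ ⟨i, h1, _⟩ => h1 ▸ ih i

/-- The empty name. -/
def eN : Nm U := .mk PEmpty PEmpty.elim PEmpty.elim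

instance : Nonempty (Nm U) := ⟨eN⟩

variable (R : U → U → Prop)

/-- Forcing of equality. -/
def FEq : Nm U → Nm U → U → Prop
  | .mk _ A c, τ, p =>
    (∀ i q, R q p → R q (c i) → ∃ r j, R r q ∧ R r (τ.cnd j) ∧ FEq (A i) (τ.sub j) r) ∧
    (∀ j q, R q p → R q (τ.cnd j) → ∃ r i, R r q ∧ R r (c i) ∧ FEq (A i) (τ.sub j) r)

/-- Forcing of membership. -/
def FMem (σ τ : Nm U) (p : U) : Prop :=
  ∀ q, R q p → ∃ r π s, R r q ∧ Ch τ π s ∧ R r s ∧ FEq R σ π r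

/-- Forcing of formulas. -/
def FF : Fm → List (Nm U) → U → Prop
  | .mem i j, v, p => FMem R (v.getD i eN) (v.getD j eN) p
  | .eq i j, v, p => FEq R (v.getD i eN) (v.getD j eN) p
  | .not φ, v, p => ∀ q, R q p → ¬ FF φ v q
  | .and φ ψ, v, p => FF φ v p ∧ FF ψ v p
  | .all φ, v, p => ∀ τ, FF φ (τ :: v) p

variable {R}

theorem feq_iff {σ τ : Nm U} {p : U} : FEq R σ τ p ↔
    (∀ π s, Ch σ π s → ∀ q, R q p → R q s → ∃ r π' s', R r q ∧ Ch τ π' s' ∧ R r s' ∧ FEq R π π' r) ∧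
    (∀ π' s', Ch τ π' s' → ∀ q, R q p → R q s' →
      ∃ r π s, R r q ∧ Ch σ π s ∧ R r s ∧ FEq R π π' r) := by
  cases σ with
  | mk ι A c =>
  rw [FEq]
  refine and_congr ⟨?_, fun h i q h1 h2 => ?_⟩ ⟨?_, fun h j q h1 h2 => ?_⟩
  · rintro h _ _ ⟨i, rfl, rfl⟩ q h1 h2
    obtain ⟨r, j, h3, h4, h5⟩ := h i q h1 h2
    exact ⟨r, _, _, h3, ⟨j, rfl, rfl⟩, h4, h5⟩
  · obtain ⟨r, _, _, h3, ⟨j, rfl, rfl⟩, h4, h5⟩ := h _ _ ⟨i, rfl, rfl⟩ q h1 h2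
    exact ⟨r, j, h3, h4, h5⟩
  · rintro h _ _ ⟨j, rfl, rfl⟩ q h1 h2
    obtain ⟨r, i, h3, h4, h5⟩ := h j q h1 h2
    exact ⟨r, _, _, h3, ⟨i, rfl, rfl⟩, h4, h5⟩
  · obtain ⟨r, _, _, h3, ⟨i, rfl, rfl⟩, h4, h5⟩ := h _ _ ⟨j, rfl, rfl⟩ q h1 h2
    exact ⟨r, i, h3, h4, h5⟩

theorem FEq.le (hR : Fo R) {σ τ : Nm U} {p q : U} (h : FEq R σ τ p) (k : R q p) : FEq R σ τ q :=
  feq_iff.2 ⟨fun π s h1 r h2 => (feq_iff.1 h).1 π s h1 r (hR.tr h2 k),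
    fun π s h1 r h2 => (feq_iff.1 h).2 π s h1 r (hR.tr h2 k)⟩

theorem FMem.le (hR : Fo R) {σ τ : Nm U} {p q : U} (h : FMem R σ τ p) (k : R q p) : FMem R σ τ q :=
  fun r h1 => h r (hR.tr h1 k)

theorem FF.le (hR : Fo R) {φ : Fm} : ∀ {v : List (Nm U)} {p q : U}, FF R φ v p → R q p →
    FF R φ v q := by
  induction φ with
  | mem i j => exact fun h k => FMem.le hR h k
  | eq i j => exact fun h k => FEq.le hR h k
  | not φ _ => exact fun h k r h1 => h r (hR.tr h1 k)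
  | and φ ψ ih1 ih2 => exact fun h k => ⟨ih1 h.1 k, ih2 h.2 k⟩
  | all φ ih => exact fun h k τ => ih (h τ) k

theorem FF.reg (hR : Fo R) {φ : Fm} : ∀ {v : List (Nm U)} {p : U},
    (∀ q, R q p → ∃ r, R r q ∧ FF R φ v r) → FF R φ v p := by
  induction φ with
  | mem i j =>
    intro v p h q h1
    obtain ⟨r, h2, h3⟩ := h q h1
    obtain ⟨r', π, s, h4, h5⟩ := h3 r (hR.l h2)
    exact ⟨r', π, s, hR.tr h4 h2, h5⟩
  | eq i j =>
    intro v p h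
    refine feq_iff.2 ⟨fun π s h0 q h1 h1' => ?_, fun π s h0 q h1 h1' => ?_⟩
    · obtain ⟨r, h2, h3⟩ := h q h1
      obtain ⟨r', π, s, h4, h5⟩ := (feq_iff.1 h3).1 π s h0 r (hR.l h2) (hR.tr h2 h1')
      exact ⟨r', π, s, hR.tr h4 h2, h5⟩
    · obtain ⟨r, h2, h3⟩ := h q h1
      obtain ⟨r', π, s, h4, h5⟩ := (feq_iff.1 h3).2 π s h0 r (hR.l h2) (hR.tr h2 h1')
      exact ⟨r', π, s, hR.tr h4 h2, h5⟩
  | not φ _ =>
    intro v p h q h1 h2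
    obtain ⟨r, h3, h4⟩ := h q h1
    exact h4 r (hR.l h3) (h2.le hR h3)
  | and φ ψ ih1 ih2 =>
    exact fun h => ⟨ih1 fun q k => (h q k).imp fun _ k => ⟨k.1, k.2.1⟩,
      ih2 fun q k => (h q k).imp fun _ k => ⟨k.1, k.2.2⟩⟩
  | all φ ih => exact fun h τ => ih fun q k => (h q k).imp fun _ k => ⟨k.1, k.2 τ⟩

open Classical in
/-- A small class as a set. -/
noncomputable def ofSet (s : Set V) : V :=
  if h : Small.{0} s then @ZFSet.range s h Subtype.val else ∅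

theorem mem_ofSet {s : Set V} (h : s.Countable) {x : V} : x ∈ ofSet s ↔ x ∈ s := by
  have := h.to_subtype
  rw [ofSet, dif_pos (inferInstance : Small.{0} s)]
  simp

/-- The value of a name; only members in the hull count. -/
noncomputable def val (N : Set Wd) (G : Set U) : Nm U → V
  | .mk _ A c => ofSet {x | ∃ i, c i ∈ G ∧ In N (A i) ∧ x = val N G (A i)}

theorem mem_val {N : Set Wd} (hN : N.Countable) {G : Set U} {τ : Nm U} {x : V} :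
    x ∈ val N G τ ↔ ∃ π s, Ch τ π s ∧ s ∈ G ∧ In N π ∧ x = val N G π := by
  cases τ with
  | mk ι A c =>
  rw [val, mem_ofSet (((countable_In (Nm U) hN).image (val N G)).mono (by
    rintro _ ⟨i, _, h1, h2⟩
    exact ⟨_, h1, h2.symm⟩))]
  exact ⟨fun ⟨i, h⟩ => ⟨_, _, ⟨i, rfl, rfl⟩, h⟩, fun ⟨_, _, ⟨i, rfl, rfl⟩, h⟩ => ⟨i, h⟩⟩

/-- The generic extension of the hull. -/
def Mod (N : Set Wd) (G : Set U) : Set V := val N G '' {τ | In N τ}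

/-- A filter generic over the hull. -/
structure GG (N : Set Wd) (R : U → U → Prop) (G : Set U) : Prop where
  f : IsF R G
  g : GenN N R G

theorem club_wit (hR : Fo R) {A : Type u} {T : Type v} (Q : A → U → T → Prop) [Srt A] [Srt T] :
    ∀ᶠ N in Club, ∀ G, GG N R G → ∀ a, In N a →
      (∃ q ∈ G, ∀ r, R r q → ∃ s x t, Q a s x ∧ R t r ∧ R t s) →
        ∃ s ∈ G, ∃ x, In N x ∧ Q a s x := by
  filter_upwards [clo1 fun a : A => {t | (∃ s x, Q a s x ∧ R t s) ∨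
      ∀ s x, Q a s x → ∀ r, R r t → ¬ R r s},
    sk2 fun (a : A) (t : U) (x : T) => ∃ s, Q a s x ∧ R t s] with N h1 h2 G hG a ha ⟨q, hq, h⟩
  obtain ⟨t, ht | ht, htG, htN⟩ := hG.g _ (h1 a ha) (by
    intro p hp
    by_cases hc : ∃ s x, Q a s x ∧ ∃ r, R r p ∧ R r s
    · obtain ⟨s, x, h3, r, h4, h5⟩ := hc
      exact ⟨r, Or.inl ⟨s, x, h3, h5⟩, h4⟩
    · exact ⟨p, Or.inr fun s x h3 r h4 h5 => hc ⟨s, x, h3, r, h4, h5⟩, hp⟩)
  · obtain ⟨s, x, ht⟩ := ht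
    obtain ⟨x, h3, s, h4, h5⟩ := h2 a t ha htN ⟨x, s, ht⟩
    exact ⟨s, hG.f.1 t htG s h5, x, h3, h4⟩
  · obtain ⟨r, -, h3, h4⟩ := hG.f.2 t htG q hq
    obtain ⟨s, x, t', h5, h6, h7⟩ := h r h4
    exact (ht s x h5 t' (hR.tr h6 h3) h7).elim

theorem club_wit1 (hR : Fo R) {A : Type u} {T : Type v} (Q : A → U → T → Prop) [Srt A] [Srt T] :
    ∀ᶠ N in Club, ∀ G, GG N R G → ∀ a, In N a → (∃ s ∈ G, ∃ x, Q a s x) →
      ∃ s ∈ G, ∃ x, In N x ∧ Q a s x :=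
  (club_wit hR Q).mono fun _ h G hG a ha ⟨s, h1, x, h2⟩ =>
    h G hG a ha ⟨s, h1, fun r k => ⟨s, x, r, h2, hR.l k, k⟩⟩

theorem club_wit2 (hR : Fo R) {A : Type u} {T : Type v} (Q : A → U → T → Prop) [Srt A] [Srt T] :
    ∀ᶠ N in Club, ∀ G, GG N R G → ∀ a, In N a →
      (∃ q ∈ G, ∀ r, R r q → ∃ s x, R s r ∧ Q a s x) → ∃ s ∈ G, ∃ x, In N x ∧ Q a s x :=
  (club_wit hR Q).mono fun _ h G hG a ha ⟨q, h1, h2⟩ =>
    h G hG a ha ⟨q, h1, fun r k => let ⟨s, x, h3, h4⟩ := h2 r k; ⟨s, x, s, h4, h3, hR.l h3⟩⟩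

theorem club_ne : ∀ᶠ N in Club, ∀ G : Set U, GG N R G → ∃ q, q ∈ G :=
  (clo0 (univ : Set U)).mono fun _ h _ hG =>
    let ⟨d, _, h1, _⟩ := hG.g _ h fun p hp => ⟨p, trivial, hp⟩; ⟨d, h1⟩

theorem IsF.three (hR : Fo R) {G : Set U} (h : IsF R G) {a b c : U} (ha : a ∈ G) (hb : b ∈ G)
    (hc : c ∈ G) : ∃ r ∈ G, R r a ∧ R r b ∧ R r c :=
  let ⟨r, h1, h2, h3⟩ := h.2 a ha b hb
  let ⟨s, h4, h5, h6⟩ := h.2 r h1 c hc
  ⟨s, h4, hR.tr h5 h2, hR.tr h5 h3, h6⟩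

theorem club_eq (hR : Fo R) : ∀ᶠ N in Club, ∀ G, GG N R G → ∀ σ τ : Nm U, In N σ → In N τ →
    (val N G σ = val N G τ ↔ ∃ p ∈ G, FEq R σ τ p) := by
  filter_upwards [club_countable, club_ne, clo_pair (Nm U) (Nm U), clo0 (eN : Nm U),
    club_wit2 hR fun (z : Nm U × Nm U) r π' => ∃ s', Ch z.2 π' s' ∧ R r s' ∧ FEq R z.1 π' r,
    club_wit2 hR fun (z : Nm U × Nm U) r π => ∃ s, Ch z.1 π s ∧ R r s ∧ FEq R π z.2 r,
    club_wit2 hR fun (z : Nm U × Nm U) p π => FEq R z.1 z.2 p ∨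
      (∃ s, Ch z.1 π s ∧ R p s ∧ ∀ r π' s', R r p → Ch z.2 π' s' → R r s' → ¬ FEq R π π' r) ∨
      (∃ s, Ch z.2 π s ∧ R p s ∧ ∀ r π' s', R r p → Ch z.1 π' s' → R r s' → ¬ FEq R π' π r)]
    with N hc ne cp he w1 w2 w3 G hG σ
  induction σ using Nm.ind with
  | h σ ih =>
  intro τ hσ hτ
  constructor
  · intro h
    obtain ⟨q, hq⟩ := ne G hG
    obtain ⟨p, h1, π, h2, h3 | ⟨s, h3, h4, h5⟩ | ⟨s, h3, h4, h5⟩⟩ := w3 G hG (σ, τ)
      ((cp _ _).2 ⟨hσ, hτ⟩) ⟨q, hq, fun r hr => by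
        by_cases k : FEq R σ τ r
        · exact ⟨r, eN, hR.l hr, Or.inl k⟩
        rw [feq_iff, not_and_or] at k
        simp only [not_forall, not_exists, not_and] at k
        rcases k with ⟨π, s, a1, r', a2, a3, a4⟩ | ⟨π, s, a1, r', a2, a3, a4⟩
        · exact ⟨r', π, a2, Or.inr (Or.inl ⟨s, a1, a3, a4⟩)⟩
        · exact ⟨r', π, a2, Or.inr (Or.inr ⟨s, a1, a3, a4⟩)⟩⟩
    · exact ⟨p, h1, h3⟩
    · obtain ⟨π', s', a1, a2, a3, a4⟩ := (mem_val hc).1 (h ▸ (mem_val hc).2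
        ⟨π, s, h3, hG.f.1 p h1 s h4, h2, rfl⟩ : val N G π ∈ val N G τ)
      obtain ⟨r0, a5, a6⟩ := (ih π s h3 π' h2 a3).1 a4
      obtain ⟨r, -, b1, b2, b3⟩ := hG.f.three hR h1 a2 a5
      exact (h5 r π' s' b1 a1 b2 (a6.le hR b3)).elim
    · obtain ⟨π', s', a1, a2, a3, a4⟩ := (mem_val hc).1 (h ▸ (mem_val hc).2
        ⟨π, s, h3, hG.f.1 p h1 s h4, h2, rfl⟩ : val N G π ∈ val N G σ)
      obtain ⟨r0, a5, a6⟩ := (ih π' s' a1 π a3 h2).1 a4.symm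
      obtain ⟨r, -, b1, b2, b3⟩ := hG.f.three hR h1 a2 a5
      exact (h5 r π' s' b1 a1 b2 (a6.le hR b3)).elim
  · rintro ⟨p, hp, h⟩
    rw [feq_iff] at h
    ext x
    simp only [mem_val hc]
    constructor
    · rintro ⟨π, s, a1, a2, a3, rfl⟩
      obtain ⟨q, a4, a5, a6⟩ := hG.f.2 p hp s a2
      obtain ⟨r, b1, π', b2, s', b3, b4, b5⟩ := w1 G hG (π, τ) ((cp _ _).2 ⟨a3, hτ⟩) ⟨q, a4,
        fun r hr => let ⟨r', π', s', c1, c2⟩ := h.1 π s a1 r (hR.tr hr a5) (hR.tr hr a6)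
          ⟨r', π', c1, s', c2⟩⟩
      exact ⟨π', s', b3, hG.f.1 r b1 s' b4, b2, (ih π s a1 π' a3 b2).2 ⟨r, b1, b5⟩⟩
    · rintro ⟨π', s', a1, a2, a3, rfl⟩
      obtain ⟨q, a4, a5, a6⟩ := hG.f.2 p hp s' a2
      obtain ⟨r, b1, π, b2, s, b3, b4, b5⟩ := w2 G hG (σ, π') ((cp _ _).2 ⟨hσ, a3⟩) ⟨q, a4,
        fun r hr => let ⟨r', π, s, c1, c2⟩ := h.2 π' s' a1 r (hR.tr hr a5) (hR.tr hr a6)
          ⟨r', π, c1, s, c2⟩⟩
      exact ⟨π, s, b3, hG.f.1 r b1 s b4, b2, ((ih π s b3 π' b2 a3).2 ⟨r, b1, b5⟩).symm⟩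

theorem club_mem (hR : Fo R) : ∀ᶠ N in Club, ∀ G, GG N R G → ∀ σ τ : Nm U, In N σ → In N τ →
    (val N G σ ∈ val N G τ ↔ ∃ p ∈ G, FMem R σ τ p) := by
  filter_upwards [club_countable, club_eq hR, clo_pair (Nm U) (Nm U),
    club_wit2 hR fun (z : Nm U × Nm U) r π' => ∃ s', Ch z.2 π' s' ∧ R r s' ∧ FEq R z.1 π' r]
    with N hc ce cp w1 G hG σ τ hσ hτ
  rw [mem_val hc]
  constructor
  · rintro ⟨π, s, a1, a2, a3, a4⟩
    obtain ⟨r0, a5, a6⟩ := (ce G hG σ π hσ a3).1 a4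
    obtain ⟨r, b1, b2, b3⟩ := hG.f.2 s a2 r0 a5
    exact ⟨r, b1, fun q hq => ⟨q, π, s, hR.l hq, a1, hR.tr hq b2, a6.le hR (hR.tr hq b3)⟩⟩
  · rintro ⟨p, hp, h⟩
    obtain ⟨r, b1, π', b2, s', b3, b4, b5⟩ := w1 G hG (σ, τ) ((cp _ _).2 ⟨hσ, hτ⟩) ⟨p, hp,
      fun r hr => let ⟨r', π', s', c1, c2⟩ := h r hr; ⟨r', π', c1, s', c2⟩⟩
    exact ⟨π', s', b3, hG.f.1 r b1 s' b4, b2, (ce G hG σ π' hσ b2).2 ⟨r, b1, b5⟩⟩

theorem club_list : ∀ᶠ N in Club, ∀ v : List (Nm U), (∀ τ ∈ v, In N τ) → In N v := by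
  filter_upwards [clo0 ([] : List (Nm U)), clo2 (List.cons : Nm U → _)] with N h1 h2 v hv
  induction v with
  | nil => exact h1
  | cons a v ih =>
    exact h2 a v (hv a List.mem_cons_self) (ih fun τ h => hv τ (List.mem_cons_of_mem _ h))

theorem val_eN {N : Set Wd} (hN : N.Countable) (G : Set U) : val N G eN = ∅ :=
  ZFSet.eq_empty _ |>.2 fun _ h => let ⟨_, _, ⟨i, _⟩, _⟩ := (mem_val hN).1 h; i.elim

instance : Countable Fm := by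
  let e : Fm → ℕ := fun φ => Fm.rec (fun i j => Nat.pair 0 (Nat.pair i j))
    (fun i j => Nat.pair 1 (Nat.pair i j)) (fun _ a => Nat.pair 2 a)
    (fun _ _ a b => Nat.pair 3 (Nat.pair a b)) (fun _ a => Nat.pair 4 a) φ
  refine ⟨e, fun φ => ?_⟩
  induction φ with
  | mem i j => intro ψ h; cases ψ <;> simp_all [e]
  | eq i j => intro ψ h; cases ψ <;> simp_all [e]
  | not φ ih =>
    intro ψ h
    cases ψ <;> simp only [e, Nat.pair_eq_pair] at h <;> first | omega | rw [ih h.2]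
  | and φ φ' ih ih' =>
    intro ψ h
    cases ψ <;> simp only [e, Nat.pair_eq_pair] at h <;> first | omega | rw [ih h.2.1, ih' h.2.2]
  | all φ ih =>
    intro ψ h
    cases ψ <;> simp only [e, Nat.pair_eq_pair] at h <;> first | omega | rw [ih h.2]

theorem club_sat (hR : Fo R) : ∀ᶠ N in Club, ∀ G, GG N R G → ∀ (φ : Fm) (v : List (Nm U)),
    (∀ τ ∈ v, In N τ) → (Sat (Mod N G) φ (v.map (val N G)) ↔ ∃ p ∈ G, FF R φ v p) := by
  filter_upwards [club_countable, club_ne, club_eq hR, club_mem hR, club_list, clo0 (eN : Nm U),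
    club_all fun φ : Fm => club_wit2 hR fun (v : List (Nm U)) p (τ : Nm U) =>
      FF R φ v p ∨ FF R (.not φ) v p,
    club_all fun φ : Fm => club_wit2 hR fun (v : List (Nm U)) p (τ : Nm U) =>
      FF R (.all φ) v p ∨ FF R (.not φ) (τ :: v) p]
    with N hc ne ce cm cl he w1 w2 G hG φ
  have e1 : ∀ (v : List (Nm U)) i, (v.map (val N G)).getD i ∅ = val N G (v.getD i eN) := by
    intro v i
    rw [← val_eN hc G, List.getD_map]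
  have e2 : ∀ (v : List (Nm U)), (∀ τ ∈ v, In N τ) → ∀ i, In N (v.getD i eN) := by
    intro v hv i
    rcases lt_or_ge i v.length with h | h
    · rw [List.getD_eq_getElem _ _ h]; exact hv _ (List.getElem_mem h)
    · rwa [List.getD_eq_default _ _ h]
  obtain ⟨q0, hq0⟩ := ne G hG
  induction φ with
  | mem i j => intro v hv; rw [Sat, e1, e1]; exact cm G hG _ _ (e2 v hv i) (e2 v hv j)
  | eq i j => intro v hv; rw [Sat, e1, e1]; exact ce G hG _ _ (e2 v hv i) (e2 v hv j)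
  | not φ ih =>
    intro v hv
    rw [Sat, ih v hv]
    constructor
    · intro h
      obtain ⟨p, h1, -, -, h2 | h2⟩ := w1 φ G hG v (cl v hv) ⟨q0, hq0, fun r hr => by
        by_cases k : ∃ s, R s r ∧ FF R φ v s
        · obtain ⟨s, k1, k2⟩ := k
          exact ⟨s, eN, k1, Or.inl k2⟩
        · exact ⟨r, eN, hR.l hr, Or.inr fun s k1 k2 => k ⟨s, k1, k2⟩⟩⟩
      · exact (h ⟨p, h1, h2⟩).elim
      · exact ⟨p, h1, h2⟩
    · rintro ⟨p, h1, h2⟩ ⟨q, h3, h4⟩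
      obtain ⟨r, -, h5, h6⟩ := hG.f.2 p h1 q h3
      exact h2 r h5 (h4.le hR h6)
  | and φ ψ ih1 ih2 =>
    intro v hv
    rw [Sat, ih1 v hv, ih2 v hv]
    constructor
    · rintro ⟨⟨p, h1, h2⟩, q, h3, h4⟩
      obtain ⟨r, h0, h5, h6⟩ := hG.f.2 p h1 q h3
      exact ⟨r, h0, h2.le hR h5, h4.le hR h6⟩
    · exact fun ⟨p, h1, h2⟩ => ⟨⟨p, h1, h2.1⟩, p, h1, h2.2⟩
  | all φ ih =>
    intro v hv
    have hv' : ∀ τ, In N τ → ∀ σ ∈ τ :: v, In N σ := fun τ h => List.forall_mem_cons.2 ⟨h, hv⟩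
    rw [Sat]
    constructor
    · intro h
      obtain ⟨p, h1, τ, h3, h2 | h2⟩ := w2 φ G hG v (cl v hv) ⟨q0, hq0, fun r hr => by
        by_cases k : FF R (.all φ) v r
        · exact ⟨r, eN, hR.l hr, Or.inl k⟩
        · obtain ⟨τ, k⟩ := not_forall.1 k
          have := mt (FF.reg hR) k
          simp only [not_forall, not_exists, not_and] at this
          obtain ⟨s, k1, k2⟩ := this
          exact ⟨s, τ, k1, Or.inr k2⟩⟩
      · exact ⟨p, h1, h2⟩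
      · obtain ⟨q, h4, h5⟩ := (ih _ (hv' τ h3)).1 (h _ ⟨τ, h3, rfl⟩)
        obtain ⟨r, -, h6, h7⟩ := hG.f.2 p h1 q h4
        exact (h2 r h6 (h5.le hR h7)).elim
    · rintro ⟨p, h1, h2⟩ _ ⟨τ, h3, rfl⟩
      exact (ih _ (hv' τ h3)).2 ⟨p, h1, h2 τ⟩

end Pool.Agent.Lib.MP_fecf72_lc
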