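import Pool.Agent.Lib.MP_fecf72_lc.Comb

namespace Pool.Agent.Lib.MP_fecf72_lc

open Set

theorem isOpen_of_loc {P : Cs → Prop} (k : ℕ) (h : ∀ v v', (∀ i < k, v i = v' i) → P v → P v') :
    IsOpen {v | P v} := by
  rw [isOpen_iff_forall_mem_open]
  intro v hv
  refine ⟨{v' | ∀ i ∈ Finset.range k, v' i = v i}, fun v' hv' =>
    h v v' (fun i hi => (hv' i (Finset.mem_range.2 hi)).symm) hv, ?_, fun _ _ => rfl⟩
  have : {v' : Cs | ∀ i ∈ Finset.range k, v' i = v i} =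
      ⋂ i ∈ Finset.range k, (fun v' : Cs => v' i) ⁻¹' {v i} := by ext; simp
  rw [this]
  exact isOpen_biInter_finset fun i _ => (isOpen_discrete _).preimage (continuous_apply i)

theorem cpt (n : ℕ) {Mk : Cs → Prop} (hM : IsClosed {v | Mk v}) {ok : ℕ → Prop}
    {Pr : ℕ → Cs → Prop} (hP : ∀ b, IsOpen {v | Pr b v})
    (h : ∀ l : List Cs, l.length < n → (∀ v ∈ l, Mk v) → ∃ b, ok b ∧ ∀ v ∈ l, Pr b v) :
    ∃ B, ∀ l : List Cs, l.length < n → (∀ v ∈ l, Mk v) → ∃ b < B, ok b ∧ ∀ v ∈ l, Pr b v := by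
  have key : ∀ k, ∃ B, k < n → ∀ f : Fin k → Cs, (∀ i, Mk (f i)) →
      ∃ b < B, ok b ∧ ∀ i, Pr b (f i) := by
    intro k
    by_cases hk : k < n
    swap
    · exact ⟨0, fun h => (hk h).elim⟩
    have hK : IsCompact {f : Fin k → Cs | ∀ i, Mk (f i)} := by
      apply IsClosed.isCompact
      rw [setOf_forall]
      exact isClosed_iInter fun i => hM.preimage (continuous_apply i)
    obtain ⟨t, ht⟩ := hK.elim_finite_subcover (fun b => {f | ok b ∧ ∀ i, Pr b (f i)}) (by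
      intro b
      by_cases hb : ok b
      · simp only [hb, true_and, setOf_forall]
        exact isOpen_iInter_of_finite fun i => (hP b).preimage (continuous_apply i)
      · simp [hb]) (by
      intro f hf
      obtain ⟨b, h1, h2⟩ := h (List.ofFn f) (by simpa using hk) (by simpa using hf)
      exact mem_iUnion.2 ⟨b, h1, by simpa using h2⟩)
    refine ⟨t.sup id + 1, fun _ f hf => ?_⟩
    obtain ⟨b, hb, h1⟩ := mem_iUnion₂.1 (ht hf)
    exact ⟨b, Nat.lt_succ_of_le (Finset.le_sup (f := id) hb), h1⟩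
  choose B hB using key
  refine ⟨(Finset.range n).sup B, fun l hl hm => ?_⟩
  obtain ⟨b, h1, h2, h3⟩ := hB l.length hl l.get fun i => hm _ (List.get_mem _ _)
  refine ⟨b, h1.trans_le (Finset.le_sup (Finset.mem_range.2 hl)), h2, fun v hv => ?_⟩
  obtain ⟨i, rfl⟩ := List.get_of_mem hv
  exact h3 i

/-- A finite string extended by zeros. -/
def pad (v : List Bool) : Cs := fun i => v.getD i false

theorem pad_res {n i : ℕ} (h : i < n) (y : Cs) : pad (res n y) i = y i := by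
  simp [pad, res, h]

/-- The least number of candidates that handles all tuples. -/
noncomputable def bnd (n : ℕ) (Mk : Cs → Prop) (ok : ℕ → Prop) (Pr : ℕ → Cs → Prop) : ℕ :=
  sInf {B | ∀ l : List (List Bool), l.length < n → (∀ v ∈ l, Mk (pad v)) →
    ∃ b < B, ok b ∧ ∀ v ∈ l, Pr b (pad v)}

theorem bnd_spec {n : ℕ} {Mk : Cs → Prop} (kM : ℕ)
    (hM : ∀ v v', (∀ i < kM, v i = v' i) → Mk v → Mk v') {ok : ℕ → Prop}
    {Pr : ℕ → Cs → Prop} (kP : ℕ → ℕ)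
    (hP : ∀ b v v', (∀ i < kP b, v i = v' i) → Pr b v → Pr b v')
    (h : ∀ l : List Cs, l.length < n → (∀ v ∈ l, Mk v) → ∃ b, ok b ∧ ∀ v ∈ l, Pr b v)
    (l : List Cs) (hl : l.length < n) (hm : ∀ v ∈ l, Mk v) :
    ∃ b < bnd n Mk ok Pr, ok b ∧ ∀ v ∈ l, Pr b v := by
  obtain ⟨B, hB⟩ := cpt n (Mk := Mk) (by
    rw [← isOpen_compl_iff]
    exact isOpen_of_loc (P := fun v => ¬ Mk v) kM fun v v' h1 h2 h3 =>
      h2 (hM v' v (fun i hi => (h1 i hi).symm) h3)) (fun b => isOpen_of_loc _ (hP b)) h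
  have hne : {B | ∀ l : List (List Bool), l.length < n → (∀ v ∈ l, Mk (pad v)) →
      ∃ b < B, ok b ∧ ∀ v ∈ l, Pr b (pad v)}.Nonempty := ⟨B, fun l h1 h2 => by
    simpa using hB (l.map pad) (by simpa using h1) (by simpa using h2)⟩
  let M := max kM ((Finset.range (bnd n Mk ok Pr)).sup kP)
  obtain ⟨b, h1, h2, h3⟩ := Nat.sInf_mem hne (l.map (res M)) (by simpa using hl) (by
    simp only [List.mem_map, forall_exists_index, and_imp, forall_apply_eq_imp_iff₂]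
    exact fun v hv => hM v _ (fun i hi => (pad_res (hi.trans_le (le_max_left _ _)) v).symm)
      (hm v hv))
  refine ⟨b, h1, h2, fun v hv => hP b _ v (fun i hi => pad_res (hi.trans_le ?_) v)
    (h3 _ (List.mem_map_of_mem hv))⟩
  exact (Finset.le_sup (Finset.mem_range.2 h1)).trans (le_max_right _ _)

/-- Running maximum. -/
def rmx (e : ℕ → ℕ) (m : ℕ) : ℕ := (Finset.range (m + 1)).sup e

theorem le_rmx (e : ℕ → ℕ) {n m : ℕ} (h : n ≤ m) : e n ≤ rmx e m :=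
  Finset.le_sup (Finset.mem_range.2 (Nat.lt_succ_of_le h))

theorem rmx_mono (e : ℕ → ℕ) : Monotone (rmx e) := fun _ _ h =>
  Finset.sup_mono (Finset.range_mono (Nat.succ_le_succ h))

/-- Running maximum in two variables. -/
def rmx2 (f : ℕ → ℕ → ℕ) (m : ℕ) : ℕ := rmx (fun n => rmx (f n) m) m

theorem le_rmx2 (f : ℕ → ℕ → ℕ) {n a m : ℕ} (h : n ≤ m) (k : a ≤ m) : f n a ≤ rmx2 f m :=
  (le_rmx (f n) k).trans (le_rmx (fun n => rmx (f n) m) h)

theorem rmx2_mono (f : ℕ → ℕ → ℕ) : Monotone (rmx2 f) := fun _ _ h =>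
  (Finset.sup_mono_fun fun n _ => rmx_mono (f n) h).trans (rmx_mono _ h)

/-- Eventual domination. -/
def Lst (e f : ℕ → ℕ) : Prop := ∃ k, ∀ n, k ≤ n → e n ≤ f n

theorem often_covered {F e l : ℕ → ℕ} (hF : Monotone F) (h1 : ∀ n, l n < l (n + 1))
    (h2 : ∀ n, rmx e (l n) ≤ l (n + 1)) (h : ¬ Lst e fun m => F (F m)) (k : ℕ) :
    ∃ n, k ≤ n ∧ F (l n) ≤ l (n + 1) := by
  classical
  have hm := strictMono_nat_of_lt_succ h1
  simp only [Lst, not_exists, not_forall, not_le] at h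
  obtain ⟨m, h3, h4⟩ := h (l k)
  have hex : ∃ n, m < l (n + 1) := ⟨m, hm.le_apply⟩
  let n := Nat.find hex
  have h5 : m < l (n + 1) := Nat.find_spec hex
  have h6 : k ≤ n := by
    by_contra hc
    have := hm.monotone (show n + 1 ≤ k by omega)
    omega
  have h7 : l n ≤ m := by
    rcases Nat.eq_zero_or_pos n with h0 | h0
    · have : k = 0 := by omega
      rw [h0, ← this]; exact h3
    · have := Nat.find_min hex (m := n - 1) (by omega)
      rw [Nat.sub_add_cancel h0] at this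
      omega
  by_cases hc : F (l n) ≤ l (n + 1)
  · exact ⟨n, h6, hc⟩
  · refine ⟨n + 1, by omega, ?_⟩
    have a1 := hF (show l (n + 1) ≤ F m from (not_le.1 hc).le.trans (hF h7))
    have a2 := (le_rmx e h5.le).trans (h2 (n + 1))
    omega

/-- Data for a fusion: labels, moves, starting candidate, exceptional points. -/
abbrev Fd : Type := (ℕ → Cs) × (ℕ → ℕ → ℕ → Prop) × ℕ × (ℕ → Cs)

variable (cs : ℕ → Nd × Finset ℕ)

/-- The state of a candidate at a level. -/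
def st (n a : ℕ) : St := ((cs a).1, (cs a).2, n)

/-- Bound for legal moves. -/
noncomputable def Bn (d : Fd) (n a : ℕ) : ℕ :=
  bnd (n + 1) (fun _ => True) (d.2.1 n a) fun b v => LgS d.1 (st cs n a) (st cs (n + 1) b) v

/-- Bound for one hit moves. -/
noncomputable def Ph (d : Fd) (y : Cs) (n a : ℕ) : ℕ :=
  bnd n (fun v => Sep n v y) (fun b => d.2.1 n a b ∧ OnS d.1 (st cs n a) (st cs (n + 1) b) y)
    fun b v => LgS d.1 (st cs n a) (st cs (n + 1) b) v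

/-- The Borel function that must not dominate. -/
noncomputable def Phi (d : Fd) (y : Cs) (m : ℕ) : ℕ := rmx2 (Ph cs d y) (rmx2 (Ph cs d y) m)

/-- The level bounds. -/
noncomputable def lv (d : Fd) (e : ℕ → ℕ) : ℕ → ℕ
  | 0 => d.2.2.1 + 1
  | n + 1 => max (rmx2 (Bn cs d) (lv d e n)) (max (rmx e (lv d e n)) (lv d e n + 1))

/-- Candidates kept in the fusion. -/
def Reach (d : Fd) (e : ℕ → ℕ) : ℕ → ℕ → Prop
  | 0, a => a = d.2.2.1
  | n + 1, b => ∃ a, Reach d e n a ∧ d.2.1 n a b ∧ b < lv cs d e (n + 1)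

/-- The fusion. -/
def Sig (d : Fd) (e : ℕ → ℕ) : Qc :=
  (d.1, fun σ => ∃ a, Reach cs d e σ.2.2 a ∧ σ = st cs σ.2.2 a, d.2.2.2)

/-- The hypotheses of the fusion lemma. -/
structure FH (d : Fd) (Vd : ℕ → ℕ → Prop) : Prop where
  v0 : Vd 0 d.2.2.1
  vs : ∀ n a b, Vd n a → d.2.1 n a b → Vd (n + 1) b
  pre : ∀ n a b, d.2.1 n a b → (cs a).1 <+: (cs b).1 ∧ n < (cs b).1.length
  av : ∀ n a, Vd n a → ∀ l : List Cs, l.length ≤ n →
    ∃ b, d.2.1 n a b ∧ ∀ v ∈ l, LgS d.1 (st cs n a) (st cs (n + 1) b) v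

/-- The point can be hit in the candidate graph. -/
def BV (d : Fd) (Vd : ℕ → ℕ → Prop) (y : Cs) : Prop :=
  ∀ n a, Vd n a → ∀ l : List Cs, l.length < n → y ∉ l →
    ∃ b, (d.2.1 n a b ∧ OnS d.1 (st cs n a) (st cs (n + 1) b) y) ∧
      ∀ v ∈ l, LgS d.1 (st cs n a) (st cs (n + 1) b) v

variable {cs} {d : Fd} {Vd : ℕ → ℕ → Prop} {e : ℕ → ℕ}

theorem lv_lt (n : ℕ) : lv cs d e n < lv cs d e (n + 1) := by
  rw [lv]; omega

theorem le_lv (n : ℕ) : n ≤ lv cs d e n := (strictMono_nat_of_lt_succ lv_lt).le_apply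

theorem Reach.lt : ∀ {n a}, Reach cs d e n a → a < lv cs d e n
  | 0, _, h => by rw [Reach] at h; rw [h, lv]; omega
  | _ + 1, _, ⟨_, _, _, h⟩ => h

theorem FH.vd (H : FH cs d Vd) : ∀ {n a}, Reach cs d e n a → Vd n a
  | 0, _, h => by rw [Reach] at h; rw [h]; exact H.v0
  | _ + 1, _, ⟨_, h1, h2, _⟩ => H.vs _ _ _ (H.vd h1) h2

theorem FH.step (H : FH cs d Vd) {n a : ℕ} (h : Reach cs d e n a) (l : List Cs)
    (hl : l.length ≤ n) : ∃ b, Reach cs d e (n + 1) b ∧ d.2.1 n a b ∧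
      ∀ v ∈ l, LgS d.1 (st cs n a) (st cs (n + 1) b) v := by
  obtain ⟨b, h1, h2, h3⟩ := bnd_spec (n := n + 1) (Mk := fun _ => True) 0 (fun _ _ _ _ => trivial)
    (ok := d.2.1 n a) (Pr := fun b v => LgS d.1 (st cs n a) (st cs (n + 1) b) v)
    (fun b => (cs b).1.length) (fun b v v' h1 h2 => Lg.congr h2 h1)
    (fun l hl _ => H.av n a (H.vd h) l (by omega)) l (by omega) fun _ _ => trivial
  refine ⟨b, ⟨a, h, h2, h1.trans_le ?_⟩, h2, h3⟩
  exact (le_rmx2 (Bn cs d) (le_lv n) h.lt.le).trans (le_max_left _ _)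

theorem FH.walk (H : FH cs d Vd) {n a : ℕ} (h : Reach cs d e n a) (l : List Cs)
    (hl : l.length ≤ n) {m : ℕ} (hm : n ≤ m) : ∃ b, Reach cs d e m b ∧ (cs a).1 <+: (cs b).1 ∧
      ∀ v ∈ l, LgS d.1 (st cs n a) (st cs m b) v := by
  induction hm with
  | refl => exact ⟨a, h, List.prefix_rfl, fun _ _ => Lg.refl⟩
  | step hm ih =>
    obtain ⟨b, h1, h2, h3⟩ := ih
    obtain ⟨c, h4, h5, h6⟩ := H.step h1 l (hl.trans hm)
    exact ⟨c, h4, h2.trans (H.pre _ _ _ h5).1, fun v hv =>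
      Lg.trans (h3 v hv) (h6 v hv) (H.pre _ _ _ h5).1⟩

theorem FH.len (H : FH cs d Vd) : ∀ {n a}, Reach cs d e n a → n ≤ (cs a).1.length
  | 0, _, _ => Nat.zero_le _
  | _ + 1, _, ⟨_, _, h2, _⟩ => (H.pre _ _ _ h2).2

theorem sig_mem {n a : ℕ} (h : Reach cs d e n a) : (Sig cs d e).2.1 (st cs n a) := ⟨a, h, rfl⟩

theorem sig_cases {σ : St} (h : (Sig cs d e).2.1 σ) : ∃ n a, Reach cs d e n a ∧ σ = st cs n a :=
  let ⟨a, h1, h2⟩ := h; ⟨_, a, h1, h2⟩

theorem FH.nrm (H : FH cs d Vd) : Nrm (Sig cs d e) := by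
  refine ⟨⟨_, sig_mem (n := 0) rfl⟩, fun σ hσ l hl m => ?_⟩
  obtain ⟨n, a, h, rfl⟩ := sig_cases hσ
  obtain ⟨b, h1, h2, h3⟩ := H.walk h l hl (le_max_left n m)
  exact ⟨_, sig_mem h1, h2, (le_max_right _ _).trans (H.len h1), le_max_right _ _, h3⟩

theorem FH.good (H : FH cs d Vd) {y : Cs} (hy : BV cs d Vd y) (he : ¬ Lst e (Phi cs d y)) :
    Good (Sig cs d e) y := by
  intro σ hσ l hl hyl m
  obtain ⟨n, a, h, rfl⟩ := sig_cases hσ
  obtain ⟨k, hk⟩ := exists_sep (List.finite_toSet l) (show y ∉ {v | v ∈ l} from hyl)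
  obtain ⟨n', h1, h2⟩ := often_covered (l := lv cs d e) (rmx2_mono (Ph cs d y)) lv_lt
    (fun n => by rw [lv]; omega) he (max n (max m k))
  have hl' : l.length < n := hl
  obtain ⟨a', h3, h4, h5⟩ := H.walk h (y :: l) hl' ((le_max_left _ _).trans h1)
  obtain ⟨b, h6, ⟨h7, h8⟩, h9⟩ := bnd_spec (n := n') (Mk := fun v => Sep n' v y) n'
    (fun v v' h1 ⟨i, h2, h3⟩ => ⟨i, h2, h1 i h2 ▸ h3⟩)
    (ok := fun b => d.2.1 n' a' b ∧ OnS d.1 (st cs n' a') (st cs (n' + 1) b) y)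
    (Pr := fun b v => LgS d.1 (st cs n' a') (st cs (n' + 1) b) v)
    (fun b => (cs b).1.length) (fun b v v' h1 h2 => Lg.congr h2 h1)
    (fun l hl hs => hy n' a' (H.vd h3) l hl fun k => let ⟨_, _, k⟩ := hs y k; k rfl) l (by omega)
    fun v hv => (hk v hv).mono (by omega)
  have hp := (H.pre _ _ _ h7).1
  refine ⟨_, sig_mem (n := n' + 1) ⟨a', h3, h7, h6.trans_le ?_⟩, h4.trans hp,
    show m ≤ n' + 1 by omega, fun v hv => Lg.trans (h5 v (List.mem_cons_of_mem _ hv)) (h9 v hv) hp,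
    Lg.onc (h5 y List.mem_cons_self) h8 h4 hp⟩
  exact (le_rmx2 (Ph cs d y) (le_lv n') h3.lt.le).trans h2

theorem reach_down {Rl : ℕ → ℕ → Prop} (h0 : ∀ a, Rl a a) (h1 : ∀ a b c, Rl a b → Rl b c → Rl a c)
    (h2 : ∀ n a b, d.2.1 n a b → Rl a b) {n m b : ℕ} (hm : n ≤ m) (h : Reach cs d e m b) :
    ∃ a, Reach cs d e n a ∧ Rl a b := by
  induction hm generalizing b with
  | refl => exact ⟨b, h, h0 b⟩
  | step _ ih =>
    obtain ⟨c, h3, h4, -⟩ := h
    obtain ⟨a, h5, h6⟩ := ih h3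
    exact ⟨a, h5, h1 _ _ _ h6 (h2 _ _ _ h4)⟩

/-- Every node of the fusion is below a candidate of high level. -/
theorem FH.front (H : FH cs d Vd) {u : Nd} (h : Tr (Sig cs d e) u) (n : ℕ) :
    ∃ m b, n ≤ m ∧ Reach cs d e m b ∧ u <+: (cs b).1 := by
  obtain ⟨σ, hσ, h1⟩ := h
  obtain ⟨k, a, h2, rfl⟩ := sig_cases hσ
  obtain ⟨b, h3, h4, -⟩ := H.walk h2 [] (Nat.zero_le _) (le_max_left k n)
  exact ⟨_, b, le_max_right _ _, h3, h1.trans h4⟩

end Pool.Agent.Lib.MP_fecf72_lc
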