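import Pool.Agent.Lib.MP_fecf72_lc.Code
import Pool.Agent.Lib.MP_fecf72_lc.Dsl

namespace Pool.Agent.Lib.MP_fecf72_lc

open Set Filter

section
variable {U : Type 1}

/-- The precondition named by `ρ`. -/
noncomputable def qv (ρ : Nam U) (G : Set U) : Qc := dq (ev ρ G)

theorem ms_qv {S : Set U} {ρ : Nam U} (h : Sup S ρ) : Ms S (qv ρ) := (ms_ev h).comp meas_dq

theorem qv_empty (G : Set U) (σ : St) : (qv (∅ : Nam U) G).2.1 σ := by simp [qv, dq, ev]

theorem ev_inter {S : Set U} {ρ : Nam U} (h : Sup S ρ) (G : Set U) : ev ρ (G ∩ S) = ev ρ G :=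
  (ms_ev h).loc G

theorem qv_inter {S : Set U} {ρ : Nam U} (h : Sup S ρ) (G : Set U) : qv ρ (G ∩ S) = qv ρ G := by
  rw [qv, ev_inter h, qv]

/-- The canonical name of a precondition. -/
def nameQ (R : U → U → Prop) (f : Set U → Qc) : Nam U := nameOf R fun G => eq' (f G)

theorem qv_nameQ {R : U → U → Prop} (hR : Fo R) {S : Set U} {f : Set U → Qc} (hf : Ms S f) (p : U) :
    Frc R p fun G => qv (nameQ R f) G = f G :=
  (ev_nameOf hR (hf.comp meas_eq')).mono fun G _ _ h => by rw [qv, nameQ, h, dq_eq]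

theorem Ms.st {S : Set U} {f : Set U → Qc} (h : Ms S f) (σ : St) : Ms S fun G => (f G).2.1 σ :=
  Measurable.eval (Measurable.fst (Measurable.snd h))

theorem Ms.res {S : Set U} {f : Set U → Cs} (h : Ms S f) (n : ℕ) (u : List Bool) :
    Ms S fun G => res n (f G) = u := meas_res n u h

theorem Ms.tr {S : Set U} {f : Set U → Qc} (h : Ms S f) (u : Nd) : Ms S fun G => Tr (f G) u :=
  meas_tr h u

theorem Ms.qle {S : Set U} {f g : Set U → Qc} (h : Ms S f) (k : Ms S g) :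
    Ms S fun G => Qle (f G) (g G) := meas_qle h k

theorem Ms.eq {S : Set U} {f g : Set U → Cs} (h : Ms S f) (k : Ms S g) :
    Ms S fun G => f G = g G := meas_eq h k

theorem Ms.eqn {S : Set U} {f g : Set U → ℕ} (h : Ms S f) (k : Ms S g) :
    Ms S fun G => f G = g G := meas_eq_ctbl h k

theorem Ms.le {S : Set U} {f g : Set U → ℕ} (h : Ms S f) (k : Ms S g) :
    Ms S fun G => f G ≤ g G := meas_le h k

theorem Ms.lst {S : Set U} {f g : Set U → ℕ → ℕ} (h : Ms S f) (k : Ms S g) :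
    Ms S fun G => Lst (f G) (g G) := meas_lst h k

/-- Names for Borel functions. -/
def Ms2 (S : Set U) (Ψ : Set U → Cs → ℕ → ℕ) : Prop :=
  Measurable fun z : Fl S × Cs => Ψ z.1.g z.2

theorem Ms2.app {S : Set U} {Ψ : Set U → Cs → ℕ → ℕ} (h : Ms2 S Ψ) {y : Set U → Cs} (hy : Ms S y) :
    Ms S fun G => Ψ G (y G) :=
  Measurable.comp (g := fun z : Fl S × Cs => Ψ z.1.g z.2) (f := fun G : Fl S => (G, y G.g)) h
    (measurable_id.prodMk hy)

theorem Ms2.mono {S S' : Set U} {Ψ : Set U → Cs → ℕ → ℕ} (h : Ms2 S Ψ) (k : S ⊆ S') : Ms2 S' Ψ :=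
  Measurable.comp (g := fun z : Fl S × Cs => Ψ z.1.g z.2)
    (f := fun z : Fl S' × Cs => (⟨z.1.g⟩, z.2)) h
    (((meas_id_mono k).comp measurable_fst).prodMk measurable_snd)

theorem Ms.fst {S : Set U} {T : Type*} [MeasurableSpace T] {f : Set U → T} (h : Ms S f) :
    Measurable fun z : Fl S × Cs => f z.1.g :=
  Measurable.comp (g := fun G : Fl S => f G.g) h measurable_fst

/-- The condition `s` forces that `τ` names a condition of the forcing attached to `X`. -/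
def Ok (R : U → U → Prop) (X : Set (U × Nam U)) (s : U) (τ : Nam U) : Prop :=
  (Frc R s fun G => Nrm (qv τ G)) ∧ ∀ x ∈ X, Frc R s fun G => x.1 ∈ G → Good' (qv τ G) (ev x.2 G)

theorem Ok.le {R : U → U → Prop} {X : Set (U × Nam U)} {s s' : U} {τ : Nam U} (h : Ok R X s τ)
    (k : R s' s) : Ok R X s' τ := ⟨h.1.le k, fun x hx => (h.2 x hx).le k⟩

/-- No Borel image of `X` is dominating. -/
def Star (R : U → U → Prop) (X : Set (U × Nam U)) : Prop :=
  ∀ Ψ, Ms2 {s | R s s} Ψ → ∀ s, R s s → ∃ s' h, R s' s ∧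
    ∀ x ∈ X, Frc R s' fun G => x.1 ∈ G → ¬ Lst h (Ψ G (ev x.2 G))

theorem Star.name {R : U → U → Prop} (hR : Fo R) {X : Set (U × Nam U)} (h : Star R X)
    {Ψ : Set U → Cs → ℕ → ℕ} (hΨ : Ms2 {s | R s s} Ψ) : ∃ e, Ms {s | R s s} e ∧
      ∀ x ∈ X, ∀ p, Frc R p fun G => x.1 ∈ G → ¬ Lst (e G) (Ψ G (ev x.2 G)) := by
  obtain ⟨e, h1, h2⟩ := mix hR fun s h =>
    ∀ x ∈ X, Frc R s fun G => x.1 ∈ G → ¬ Lst h (Ψ G (ev x.2 G))
  refine ⟨e, h1, fun x hx p => frc_of_dense hR fun r hr => ?_⟩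
  obtain ⟨s', k, h3, h4⟩ := h Ψ hΨ r (hR.l hr)
  obtain ⟨s, a, y, h5, h6, h7, h8⟩ := h2 s' k (hR.l h3) h4
  exact ⟨s, hR.tr h5 h3, (((h7 x hx).le h6).and h8).mono fun G _ _ k => k.2 ▸ k.1⟩

end

/-- Levels of the iteration. -/
abbrev Lv : Type 1 := WithTop U0

open Classical in
/-- Restriction of a condition. -/
noncomputable def rs (p : U0) (γ : Lv) : U0 := enc fun β => if (β : Lv) < γ then dec p β else ∅

/-- The set of reals guessed at stage `β`. -/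
def Xraw (R : U0 → U0 → Prop) (β : U0) : Set (U0 × Nam U0) :=
  {x | R x.1 x.1 ∧ Sup {s | R s s} x.2 ∧ ∃ u, (u, 0) ∈ dec (bk β) x.1 ∧ x.2 = dec u 0}

/-- The set of reals used at stage `β`. -/
def XX (R : U0 → U0 → Prop) (β : U0) : Set (U0 × Nam U0) :=
  {x | Star R (Xraw R β) ∧ x ∈ Xraw R β}

/-- Countable support below `α`. -/
def Shape (α : Lv) (p : U0) : Prop :=
  enc (dec p) = p ∧ {β | dec p β ≠ ∅}.Countable ∧ ∀ β : U0, ¬ (β : Lv) < α → dec p β = ∅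

/-- The order at level `α` from the coordinatewise relations. -/
def mkR (α : Lv) (c : ∀ γ : U0, (γ : Lv) < α → (U0 → Prop) × (U0 → U0 → Prop)) (p q : U0) : Prop :=
  (Shape α p ∧ ∀ γ h, (c γ h).1 p) ∧ (Shape α q ∧ ∀ γ h, (c γ h).1 q) ∧ ∀ γ h, (c γ h).2 p q

/-- The coordinatewise relations over a given order. -/
def coOf (R : U0 → U0 → Prop) (β : U0) : (U0 → Prop) × (U0 → U0 → Prop) :=
  (fun p => Sup {s | R s s} (dec p β) ∧ Ok R (XX R β) (rs p β) (dec p β),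
   fun p q => Frc R (rs p β) fun G => Qle (qv (dec p β) G) (qv (dec q β) G))

/-- The coordinatewise relations of the iteration. -/
noncomputable def co (β : U0) : (U0 → Prop) × (U0 → U0 → Prop) :=
  coOf (mkR β fun γ _ => co γ) β
termination_by β
decreasing_by exact WithTop.coe_lt_coe.1 ‹_›

/-- The order of the iteration at level `α`. -/
def RR (α : Lv) : U0 → U0 → Prop := mkR α fun γ _ => co γ

/-- The conditions of the iteration at level `α`. -/
def PP (α : Lv) : Set U0 := {p | RR α p p}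

/-- The set of reals used at stage `β`. -/
def XB (β : U0) : Set (U0 × Nam U0) := XX (RR β) β

/-- Coordinate `β` is a name for a condition. -/
def okc (β p : U0) : Prop := Sup (PP β) (dec p β) ∧ Ok (RR β) (XB β) (rs p β) (dec p β)

/-- Coordinate `β` is forced to be stronger. -/
def lec (β p q : U0) : Prop := Frc (RR β) (rs p β) fun G => Qle (qv (dec p β) G) (qv (dec q β) G)

theorem co_eq (β : U0) : co β = (okc β, lec β) := by rw [co]; rfl

theorem lec_refl (β p : U0) : lec β p p := frc_of_all fun _ _ _ => Qle.refl _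

theorem mem_PP {α : Lv} {p : U0} : p ∈ PP α ↔ Shape α p ∧ ∀ γ : U0, (γ : Lv) < α → okc γ p := by
  simp only [PP, RR, mkR, co_eq, mem_ofPred_eq, lec_refl, implies_true, and_true, and_self]

theorem RR_iff {α : Lv} {p q : U0} :
    RR α p q ↔ p ∈ PP α ∧ q ∈ PP α ∧ ∀ γ : U0, (γ : Lv) < α → lec γ p q := by
  simp only [mem_PP, RR, mkR, co_eq]

theorem star_XB (β : U0) : Star (RR β) (XB β) := by
  by_cases h : Star (RR β) (Xraw (RR β) β)
  · have : XB β = Xraw (RR β) β := by ext x; simp [XB, XX, h]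
    rwa [this]
  · exact fun _ _ s hs => ⟨s, fun _ => 0, hs, fun x hx => (h hx.1).elim⟩

theorem XB_sup {β : U0} {x : U0 × Nam U0} (h : x ∈ XB β) : x.1 ∈ PP β ∧ Sup (PP β) x.2 :=
  ⟨h.2.1, h.2.2.1⟩

open Classical in
theorem dec_rs (p : U0) (γ : Lv) (β : U0) :
    dec (rs p γ) β = if (β : Lv) < γ then dec p β else ∅ := by
  rw [rs, dec_enc ((sm_dec p).mono fun β => by split_ifs <;> simp)]

theorem dec_rs_lt {p : U0} {γ : Lv} {β : U0} (h : (β : Lv) < γ) : dec (rs p γ) β = dec p β := by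
  rw [dec_rs, if_pos h]

theorem dec_rs_ge {p : U0} {γ : Lv} {β : U0} (h : ¬ (β : Lv) < γ) : dec (rs p γ) β = ∅ := by
  rw [dec_rs, if_neg h]

theorem rs_congr {p q : U0} {γ : Lv} (h : ∀ β : U0, (β : Lv) < γ → dec p β = dec q β) :
    rs p γ = rs q γ := by
  unfold rs
  congr 1
  funext β
  split_ifs with k
  exacts [h β k, rfl]

theorem rs_rs (p : U0) {γ δ : Lv} (h : δ ≤ γ) : rs (rs p γ) δ = rs p δ :=
  rs_congr fun _ k => dec_rs_lt (k.trans_le h)

theorem rs_self {p : U0} {α γ : Lv} (hp : p ∈ PP α) (h : α ≤ γ) : rs p γ = p := by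
  obtain ⟨⟨h1, -, h2⟩, -⟩ := mem_PP.1 hp
  rw [rs]
  refine Eq.trans ?_ h1
  congr 1
  funext β
  split_ifs with k
  exacts [rfl, (h2 β fun k' => k (k'.trans_le h)).symm]

theorem okc_congr {p q β : U0} (h : ∀ γ ≤ β, dec p γ = dec q γ) : okc β p ↔ okc β q := by
  rw [okc, okc, h β le_rfl, rs_congr fun γ k => h γ (WithTop.coe_lt_coe.1 k).le]

theorem lec_congr {p q p' q' β : U0} (h : ∀ γ ≤ β, dec p γ = dec p' γ) (h' : dec q β = dec q' β) :
    lec β p q ↔ lec β p' q' := by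
  rw [lec, lec, h β le_rfl, h', rs_congr fun γ k => h γ (WithTop.coe_lt_coe.1 k).le]

theorem shape_enc {α : Lv} {f : U0 → Nam U0} (h1 : Sm f) (h2 : {β | f β ≠ ∅}.Countable)
    (h3 : ∀ β : U0, ¬ (β : Lv) < α → f β = ∅) : Shape α (enc f) := by
  rw [Shape, dec_enc h1]; exact ⟨rfl, h2, h3⟩

theorem shape_rs {p : U0} (h1 : {β | dec p β ≠ ∅}.Countable) (γ : Lv) : Shape γ (rs p γ) :=
  shape_enc ((sm_dec p).mono fun β => by split_ifs <;> simp)
    (h1.mono fun β hβ (k : dec p β = ∅) => hβ (by simp [k])) fun β k => if_neg k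

theorem PP_rs {p : U0} {α γ : Lv} (hp : p ∈ PP α) (h : γ ≤ α) : rs p γ ∈ PP γ := by
  obtain ⟨⟨-, h1, -⟩, h2⟩ := mem_PP.1 hp
  refine mem_PP.2 ⟨shape_rs h1 γ, fun β hβ => ?_⟩
  exact (okc_congr fun δ hδ => dec_rs_lt ((WithTop.coe_le_coe.2 hδ).trans_lt hβ)).2
    (h2 β (hβ.trans_le h))

theorem RR_rs {p q : U0} {α γ : Lv} (hp : RR α p q) (h : γ ≤ α) : RR γ (rs p γ) (rs q γ) := by
  obtain ⟨h1, h2, h3⟩ := RR_iff.1 hp
  exact RR_iff.2 ⟨PP_rs h1 h, PP_rs h2 h, fun β hβ =>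
    (lec_congr (fun δ hδ => dec_rs_lt ((WithTop.coe_le_coe.2 hδ).trans_lt hβ)) (dec_rs_lt hβ)).2
      (h3 β (hβ.trans_le h))⟩

theorem fo (α : Lv) : Fo (RR α) where
  tr := by
    intro p q r h k
    obtain ⟨h1, -, h3⟩ := RR_iff.1 h
    obtain ⟨-, k2, k3⟩ := RR_iff.1 k
    exact RR_iff.2 ⟨h1, k2, fun β hβ => ((h3 β hβ).and ((k3 β hβ).le (RR_rs h hβ.le))).mono
      fun _ _ _ h => h.1.trans h.2⟩
  l := fun h => (RR_iff.1 h).1
  r := fun h => (RR_iff.1 h).2.1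

theorem okc_empty {β p : U0} (h : dec p β = ∅) : okc β p := by
  rw [okc, h]
  exact ⟨fun _ h => h.elim, frc_of_all fun G _ _ => nrm_top (qv_empty G),
    fun x _ => frc_of_all fun G _ _ _ => Or.inr (good_top (qv_empty G) _)⟩

theorem lec_empty {β q : U0} (p : U0) (h : dec q β = ∅) : lec β p q := by
  rw [lec, h]
  exact frc_of_all fun G _ _ σ _ => ⟨σ, qv_empty G σ, List.prefix_rfl⟩

theorem PP.empty {α : Lv} {p β : U0} (hp : p ∈ PP α) (h : ¬ (β : Lv) < α) : dec p β = ∅ :=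
  (mem_PP.1 hp).1.2.2 β h

theorem PP_mono {α γ : Lv} (h : γ ≤ α) : PP γ ⊆ PP α := by
  intro p hp
  obtain ⟨⟨h1, h2, h3⟩, h4⟩ := mem_PP.1 hp
  refine mem_PP.2 ⟨⟨h1, h2, fun β k => h3 β fun k' => k (k'.trans_le h)⟩, fun β _ => ?_⟩
  by_cases k : (β : Lv) < γ
  exacts [h4 β k, okc_empty (h3 β k)]

theorem RR_up {p q : U0} {α γ : Lv} (h : γ ≤ α) (hp : p ∈ PP α) (k : RR γ (rs p γ) q) :
    RR α p q := by
  obtain ⟨-, h2, h3⟩ := RR_iff.1 k
  refine RR_iff.2 ⟨hp, PP_mono h h2, fun β _ => ?_⟩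
  by_cases hβ : (β : Lv) < γ
  · exact (lec_congr (fun δ hδ => dec_rs_lt ((WithTop.coe_le_coe.2 hδ).trans_lt hβ)) rfl).1 (h3 β hβ)
  · exact lec_empty p (PP.empty h2 hβ)

theorem RR_mono {p q : U0} {α γ : Lv} (h : γ ≤ α) (k : RR γ p q) : RR α p q :=
  RR_up h (PP_mono h ((fo γ).l k)) (by rwa [rs_self ((fo γ).l k) le_rfl])

theorem RR_rs_self {p : U0} {α γ : Lv} (h : γ ≤ α) (hp : p ∈ PP α) : RR α p (rs p γ) :=
  RR_up h hp (PP_rs hp h)

theorem RR_down {p q : U0} {α γ : Lv} (h : γ ≤ α) (hq : q ∈ PP γ) (k : RR α p q) :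
    RR γ (rs p γ) q := by
  have := RR_rs k h
  rwa [rs_self hq le_rfl] at this

theorem RR_build {α : Lv} {p r : U0} (hp : Shape α p) (hr : r ∈ PP α)
    (h : ∀ β : U0, (β : Lv) < α → RR β (rs p β) (rs r β) → okc β p ∧ lec β p r) : RR α p r := by
  have key : ∀ β : U0, (β : Lv) < α → okc β p ∧ lec β p r := by
    intro β
    induction β using WellFoundedLT.induction with
    | ind β ih =>
      intro hβ
      refine h β hβ (RR_iff.2 ⟨mem_PP.2 ⟨shape_rs hp.2.1 β, fun γ hγ => ?_⟩,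
        PP_rs hr hβ.le, fun γ hγ => ?_⟩)
      · exact (okc_congr fun δ hδ => dec_rs_lt ((WithTop.coe_le_coe.2 hδ).trans_lt hγ)).2
          (ih γ (WithTop.coe_lt_coe.1 hγ) (hγ.trans hβ)).1
      · exact (lec_congr (fun δ hδ => dec_rs_lt ((WithTop.coe_le_coe.2 hδ).trans_lt hγ))
          (dec_rs_lt hγ)).2 (ih γ (WithTop.coe_lt_coe.1 hγ) (hγ.trans hβ)).2
  exact RR_iff.2 ⟨mem_PP.2 ⟨hp, fun β hβ => (key β hβ).1⟩, hr, fun β hβ => (key β hβ).2⟩

theorem same_coord {β p r : U0} (hr : okc β r) (h : dec p β = dec r β)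
    (k : RR β (rs p β) (rs r β)) : okc β p ∧ lec β p r := by
  rw [okc, lec, h]
  exact ⟨⟨hr.1, hr.2.le k⟩, frc_of_all fun _ _ _ => Qle.refl _⟩

theorem exists_glue {α γ : Lv} (h : γ ≤ α) {s r : U0} (hr : r ∈ PP α) (hs : RR γ s (rs r γ)) :
    ∃ t, RR α t r ∧ RR α t s ∧ rs t γ = s ∧ ∀ β : U0, ¬ (β : Lv) < γ → dec t β = dec r β := by
  classical
  obtain ⟨h1, -, h3⟩ := RR_iff.1 hs
  have hsm : Sm fun β => if (β : Lv) < γ then dec s β else dec r β :=
    (sm_dec s).union (sm_dec r) fun β => by split_ifs <;> simp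
  have e1 : ∀ β : U0, (β : Lv) < γ → dec (enc fun β => if (β : Lv) < γ then dec s β else dec r β) β =
    dec s β := fun β k => by rw [dec_enc hsm]; exact if_pos k
  have e2 : ∀ β : U0, ¬ (β : Lv) < γ →
      dec (enc fun β => if (β : Lv) < γ then dec s β else dec r β) β = dec r β :=
    fun β k => by rw [dec_enc hsm]; exact if_neg k
  have e3 := (rs_congr e1).trans (rs_self h1 le_rfl)
  have key : RR α (enc fun β => if (β : Lv) < γ then dec s β else dec r β) r := by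
    refine RR_build (shape_enc hsm (((mem_PP.1 h1).1.2.1.union (mem_PP.1 hr).1.2.1).mono
      fun β hβ => ?_) fun β k => ?_) hr fun β hβ k => ?_
    · by_contra hc
      simp only [mem_union, mem_ofPred_eq, not_or, not_not] at hc
      exact hβ (by simp [hc.1, hc.2])
    · rw [if_neg fun k' => k (k'.trans_le h), PP.empty hr k]
    · by_cases hc : (β : Lv) < γ
      · have e4 := fun δ (hδ : δ ≤ β) => e1 δ ((WithTop.coe_le_coe.2 hδ).trans_lt hc)
        exact ⟨(okc_congr e4).2 ((mem_PP.1 h1).2 β hc),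
          (lec_congr e4 (dec_rs_lt hc).symm).2 (h3 β hc)⟩
      · exact same_coord ((mem_PP.1 hr).2 β hβ) (e2 β hc) k
  exact ⟨_, key, RR_up h ((fo α).l key) (by rw [e3]; exact h1), e3, e2⟩

theorem small_PP (β : U0) : Small.{0} (PP β) := by
  induction β using WellFoundedLT.induction with
  | ind β ih =>
    have : ∀ γ : Iio β, Small.{0} (PP (γ.1 : U0)) := fun γ => ih γ.1 γ.2
    refine small_of_injective (β := Set (Σ γ : Iio β, PP (γ.1 : U0) × ℕ))
      (f := fun p => {x | (x.2.1.1, x.2.2) ∈ dec p.1 x.1.1}) fun p q h => Subtype.ext ?_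
    obtain ⟨⟨h1, -, h2⟩, h3⟩ := mem_PP.1 p.2
    obtain ⟨⟨k1, -, k2⟩, k3⟩ := mem_PP.1 q.2
    rw [← h1, ← k1]
    congr 1
    funext γ
    by_cases hγ : (γ : Lv) < β
    · ext x
      have := fun hx : x.1 ∈ PP γ => Set.ext_iff.1 h ⟨⟨γ, WithTop.coe_lt_coe.1 hγ⟩, ⟨x.1, hx⟩, x.2⟩
      exact ⟨fun k => (this ((h3 γ hγ).1 x k)).1 k, fun k => (this ((k3 γ hγ).1 x k)).2 k⟩
    · rw [h2 γ hγ, k2 γ hγ]

theorem small_sup {β : U0} {τ : Nam U0} (h : Sup (PP β) τ) : Small.{0} τ := by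
  have := small_PP β
  exact small_subset (s := PP β ×ˢ (univ : Set ℕ)) fun x hx => ⟨h x hx, trivial⟩

theorem exists_upd {α : Lv} {β : U0} (h : (β : Lv) < α) {r : U0} (hr : r ∈ PP α) {s : U0}
    (hs : RR β s (rs r β)) {τ : Nam U0} (h1 : Sup (PP β) τ) (h2 : Ok (RR β) (XB β) s τ)
    (h3 : Frc (RR β) s fun G => Qle (qv τ G) (qv (dec r β) G)) :
    ∃ t, RR α t r ∧ rs t β = s ∧ dec t β = τ := by
  classical
  obtain ⟨t, k1, -, k2, k3⟩ := exists_glue h.le hr hs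
  have ht := (fo α).l k1
  have := small_sup h1
  have hsm : Sm (Function.update (dec t) β τ) :=
    (sm_dec t).union (sm_single β τ) fun γ => by
      by_cases hγ : γ = β
      · subst hγ; simp
      · simp [Function.update_of_ne hγ]
  have e1 : ∀ γ, γ ≠ β → dec (enc (Function.update (dec t) β τ)) γ = dec t γ := fun γ hγ => by
    rw [dec_enc hsm, Function.update_of_ne hγ]
  have e2 : dec (enc (Function.update (dec t) β τ)) β = τ := by
    rw [dec_enc hsm, Function.update_self]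
  have e3 : rs (enc (Function.update (dec t) β τ)) β = s :=
    (rs_congr fun γ k => e1 γ (WithTop.coe_lt_coe.1 k).ne).trans k2
  refine ⟨_, (fo α).tr (RR_build (shape_enc hsm (((mem_PP.1 ht).1.2.1.insert β).mono
    fun γ hγ => ?_) fun γ k => ?_) ht fun γ hγ k => ?_) k1, e3, e2⟩
  · by_cases hc : γ = β
    · exact Or.inl hc
    · exact Or.inr (by simpa [Function.update_of_ne hc] using hγ)
  · rw [Function.update_of_ne (fun (k' : γ = β) => k (k' ▸ h)), PP.empty ht k]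
  · by_cases hc : γ = β
    · subst hc
      rw [okc, lec, e2, e3, k3 γ (lt_irrefl _)]
      exact ⟨⟨h1, h2⟩, h3⟩
    · exact same_coord ((mem_PP.1 ht).2 γ hγ) (e1 γ hc) k

/-- The trivial condition. -/
noncomputable def top : U0 := enc fun _ => ∅

theorem dec_top (β : U0) : dec top β = ∅ := by
  rw [top, dec_enc ((sm_dec 0).mono fun _ => empty_subset _)]

theorem top_mem (α : Lv) : top ∈ PP α :=
  mem_PP.2 ⟨shape_enc ((sm_dec 0).mono fun _ => empty_subset _) (by simp) fun _ _ => rfl,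
    fun β _ => okc_empty (dec_top β)⟩

theorem RR_top {α : Lv} {p : U0} (hp : p ∈ PP α) : RR α p top :=
  RR_iff.2 ⟨hp, top_mem α, fun β _ => lec_empty p (dec_top β)⟩

theorem IsF.proj {α γ : Lv} (h : γ ≤ α) {G : Set U0} (hG : IsF (RR α) G) :
    IsF (RR γ) (G ∩ PP γ) := by
  refine ⟨fun p hp q k => ⟨hG.1 p hp.1 q (RR_mono h k), (fo γ).r k⟩, fun p hp q hq => ?_⟩
  obtain ⟨r, h1, h2, h3⟩ := hG.2 p hp.1 q hq.1
  have hr := (fo α).l h2
  exact ⟨rs r γ, ⟨hG.1 r h1 _ (RR_rs_self h hr), PP_rs hr h⟩, RR_down h hp.2 h2, RR_down h hq.2 h3⟩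

theorem Frc.lift {α γ : Lv} (h : γ ≤ α) {s : U0} (hs : s ∈ PP γ) {φ : Set U0 → Prop}
    (k : Frc (RR γ) s φ) : Frc (RR α) s fun G => φ (G ∩ PP γ) := by
  obtain ⟨D, h1, h2⟩ := k
  refine ⟨fun n => {t | ∃ d ∈ D n, RR γ d d ∧ RR α t d}, fun n p hp => ?_, fun G hG k hsG => ?_⟩
  · obtain ⟨d, h3, h4⟩ := h1 n _ (PP_rs hp h)
    obtain ⟨t, h5, h6, -⟩ := exists_glue h hp h4
    exact ⟨t, ⟨d, h3, (fo γ).l h4, h6⟩, h5⟩
  · refine h2 _ (hG.proj h) (fun n => ?_) ⟨hsG, hs⟩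
    obtain ⟨t, ⟨d, h3, h4, h5⟩, h6⟩ := k n
    exact ⟨d, h3, hG.1 t h6 d h5, h4⟩

theorem Frc.lift' {α γ : Lv} (h : γ ≤ α) {t : U0} (ht : t ∈ PP α) {φ : Set U0 → Prop}
    (hm : Ms (PP γ) φ) (k : Frc (RR γ) (rs t γ) φ) : Frc (RR α) t φ :=
  ((k.lift h (PP_rs ht h)).le (RR_rs_self h ht)).mono fun G _ _ k => (hm.loc G).mp k

theorem lt_succ {β γ : U0} : (γ : Lv) < ((β + 1 : U0) : Lv) ↔ γ ≤ β :=
  WithTop.coe_lt_coe.trans Order.lt_add_one_iff

theorem succ_le {β : U0} {α : Lv} (h : (β : Lv) < α) : ((β + 1 : U0) : Lv) ≤ α := by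
  induction α using WithTop.recTopCoe with
  | top => exact le_top
  | coe a => exact WithTop.coe_le_coe.2 (Order.add_one_le_of_lt (WithTop.coe_lt_coe.1 h))

theorem sup_nameOf (α : Lv) (f : Set U0 → Cs) : Sup (PP α) (nameOf (RR α) f) := fun _ h => h.1

theorem PP.sup {α : Lv} {p β : U0} (hp : p ∈ PP α) (h : (β : Lv) < α) : Sup (PP β) (dec p β) :=
  ((mem_PP.1 hp).2 β h).1

theorem PP.ok {α : Lv} {p β : U0} (hp : p ∈ PP α) (h : (β : Lv) < α) :
    Ok (RR β) (XB β) (rs p β) (dec p β) := ((mem_PP.1 hp).2 β h).2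

theorem RR.lec {α : Lv} {p q β : U0} (hp : RR α p q) (h : (β : Lv) < α) :
    Frc (RR β) (rs p β) fun G => Qle (qv (dec p β) G) (qv (dec q β) G) := (RR_iff.1 hp).2.2 β h

/-- Strengthen one coordinate by a measurable function. -/
theorem exists_upd' {α : Lv} {β : U0} (h : (β : Lv) < α) {r : U0} (hr : r ∈ PP α) {s : U0}
    (hs : RR β s (rs r β)) {f : Set U0 → Qc} (hf : Ms (PP β) f)
    (h1 : Frc (RR β) s fun G => Nrm (f G) ∧ Qle (f G) (qv (dec r β) G))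
    (h2 : ∀ x ∈ XB β, Frc (RR β) s fun G => x.1 ∈ G → Good' (f G) (ev x.2 G)) :
    ∃ t, RR α t r ∧ rs t β = s ∧ Frc (RR β) s fun G => qv (dec t β) G = f G := by
  have e := qv_nameQ (fo β) hf s
  obtain ⟨t, k1, k2, k3⟩ := exists_upd h hr hs (τ := nameQ (RR β) f) (sup_nameOf _ _)
    ⟨(h1.and e).mono fun G _ _ k => k.2 ▸ k.1.1,
      fun x hx => ((h2 x hx).and e).mono fun G _ _ k => k.2 ▸ k.1⟩
    ((h1.and e).mono fun G _ _ k => k.2 ▸ k.1.2)
  exact ⟨t, k1, k2, k3 ▸ e⟩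

/-- Restrict one coordinate to a state. -/
theorem exists_rst {α : Lv} {β : U0} (h : (β : Lv) < α) {r : U0} (hr : r ∈ PP α) {s : U0}
    (hs : RR β s (rs r β)) {σ : St} (h1 : Frc (RR β) s fun G => (qv (dec r β) G).2.1 σ) :
    ∃ t, RR α t r ∧ rs t β = s ∧
      Frc (RR β) s fun G => qv (dec t β) G = rst (qv (dec r β) G) σ.1 :=
  exists_upd' h hr hs ((ms_qv (PP.sup hr h)).comp (meas_rst measurable_id σ.1))
    ((h1.and ((PP.ok hr h).le hs).1).mono fun _ _ _ k => ⟨k.2.to_rst k.1, rst_le _ _⟩)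
    fun x hx => (((PP.ok hr h).le hs).2 x hx).mono fun _ _ _ k k' => (k k').to_rst _

theorem RR_sep {α : Lv} {r p : U0} (hr : r ∈ PP α) (hp : p ∈ PP α)
    (h : ∀ β : U0, (β : Lv) < α → dec p β ≠ ∅ →
      Frc (RR α) r fun G => rs p ((β + 1 : U0) : Lv) ∈ G) : RR α r p := by
  refine RR_iff.2 ⟨hr, hp, fun β hβ => ?_⟩
  by_cases he : dec p β = ∅
  · exact lec_empty r he
  by_contra hc
  have m1 := ms_qv (PP.sup hr hβ)
  have m2 := ms_qv (PP.sup hp hβ)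
  obtain ⟨s, h1, h2⟩ := Ms.of_not_frc (fo β) (S := PP β)
    (φ := fun G => Qle (qv (dec r β) G) (qv (dec p β) G)) (meas_qle m1 m2) hc
  obtain ⟨s', σ, h3, h4⟩ := Frc.ex (S := PP β) (fo β)
    (φ := fun (σ : St) G => (qv (dec r β) G).2.1 σ ∧ ¬ Tr (qv (dec p β) G) σ.1)
    (h2.mono fun G _ _ k => by simpa [Qle] using k)
    (fun σ => Ms.and (Measurable.eval (Measurable.fst (Measurable.snd m1))) (meas_tr m2 _).not)
    ((fo β).l h1)
  obtain ⟨t, k1, k2, k3⟩ := exists_rst hβ hr ((fo β).tr h3 h1) (h4.mono fun _ _ _ k => k.1)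
  obtain ⟨u, k4, k5⟩ := ((h β hβ he).le k1).compat (fo α) ((fo α).l k1)
  have k6 : RR β (rs u β) s' := k2 ▸ RR_rs k4 hβ.le
  have k7 := k5.lec hβ
  rw [dec_rs_lt (lt_succ.2 le_rfl)] at k7
  exact ((((PP.ok ((fo α).l k4) hβ).1.and (k4.lec hβ)).and (k7.and ((k3.and h4).le k6))).mono
    fun G _ _ ⟨⟨a1, a2⟩, a3, a4, a5⟩ => a5.2 (a1.sepv (a4 ▸ a2) a3)).elim (fo β) ((fo β).l k6)

end Pool.Agent.Lib.MP_fecf72_lc
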