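import Pool.Agent.Lib.MP_fecf72_lc.Zfc
import Pool.Agent.Lib.MP_fecf72_lc.Dich

namespace Pool.Agent.Lib.MP_fecf72_lc

open Set Filter

theorem mem_img {α : Type} {s : Set α} {f : α → V} {x : V} : x ∈ img s f ↔ ∃ a ∈ s, f a = x := by
  simp [img]

theorem natC_lt {m n : ℕ} (h : m < n) : natC m ∈ natC n := by
  induction h with
  | refl => exact ZFSet.mem_insert _ _
  | step _ ih => exact ZFSet.mem_insert_of_mem _ ih

theorem natC_inj : Function.Injective natC := fun m n h => by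
  rcases lt_trichotomy m n with k | k | k
  · have := natC_lt k
    rw [h] at this
    exact (ZFSet.mem_irrefl _ this).elim
  · exact k
  · have := natC_lt k
    rw [h] at this
    exact (ZFSet.mem_irrefl _ this).elim

/-- A point of Cantor space as a set of numerals. -/
noncomputable def cC (c : Cs) : V := img {n | c n = true} natC

theorem natC_mem_cC {c : Cs} {n : ℕ} : natC n ∈ cC c ↔ c n = true :=
  mem_img.trans ⟨fun ⟨_, h, e⟩ => natC_inj e ▸ h, fun h => ⟨n, h, rfl⟩⟩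

theorem cC_inj : Function.Injective cC := fun c c' h => funext fun n =>
  Bool.eq_iff_iff.2 (by rw [← natC_mem_cC, h, natC_mem_cC])

open Classical in
/-- The cut of a real as a point of Cantor space. -/
noncomputable def rb (x : ℝ) : Cs := fun n => decide (∃ q : ℚ, Encodable.encode q = n ∧ (q : ℝ) < x)

theorem realC_eq (x : ℝ) : realC x = cC (rb x) := by
  ext y
  simp only [realC, cC, mem_img, rb, decide_eq_true_eq, mem_ofPred_eq]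
  exact ⟨fun ⟨q, h, e⟩ => ⟨_, ⟨q, rfl, h⟩, e⟩, fun ⟨_, ⟨q, rfl, h⟩, e⟩ => ⟨q, h, e⟩⟩

theorem realC_inj : Function.Injective realC := fun x y h => by
  have key : ∀ x y : ℝ, realC x = realC y → ¬ x < y := fun x y h k => by
    obtain ⟨q, h1, h2⟩ := exists_rat_btwn k
    obtain ⟨q', h3, h4⟩ := mem_img.1 (h ▸ mem_img.2 ⟨q, h2, rfl⟩ :
      natC (Encodable.encode q) ∈ realC x)
    obtain rfl := Encodable.encode_injective (natC_inj h4)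
    exact h1.not_gt h3
  exact le_antisymm (not_lt.1 (key y x h.symm)) (not_lt.1 (key x y h))

theorem realC_mem {x : ℝ} {A : Set ℝ} : realC x ∈ setC A ↔ x ∈ A :=
  mem_img.trans ⟨fun ⟨_, h, e⟩ => realC_inj e ▸ h, fun h => ⟨x, h, rfl⟩⟩

theorem famC_range (e : ℕ → Set ℝ) : famC (range e) = ZFSet.range fun n => setC (e n) := by
  ext x; simp [famC, mem_img]

/-- Codes for names of Borel sets. -/
inductive BC : Type 1
  | b1 : (Set U0 → Prop) → BC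
  | b2 : ℕ → BC
  | cpl : BC → BC
  | un : (ℕ → BC) → BC

/-- The set with a given code. -/
def BC.ev : BC → Set U0 → Cs → Prop
  | .b1 A, G, _ => A G
  | .b2 i, _, y => y i = true
  | .cpl b, G, y => ¬ b.ev G y
  | .un f, G, y => ∃ n, (f n).ev G y

/-- Well formed codes. -/
def BC.Wf : BC → Prop
  | .b1 A => Ms univ A
  | .b2 _ => True
  | .cpl b => b.Wf
  | .un f => ∀ n, (f n).Wf

/-- Immediate subcodes. -/
def BC.sub : BC → ℕ → BC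
  | .cpl b, _ => b
  | .un f, n => f n
  | b, _ => b

theorem BC.ms {y : Set U0 → Cs} (hy : Ms univ y) : ∀ b : BC, b.Wf → Ms univ fun G => b.ev G (y G)
  | .b1 _, h => h
  | .b2 i, _ => (hy.app i).comp (measurable_of_countable (· = true))
  | .cpl b, h => (b.ms hy h).not
  | .un f, h => ms_ex fun n => (f n).ms hy (h n)

theorem exists_code {s : Set (Fl (univ : Set U0) × Cs)} (hs : MeasurableSet s) :
    ∃ b : BC, b.Wf ∧ ∀ G y, b.ev G y ↔ ((⟨G⟩, y) : Fl (univ : Set U0) × Cs) ∈ s := by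
  let m : MeasurableSpace (Fl (univ : Set U0) × Cs) :=
    { MeasurableSet' := fun s => ∃ b : BC, b.Wf ∧ ∀ G y, b.ev G y ↔ ((⟨G⟩, y) : Fl (univ : Set U0) × Cs) ∈ s
      measurableSet_empty := ⟨.b1 fun _ => False, ms_const _, fun _ _ => Iff.rfl⟩
      measurableSet_compl := fun s ⟨b, h1, h2⟩ => ⟨.cpl b, h1, fun G y => not_congr (h2 G y)⟩
      measurableSet_iUnion := fun f h => by
        choose b h1 h2 using h
        exact ⟨.un b, h1, fun G y => (exists_congr fun n => h2 n G y).trans mem_iUnion.symm⟩ }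
  have h1 : @Measurable _ _ m _ (Prod.fst : Fl (univ : Set U0) × Cs → _) := fun t ht =>
    ⟨.b1 fun G => (⟨G⟩ : Fl univ) ∈ t, measurableSet_setOfPred.1 ht, fun _ _ => Iff.rfl⟩
  have h2 : @Measurable _ _ m _ (Prod.snd : Fl (univ : Set U0) × Cs → _) :=
    @measurable_pi_lambda _ _ _ m _ _ fun i => @measurable_to_bool _ m _
      ⟨.b2 i, trivial, fun _ _ => Iff.rfl⟩
  exact @Measurable.prodMk _ m _ _ _ _ _ _ h1 h2 s hs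

/-- The set name of a name for a point. -/
noncomputable def hat (ρ : Nam U0) : Nm U0 := .mk ρ (fun x => nN top x.1.2) fun x => x.1.1

/-- The point name of a set name. -/
def unhat (π : Nm U0) : Nam U0 := {x | FMem (RR ⊤) (nN top x.2) π x.1}

/-- The points forced into a set name. -/
def XN (τ : Nm U0) : Set (U0 × Nam U0) := {x | FMem (RR ⊤) (hat x.2) τ x.1}

/-- Name for the trace of a coded set. -/
noncomputable def sec (b : BC) (τ : Nm U0) : Nm U0 :=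
  .mk {x : U0 × Nam U0 // x ∈ XN τ ∧ Frc (RR ⊤) x.1 fun G => b.ev G (ev x.2 G)}
    (fun x => hat x.1.2) fun x => x.1.1

theorem top_top : ∀ p, RR ⊤ p p → RR ⊤ p top := fun _ h => RR_top h

theorem club_hat : ∀ᶠ N in Club, ∀ G, GG N (RR ⊤) G → (∀ ρ, val N G (hat ρ) = cC (ev ρ G)) ∧
    ∀ (τ : Nm U0) (X : Set ℝ), In N τ → val N G τ = setC X →
      (∀ x ∈ X, ∃ ρ : Nam U0, In N ρ ∧ ev ρ G = rb x ∧ ∃ p ∈ G, (p, ρ) ∈ XN τ) ∧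
      ∀ p (ρ : Nam U0), In N ρ → p ∈ G → (p, ρ) ∈ XN τ → ∃ x ∈ X, ev ρ G = rb x := by
  filter_upwards [club_countable, club_names top_top (fo ⊤), club_mem (fo ⊤), clo1 hat, clo1 unhat]
    with N hc nm cm c1 c2 G hG
  obtain ⟨-, -, -, n4, -⟩ := nm G hG
  have h1 : ∀ ρ, val N G (hat ρ) = cC (ev ρ G) := by
    intro ρ
    ext x
    simp only [mem_val hc, cC, mem_img, mem_ofPred_eq, ev_true]
    constructor
    · rintro ⟨_, _, ⟨⟨⟨p, n⟩, h⟩, rfl, rfl⟩, k1, -, rfl⟩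
      exact ⟨n, ⟨p, k1, h⟩, (n4 n).2.symm⟩
    · rintro ⟨n, ⟨p, k1, h⟩, rfl⟩
      exact ⟨_, _, ⟨⟨(p, n), h⟩, rfl, rfl⟩, k1, (n4 n).1, (n4 n).2.symm⟩
  refine ⟨h1, fun τ X hτ hX => ⟨fun x hx => ?_, fun p ρ h2 h3 h4 => ?_⟩⟩
  · have h2 : realC x ∈ val N G τ := hX ▸ realC_mem.2 hx
    obtain ⟨π, -, -, -, h3, h4⟩ := (mem_val hc).1 h2
    have h5 : ev (unhat π) G = rb x := funext fun n => Bool.eq_iff_iff.2 (by
      rw [ev_true, ← natC_mem_cC, ← realC_eq, h4, ← (n4 n).2, cm G hG _ _ (n4 n).1 h3]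
      rfl)
    refine ⟨_, c2 π h3, h5, (cm G hG _ _ (c1 _ (c2 π h3)) hτ).1 ?_⟩
    rwa [h1, h5, ← realC_eq]
  · have := (cm G hG _ _ (c1 ρ h2) hτ).2 ⟨p, h3, h4⟩
    rw [hX, h1] at this
    obtain ⟨x, h5, h6⟩ := mem_img.1 this
    exact ⟨x, h5, cC_inj (by rw [← h6, realC_eq])⟩

theorem club_sec : ∀ᶠ N in Club, ∀ G, GG N (RR ⊤) G → ∀ (τ : Nm U0) (X : Set ℝ), In N τ →
    val N G τ = setC X → ∀ b : BC, In N b → b.Wf →
      In N (sec b τ) ∧ val N G (sec b τ) = setC {x ∈ X | b.ev G (rb x)} ∧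
      BorelIn (Mod N G) X {x ∈ X | b.ev G (rb x)} := by
  filter_upwards [club_countable, club_names top_top (fo ⊤), club_hat, club_truth (U := U0),
    clo0 (RR ⊤), clo2 sec, clo1 hat, clo2 fun (b : BC) ρ (G : Set U0) => b.ev G (ev ρ G),
    clo1n BC.sub, clo2 fun (b : BC) τ => seqN top fun n => sec (b.sub n) τ,
    clo_pair BC (Nm U0), clo_pair (BC × Nm U0) (Nm U0),
    club_wit1 (fo ⊤) fun (z : (BC × Nm U0) × Nm U0) r ρ => hat ρ = z.2 ∧ (r, ρ) ∈ XN z.1.2 ∧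
      Frc (RR ⊤) r fun G => z.1.1.ev G (ev ρ G)]
    with N hc nm ht tr hR c1 c2 c3 c4 c5 p1 p2 w1 G hG τ X hτ hX
  obtain ⟨h1, h2⟩ := ht G hG
  obtain ⟨h2, h3⟩ := h2 τ X hτ hX
  obtain ⟨-, -, -, -, -, n6, -⟩ := nm G hG
  have key : ∀ b : BC, In N b → b.Wf → val N G (sec b τ) = setC {x ∈ X | b.ev G (rb x)} := by
    intro b hb hw
    have tr' := fun ρ hρ => tr _ _ G (fo ⊤) hR (c3 b ρ hb hρ) (b.ms (ms_ev' ρ) hw) hG.f hG.g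
    ext y
    rw [mem_val hc, setC, mem_img]
    constructor
    · rintro ⟨_, _, ⟨⟨⟨r, ρ⟩, a1⟩, rfl, rfl⟩, a2, a3, rfl⟩
      obtain ⟨r', a4, ρ', a5, a6, a7, a8⟩ := w1 G hG ((b, τ), hat ρ)
        ((p2 _ _).2 ⟨(p1 _ _).2 ⟨hb, hτ⟩, a3⟩) ⟨r, a2, ρ, rfl, a1⟩
      obtain ⟨x, b1, b2⟩ := h3 r' ρ' a5 a4 a7
      refine ⟨x, ⟨b1, b2 ▸ (tr' ρ' a5).1 ⟨r', a4, a8⟩⟩, ?_⟩
      rw [realC_eq, ← b2, ← h1, a6]
      rfl
    · rintro ⟨x, ⟨a1, a2⟩, rfl⟩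
      obtain ⟨ρ, a3, a4, p, a5, a6⟩ := h2 x a1
      obtain ⟨p', a7, -, a8⟩ := (tr' ρ a3).2 (a4 ▸ a2)
      obtain ⟨r, b1, b2, b3⟩ := hG.f.2 p a5 p' a7
      exact ⟨_, _, ⟨⟨(r, ρ), FMem.le (fo ⊤) a6 b2, a8.le b3⟩, rfl, rfl⟩, b1, c2 ρ a3,
        by rw [realC_eq, ← a4, ← h1]; rfl⟩
  have hM : ∀ b : BC, In N b → b.Wf → setC {x ∈ X | b.ev G (rb x)} ∈ Mod N G :=
    fun b hb hw => ⟨_, c1 b τ hb hτ, key b hb hw⟩
  refine fun b hb hw => ⟨c1 b τ hb hτ, key b hb hw, hM b hb hw, fun F _ a1 a2 a3 => ?_⟩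
  induction b with
  | b1 A => exact a1 {_x | A G} isOpen_const (hM _ hb hw)
  | b2 i =>
    refine a1 {x | rb x i = true} ?_ (hM _ hb hw)
    simp only [rb, decide_eq_true_eq, ofPred_exists]
    exact isOpen_iUnion fun q => isOpen_const.inter isOpen_Ioi
  | cpl b ih =>
    have := a2 _ (ih (c4 _ hb 0) hw)
    rwa [show X \ {x ∈ X | b.ev G (rb x)} = {x ∈ X | (BC.cpl b).ev G (rb x)} by
      ext x; simp [BC.ev]] at this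
  | un f ih =>
    have := a3 (fun n => {x ∈ X | (f n).ev G (rb x)}) ⟨_, c5 _ τ hb hτ, by
      rw [n6 _ fun n => c1 _ τ (c4 _ hb n) hτ]
      exact congrArg seqC (funext fun n => key _ (c4 _ hb n) (hw n))⟩ fun n => ih n (c4 _ hb n) (hw n)
    rwa [show (⋃ n, {x ∈ X | (f n).ev G (rb x)}) = {x ∈ X | (BC.un f).ev G (rb x)} by
      ext x; simp [BC.ev]] at this

/-- The condition forces that the union of the value of `φ` at `n` is included in `W`. -/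
def Th (φ W : Nm U0) (n : ℕ) (r : U0) : Prop :=
  ∀ z : Nm U0 × Nm U0 × Nm U0, ∀ q, RR ⊤ q r → FMem (RR ⊤) (opN top (nN top n) z.1) φ q →
    FMem (RR ⊤) z.2.1 z.1 q → FMem (RR ⊤) z.2.2 z.2.1 q → ∃ q', RR ⊤ q' q ∧ FMem (RR ⊤) z.2.2 W q'

theorem club_th : ∀ᶠ N in Club, ∀ G, GG N (RR ⊤) G → ∀ φ W : Nm U0, In N φ → In N W → ∀ n,
    ((∃ r ∈ G, Th φ W n r) ↔ ∀ y, ZFSet.pair (natC n) y ∈ val N G φ →
      ∀ z ∈ y, ∀ w ∈ z, w ∈ val N G W) := by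
  filter_upwards [club_countable, club_ne (R := RR ⊤), club_names top_top (fo ⊤), club_mem (fo ⊤),
    clo_pair (Nm U0) (Nm U0), clo_pair (Nm U0) (Nm U0 × Nm U0),
    club_all fun n => club_wit2 (fo ⊤) fun (a : Nm U0 × Nm U0) r (z : Nm U0 × Nm U0 × Nm U0) =>
      Th a.1 a.2 n r ∨ (FMem (RR ⊤) (opN top (nN top n) z.1) a.1 r ∧ FMem (RR ⊤) z.2.1 z.1 r ∧
        FMem (RR ⊤) z.2.2 z.2.1 r ∧ ∀ q', RR ⊤ q' r → ¬ FMem (RR ⊤) z.2.2 a.2 q')]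
    with N hc ne nm cm p1 p2 w1 G hG φ W hφ hW n
  obtain ⟨-, -, -, n4, -, -, n7⟩ := nm G hG
  constructor
  · rintro ⟨r, h1, h2⟩ y a1 z a3 w a4
    obtain ⟨π1, -, -, -, -, e1⟩ := (mem_val hc).1 a1
    obtain ⟨π2, -, -, -, -, e2⟩ := (mem_val hc (x := {natC n, y})).1 (e1 ▸ by simp [ZFSet.pair] :
      ({natC n, y} : V) ∈ val N G π1)
    obtain ⟨π, -, -, -, a2, rfl⟩ := (mem_val hc (x := y)).1 (e2 ▸ by simp : y ∈ val N G π2)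
    obtain ⟨ζ, -, -, -, a5, rfl⟩ := (mem_val hc).1 a3
    obtain ⟨ω, -, -, -, a6, rfl⟩ := (mem_val hc).1 a4
    have b0 := n7 _ π (n4 n).1 a2
    obtain ⟨q1, b1, b2⟩ := (cm G hG _ _ b0.1 hφ).1 (by rwa [b0.2, (n4 n).2])
    obtain ⟨q2, b3, b4⟩ := (cm G hG _ _ a5 a2).1 a3
    obtain ⟨q3, b5, b6⟩ := (cm G hG _ _ a6 a5).1 a4
    obtain ⟨q4, b7, b8, b9, b10⟩ := hG.f.three (fo ⊤) b1 b3 b5
    obtain ⟨q, c1, c2, c3⟩ := hG.f.2 r h1 q4 b7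
    refine (cm G hG _ _ a6 hW).2 ⟨q, c1, fun s hs => ?_⟩
    have c4 := (fo ⊤).tr hs c3
    obtain ⟨q', c5, c6⟩ := h2 (π, ζ, ω) s ((fo ⊤).tr hs c2) (b2.le (fo ⊤) ((fo ⊤).tr c4 b8))
      (b4.le (fo ⊤) ((fo ⊤).tr c4 b9)) (b6.le (fo ⊤) ((fo ⊤).tr c4 b10))
    obtain ⟨r', π', s', c7, c8⟩ := c6 q' ((fo ⊤).l c5)
    exact ⟨r', π', s', (fo ⊤).tr c7 c5, c8⟩
  · intro h
    obtain ⟨q0, hq0⟩ := ne G hG
    obtain ⟨r, h1, ⟨π, ζ, ω⟩, h2, h3 | ⟨h3, h4, h5, h6⟩⟩ := w1 n G hG (φ, W) ((p1 _ _).2 ⟨hφ, hW⟩)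
      ⟨q0, hq0, fun r hr => by
        by_cases k : Th φ W n r
        · exact ⟨r, (eN, eN, eN), (fo ⊤).l hr, Or.inl k⟩
        · simp only [Th, not_forall, not_exists, not_and] at k
          obtain ⟨z, q, k1, k2, k3, k4, k5⟩ := k
          exact ⟨q, z, k1, Or.inr ⟨k2, k3, k4, k5⟩⟩⟩
    · exact ⟨r, h1, h3⟩
    · obtain ⟨a1, a2⟩ := (p2 _ _).1 h2
      obtain ⟨a2, a3⟩ := (p1 _ _).1 a2
      have b0 := n7 _ π (n4 n).1 a1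
      have b1 := (cm G hG _ _ b0.1 hφ).2 ⟨r, h1, h3⟩
      rw [b0.2, (n4 n).2] at b1
      obtain ⟨q, b2, b3⟩ := (cm G hG _ _ a3 hW).1 (h _ b1 _
        ((cm G hG _ _ a2 a1).2 ⟨r, h1, h4⟩) _ ((cm G hG _ _ a3 a2).2 ⟨r, h1, h5⟩))
      obtain ⟨s, -, b4, b5⟩ := hG.f.2 r h1 q b2
      exact (h6 s b4 (b3.le (fo ⊤) b5)).elim

theorem pair_mem_seqC {f : ℕ → V} {n : ℕ} {y : V} : ZFSet.pair (natC n) y ∈ seqC f ↔ y = f n := by
  simp only [seqC, ZFSet.mem_range, ZFSet.pair_inj]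
  exact ⟨fun ⟨_, h1, h2⟩ => natC_inj h1 ▸ h2.symm, fun h => ⟨n, rfl, h.symm⟩⟩

/-- Name for the least bound of a finite selection. -/
noncomputable def gsel (φ : Nm U0) (W : ℕ → ℕ → Nm U0) (G : Set U0) (n : ℕ) : ℕ :=
  sInf {m | ∃ r ∈ G, Th φ (W n m) n r}

theorem ms_gsel (φ : Nm U0) (W : ℕ → ℕ → Nm U0) : Ms univ (gsel φ W) :=
  ms_pi fun _ => ms_sInf fun _ => ms_open' _ fun _ _ => trivial

theorem club_bc : ∀ᶠ N in Club, ∀ G, GG N (RR ⊤) G → ∀ X : Set ℝ, setC X ∈ Mod N G →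
    SfinBB (Mod N G) X → CtblIn (Mod N G) (setC X) := by
  filter_upwards [club_ne (R := RR ⊤), club_names top_top (fo ⊤), club_hat, club_sec, club_th,
    club_truth (U := U0), clo0 (RR ⊤),
    club_wit2 (fo ⊤) fun (τ : Nm U0) q (z : (ℕ → Nam U0) × (Set U0 → Cs → ℕ → ℕ)) =>
      Ctb (RR ⊤) (XN τ) q z.1 ∨ (Ms2 univ z.2 ∧ EDom (RR ⊤) (XN τ) q z.2),
    clo_pair (ℕ → Nam U0) (Set U0 → Cs → ℕ → ℕ),
    clo1 fun a : ℕ → Nam U0 => seqN top fun n => hat (a n), clo1n fun (a : ℕ → Nam U0) n => hat (a n),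
    clo2 fun (ρ : Nam U0) (a : ℕ → Nam U0) (G : Set U0) => ∃ n, ev ρ G = ev (a n) G,
    sk1 fun (Ψ : Set U0 → Cs → ℕ → ℕ) (b : ℕ → ℕ → BC) =>
      ∀ n m, (b n m).Wf ∧ ∀ G y, (b n m).ev G y ↔ Ψ G y n ≤ m,
    club_all fun n => clo1n fun (b : ℕ → ℕ → BC) m => b n m,
    clo2 fun (b : ℕ → ℕ → BC) τ n m => sec (b n m) τ,
    clo1n fun (W : ℕ → ℕ → Nm U0) n => rngN top (W n),
    clo1n fun (W : ℕ → ℕ → Nm U0) n => seqN top (W n),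
    clo1 fun (W : ℕ → ℕ → Nm U0) => seqN top fun n => rngN top (W n),
    clo_pair (Nm U0) (ℕ → ℕ → Nm U0),
    club_wit2 (fo ⊤) fun (z : Nm U0 × (ℕ → ℕ → Nm U0)) r (h : ℕ → ℕ) =>
      Frc (RR ⊤) r fun G => ∀ n, gsel z.1 z.2 G n ≤ h n,
    clo2 fun (z : Nm U0 × (ℕ → ℕ → Nm U0)) (h : ℕ → ℕ) (G : Set U0) => ∀ n, gsel z.1 z.2 G n ≤ h n,
    clo_pair (Set U0 → Cs → ℕ → ℕ) (ℕ → ℕ), clo_pair (Nm U0) ((Set U0 → Cs → ℕ → ℕ) × (ℕ → ℕ)),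
    club_wit2 (fo ⊤) fun (z : Nm U0 × (Set U0 → Cs → ℕ → ℕ) × (ℕ → ℕ)) s (x : U0 × Nam U0) =>
      x ∈ XN z.1 ∧ RR ⊤ s x.1 ∧ Frc (RR ⊤) s fun G => ∀ n, z.2.2 n ≤ z.2.1 G (ev x.2 G) n,
    clo3' fun (Ψ : Set U0 → Cs → ℕ → ℕ) (ρ : Nam U0) (h : ℕ → ℕ) (G : Set U0) =>
      ∀ n, h n ≤ Ψ G (ev ρ G) n,
    clo_pair U0 (Nam U0), clo1 fun (h : ℕ → ℕ) n => h n + 1,
    club_all fun m : ℕ => clo0 fun _ : ℕ => m]
    with N ne nm ht sc th tr hR w1 p1 c1 c2 c3 s1 c4 c5 c6 c7 c8 p2 w2 c9 p3 p4 w3 c10 p5 c11 c12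
  rintro G hG X ⟨τ, hτ, hX⟩ hS
  obtain ⟨q0, hq0⟩ := ne G hG
  obtain ⟨-, -, -, -, n5, n6, -⟩ := nm G hG
  obtain ⟨h1, h2⟩ := ht G hG
  obtain ⟨h2, h3⟩ := h2 τ X hτ hX
  obtain ⟨q, hq, ⟨a, Ψ⟩, hz, h4 | ⟨h4, h5⟩⟩ := w1 G hG τ hτ ⟨q0, hq0, fun r hr => by
    obtain ⟨q, k1, ⟨a, k2⟩ | ⟨Ψ, k2⟩⟩ := dich (XN τ) ((fo ⊤).l hr)
    exacts [⟨q, (a, fun _ _ _ => 0), k1, Or.inl k2⟩, ⟨q, (fun _ => ∅, Ψ), k1, Or.inr k2⟩]⟩
  · have ha := ((p1 _ _).1 hz).1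
    refine ⟨fun n => cC (ev (a n) G), ⟨_, c1 a ha, by rw [n6 _ (c2 a ha)]; simp only [h1]⟩,
      fun y hy => ?_⟩
    obtain ⟨x, k1, rfl⟩ := mem_img.1 hy
    obtain ⟨ρ, k2, k3, p, k4, k5⟩ := h2 x k1
    obtain ⟨r, k6, k7, k8⟩ := hG.f.2 q hq p k4
    obtain ⟨n, k9⟩ := (tr _ _ G (fo ⊤) hR (c3 ρ a k2 ha)
      (ms_ex fun n => (ms_ev' _).eq (ms_ev' _)) hG.f hG.g).1
      ⟨r, k6, (((h4 _ k5).le k7).and (frc_mem k8)).mono fun _ _ _ k => k.1 k.2⟩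
    exact ⟨n, by rw [realC_eq, ← k3, k9]⟩
  exfalso
  have hΨ : In N Ψ := ((p1 _ _).1 hz).2
  have dom : ∀ h : ℕ → ℕ, In N h → ∃ x ∈ X, ∀ n, h n ≤ Ψ G (rb x) n := by
    intro h hh
    obtain ⟨s, k1, ⟨p, ρ⟩, k2, k3, k4, k5⟩ := w3 G hG (τ, Ψ, h)
      ((p4 _ _).2 ⟨hτ, (p3 _ _).2 ⟨hΨ, hh⟩⟩) ⟨q, hq, fun r hr =>
        let ⟨x, a1, s', a2, a3⟩ := h5 h r hr; ⟨s', x, a2, a1, a3⟩⟩
    have hρ := ((p5 _ _).1 k2).2
    obtain ⟨x, k6, k7⟩ := h3 p ρ hρ (hG.f.1 s k1 p k4) k3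
    exact ⟨x, k6, k7 ▸ (tr _ _ G (fo ⊤) hR (c10 Ψ ρ h hΨ hρ hh)
      (ms_all fun n => (ms_const _).le ((h4.app (ms_ev' ρ)).app n)) hG.f hG.g).1 ⟨s, k1, k5⟩⟩
  obtain ⟨b, hb, hb'⟩ := s1 Ψ hΨ (by
    choose b hb using fun n m => exists_code (s := {z | Ψ z.1.g z.2 n ≤ m})
      (measurableSet_setOfPred.2 (meas_le (Measurable.eval h4) measurable_const))
    exact ⟨b, hb⟩)
  let W : ℕ → ℕ → Nm U0 := fun n m => sec (b n m) τ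
  have hW : In N W := c5 b τ hb hτ
  let A : ℕ → ℕ → Set ℝ := fun n m => {x ∈ X | Ψ G (rb x) n ≤ m}
  have hA : ∀ n m, In N (W n m) ∧ val N G (W n m) = setC (A n m) ∧ BorelIn (Mod N G) X (A n m) :=
    fun n m => by
      simpa only [(hb' n m).2] using sc G hG τ X hτ hX (b n m) (c4 n b hb m) (hb' n m).1
  have hC : ∀ n, val N G (rngN top (W n)) = famC (range (A n)) := fun n => by
    rw [n5 _ fun m => (hA n m).1, famC_range]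
    simp only [fun m => (hA n m).2.1]
  obtain ⟨F, ⟨φ, hφ, k1⟩, k2, -, -, -, k3, -⟩ := hS (fun n => range (A n))
    ⟨_, c8 W hW, by rw [n6 _ (c6 W hW)]; simp only [hC]⟩ fun n =>
      ⟨⟨_, c6 W hW n, hC n⟩, ⟨fun m => setC (A n m), ⟨_, c7 W hW n, by
        rw [n6 _ fun m => (hA n m).1]; simp only [fun m => (hA n m).2.1]⟩, fun y hy => by
          rwa [famC_range, ZFSet.mem_range] at hy⟩, forall_mem_range.2 fun m => (hA n m).2.2,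
        by ext x; simpa [A] using fun _ => ⟨_, le_rfl⟩, fun ⟨m, hm⟩ => by
          obtain ⟨x, a1, a2⟩ := dom _ (c12 (m + 1))
          exact absurd (hm ▸ a1 : x ∈ A n m).2 (not_le.2 (a2 n))⟩
  have hsel : ∀ n m, (∃ r ∈ G, Th φ (W n m) n r) ↔ ⋃₀ F n ⊆ A n m := by
    intro n m
    rw [th G hG φ _ hφ (hA n m).1 n, k1, (hA n m).2.1]
    constructor
    · rintro h x ⟨B, a1, a2⟩
      exact realC_mem.1 (h _ (pair_mem_seqC.2 rfl) _ (mem_img.2 ⟨B, a1, rfl⟩) _ (realC_mem.2 a2))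
    · intro h y hy z hz w hw
      rw [pair_mem_seqC.1 hy] at hz
      obtain ⟨B, a1, rfl⟩ := mem_img.1 hz
      obtain ⟨x, a2, rfl⟩ := mem_img.1 hw
      exact realC_mem.2 (h ⟨B, a1, a2⟩)
  have hz' := (p2 φ W).2 ⟨hφ, hW⟩
  obtain ⟨r, a1, h, a2, a3⟩ := w2 G hG (φ, W) hz' ⟨q0, hq0, fun r hr =>
    bdd ⊤ _ (ms_gsel φ W) r ((fo ⊤).l hr)⟩
  have a4 := (tr _ _ G (fo ⊤) hR (c9 _ h hz' a2)
    (ms_all fun n => ((ms_gsel φ W).app n).le (ms_const _)) hG.f hG.g).1 ⟨r, a1, a3⟩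
  obtain ⟨x, a5, a6⟩ := dom _ (c11 h a2)
  obtain ⟨B, a7, a8⟩ := mem_sUnion.1 (k3 ▸ a5 : x ∈ ⋃₀ ⋃ n, F n)
  obtain ⟨n, a7⟩ := mem_iUnion.1 a7
  have a9 : ∃ m, ⋃₀ F n ⊆ A n m := by
    choose! i hi using fun B (hB : B ∈ F n) => (k2 n).2 hB
    obtain ⟨m, hm⟩ := ((k2 n).1.image i).bddAbove
    exact ⟨m, sUnion_subset fun B hB y hy =>
      have : y ∈ A n (i B) := (hi B hB).symm ▸ hy
      ⟨this.1, this.2.trans (hm ⟨B, hB, rfl⟩)⟩⟩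
  have a10 := (hsel n _).1 (Nat.sInf_mem (s := {m | ∃ r ∈ G, Th φ (W n m) n r})
    (a9.imp fun m => (hsel n m).2)) ⟨B, a7, a8⟩
  exact absurd ((a6 n).trans (a10.2.trans (a4 n))) (Nat.not_succ_le_self _)

theorem main : ∃ M : Set V, M.Countable ∧ IsZFC M ∧
    ∀ X : Set ℝ, setC X ∈ M → SfinBB M X → CtblIn M (setC X) := by
  obtain ⟨N, h1, h2, h3, h4, h5, h6⟩ := (club_countable.and ((club_zfc top_top (fo ⊤)).and
    (club_bc.and (club_proper.and ((clo0 (⊤ : Lv)).and (clo0 top)))))).exists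
  obtain ⟨q, k1, k2⟩ := h4 ⊤ h5 top (top_mem _) h6
  obtain ⟨G, k3, -, k4⟩ := k2.exists (fo ⊤) ((fo ⊤).l k1)
  exact ⟨Mod N G, (countable_In _ h1).image _, h2 G ⟨k3, k4⟩, h3 G ⟨k3, k4⟩⟩

end Pool.Agent.Lib.MP_fecf72_lc
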