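import Pool.Agent.Lib.MP_fecf72_lc.Fusion

namespace Pool.Agent.Lib.MP_fecf72_lc

open Set

variable {α : Type*} [MeasurableSpace α]

theorem meas_eq_ctbl {ι : Type*} [MeasurableSpace ι] [Countable ι] [MeasurableSingletonClass ι]
    {f g : α → ι} (hf : Measurable f) (hg : Measurable g) : Measurable fun a => f a = g a :=
  (measurable_of_countable fun p : ι × ι => p.1 = p.2).comp (hf.prodMk hg)

theorem meas_eq {f g : α → Cs} (hf : Measurable f) (hg : Measurable g) :
    Measurable fun a => f a = g a := by
  simp only [funext_iff]
  exact Measurable.forall fun i => meas_eq_ctbl (hf.eval) (hg.eval)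

theorem meas_le {f g : α → ℕ} (hf : Measurable f) (hg : Measurable g) :
    Measurable fun a => f a ≤ g a :=
  (measurable_of_countable fun p : ℕ × ℕ => p.1 ≤ p.2).comp (hf.prodMk hg)

theorem meas_lt {f g : α → ℕ} (hf : Measurable f) (hg : Measurable g) :
    Measurable fun a => f a < g a :=
  (measurable_of_countable fun p : ℕ × ℕ => p.1 < p.2).comp (hf.prodMk hg)

theorem meas_max {f g : α → ℕ} (hf : Measurable f) (hg : Measurable g) :
    Measurable fun a => max (f a) (g a) :=
  (measurable_of_countable fun p : ℕ × ℕ => max p.1 p.2).comp (hf.prodMk hg)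

theorem meas_res (n : ℕ) (v : List Bool) {y : α → Cs} (hy : Measurable y) :
    Measurable fun a => res n (y a) = v := by
  have : ∀ a, res n (y a) = v ↔ v.length = n ∧ ∀ i, i < n → y a i = pad v i := by
    intro a
    constructor
    · rintro rfl
      exact ⟨by simp [res], fun i hi => (pad_res hi _).symm⟩
    · rintro ⟨rfl, h⟩
      refine List.ext_getElem (by simp [res]) fun i h1 h2 => ?_
      simp [res, h i h2, pad, h2]
  simp only [this]
  exact measurable_const.and (Measurable.forall fun i => measurable_const.imp
    (meas_eq_ctbl hy.eval measurable_const))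

theorem meas_hit (t : Nd) (n : ℕ) {y : α → Cs} (hy : Measurable y) :
    Measurable fun a => Hit t n (y a) := by
  have : ∀ a, Hit t n (y a) ↔ ∃ v, t[n]? = some v ∧ res (n + 1) (y a) = v := by
    intro a
    exact ⟨fun h => ⟨_, h, rfl⟩, fun ⟨v, h1, h2⟩ => by rw [Hit, h1, h2]⟩
  simp only [this]
  exact Measurable.exists fun v => measurable_const.and (meas_res _ _ hy)

theorem meas_sep (k : ℕ) {z y : α → Cs} (hz : Measurable z) (hy : Measurable y) :
    Measurable fun a => Sep k (z a) (y a) :=
  Measurable.exists fun _ => measurable_const.and (meas_eq_ctbl hz.eval hy.eval).not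

theorem meas_LS (Z : Finset ℕ) {z : α → ℕ → Cs} {y : α → Cs} (hz : Measurable z)
    (hy : Measurable y) : Measurable fun a => y a ∈ LS (z a) Z :=
  Measurable.exists fun _ => measurable_const.and (meas_eq hz.eval hy)

theorem forall_LS {z : ℕ → Cs} {Z : Finset ℕ} {P : Cs → Prop} :
    (∀ y ∈ LS z Z, P y) ↔ ∀ i ∈ Z, P (z i) :=
  ⟨fun h i hi => h _ ⟨i, hi, rfl⟩, fun h _ ⟨i, hi, k⟩ => k ▸ h i hi⟩

theorem exists_LS {z : ℕ → Cs} {Z : Finset ℕ} {P : Cs → Prop} :
    (∃ y ∈ LS z Z, P y) ↔ ∃ i ∈ Z, P (z i) :=
  ⟨fun ⟨_, ⟨i, hi, k⟩, h⟩ => ⟨i, hi, k ▸ h⟩, fun ⟨i, hi, h⟩ => ⟨_, ⟨i, hi, rfl⟩, h⟩⟩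

theorem meas_lg (E : Set ℕ) (t t' : Nd) (Z Z' : Finset ℕ) {z z' : α → ℕ → Cs} {y : α → Cs}
    (hz : Measurable z) (hz' : Measurable z') (hy : Measurable y) :
    Measurable fun a => Lg E t (LS (z a) Z) t' (LS (z' a) Z') (y a) := by
  simp only [Lg, forall_LS, exists_LS]
  exact (Measurable.forall fun n => measurable_const.imp (measurable_const.imp
    ((meas_hit _ _ hy).imp (Measurable.exists fun i =>
      measurable_const.and (meas_hit _ _ hz.eval))))).and
    (Measurable.forall fun i => measurable_const.imp
      ((meas_LS _ hz hz'.eval).not.imp (meas_sep _ hz'.eval hy)))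

theorem meas_onc (t t' : Nd) (Z Z' : Finset ℕ) {z z' : α → ℕ → Cs} {y : α → Cs}
    (hz : Measurable z) (hz' : Measurable z') (hy : Measurable y) :
    Measurable fun a => Onc t (LS (z a) Z) t' (LS (z' a) Z') (y a) :=
  Measurable.exists fun _ => measurable_const.and
    ((meas_hit _ _ hy).and (meas_lg _ _ _ _ _ hz hz' hy))

theorem meas_bnd (n : ℕ) {Mk : α → Cs → Prop} {ok : α → ℕ → Prop} {Pr : α → ℕ → Cs → Prop}
    (h1 : ∀ v, Measurable fun a => Mk a v) (h2 : ∀ b, Measurable fun a => ok a b)
    (h3 : ∀ b v, Measurable fun a => Pr a b v) :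
    Measurable fun a => bnd n (Mk a) (ok a) (Pr a) :=
  meas_sInf fun _ => Measurable.forall fun _ => measurable_const.imp
    ((Measurable.forall fun _ => measurable_const.imp (h1 _)).imp
      (Measurable.exists fun b => measurable_const.and ((h2 b).and
        (Measurable.forall fun _ => measurable_const.imp (h3 _ _)))))

theorem meas_rmx {e : α → ℕ → ℕ} {m : α → ℕ} (he : Measurable e) (hm : Measurable m) :
    Measurable fun a => rmx (e a) (m a) := by
  refine meas_ctbl (f := fun k a => rmx (e a) k) (fun k => ?_) hm
  induction k with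
  | zero => simpa [rmx] using he.eval
  | succ k ih =>
    have : ∀ a, rmx (e a) (k + 1) = max (e a (k + 1)) (rmx (e a) k) := fun a => by
      simp [rmx, Finset.range_add_one]
    simp only [this]
    exact meas_max he.eval ih

theorem meas_rmx2 {f : α → ℕ → ℕ → ℕ} {m : α → ℕ} (hf : Measurable f) (hm : Measurable m) :
    Measurable fun a => rmx2 (f a) (m a) :=
  meas_rmx (measurable_pi_lambda _ fun _ => meas_rmx hf.eval hm) hm

theorem meas_lst {e f : α → ℕ → ℕ} (he : Measurable e) (hf : Measurable f) :
    Measurable fun a => Lst (e a) (f a) :=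
  Measurable.exists fun _ => Measurable.forall fun _ => measurable_const.imp
    (meas_le he.eval hf.eval)

section
variable (cs : ℕ → Nd × Finset ℕ) {d : α → Fd} {e : α → ℕ → ℕ} {y : α → Cs}

theorem meas_phi (hd : Measurable d) (hy : Measurable y) :
    Measurable fun a => Phi cs (d a) (y a) := by
  have : Measurable fun a => Ph cs (d a) (y a) :=
    measurable_pi_lambda _ fun n => measurable_pi_lambda _ fun b => meas_bnd _
      (fun v => meas_sep _ measurable_const hy)
      (fun c => hd.snd.fst.eval.eval.eval.and (meas_onc _ _ _ _ hd.fst hd.fst hy))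
      fun c v => meas_lg _ _ _ _ _ hd.fst hd.fst measurable_const
  exact measurable_pi_lambda _ fun m => meas_rmx2 this (meas_rmx2 this measurable_const)

theorem meas_lv (hd : Measurable d) (he : Measurable e) (n : ℕ) :
    Measurable fun a => lv cs (d a) (e a) n := by
  have : Measurable fun a => Bn cs (d a) :=
    measurable_pi_lambda _ fun n => measurable_pi_lambda _ fun b => meas_bnd _
      (fun v => measurable_const) (fun c => hd.snd.fst.eval.eval.eval)
      fun c v => meas_lg _ _ _ _ _ hd.fst hd.fst measurable_const
  induction n with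
  | zero => exact (measurable_of_countable (· + 1)).comp hd.snd.snd.fst
  | succ n ih =>
    exact meas_max (meas_rmx2 this ih)
      (meas_max (meas_rmx he ih) ((measurable_of_countable (· + 1)).comp ih))

theorem meas_reach (hd : Measurable d) (he : Measurable e) (n b : ℕ) :
    Measurable fun a => Reach cs (d a) (e a) n b := by
  induction n generalizing b with
  | zero => exact meas_eq_ctbl measurable_const hd.snd.snd.fst
  | succ n ih =>
    exact Measurable.exists fun c => (ih c).and (hd.snd.fst.eval.eval.eval.and
      (meas_lt measurable_const (meas_lv cs hd he _)))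

theorem meas_sig (hd : Measurable d) (he : Measurable e) :
    Measurable fun a => Sig cs (d a) (e a) :=
  hd.fst.prodMk ((measurable_pi_lambda _ fun _ => Measurable.exists fun _ =>
    (meas_reach cs hd he _ _).and measurable_const).prodMk hd.snd.snd.snd)

end

section
variable {x w : α → Qc} {l : α → ℕ → Cs}

theorem meas_tr (hx : Measurable x) (u : Nd) : Measurable fun a => Tr (x a) u :=
  Measurable.exists fun _ => hx.snd.fst.eval.and measurable_const

theorem meas_qle (hx : Measurable x) (hw : Measurable w) : Measurable fun a => Qle (x a) (w a) :=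
  Measurable.forall fun _ => hx.snd.fst.eval.imp (meas_tr hw _)

theorem meas_rst (hx : Measurable x) (u : Nd) : Measurable fun a => rst (x a) u :=
  hx.fst.prodMk ((measurable_pi_lambda _ fun _ => hx.snd.fst.eval.and measurable_const).prodMk
    hx.snd.snd)

theorem meas_itl {l' : α → ℕ → Cs} (hl : Measurable l) (hl' : Measurable l') :
    Measurable fun a => itl (l a) (l' a) := by
  refine measurable_pi_lambda _ fun n => ?_
  unfold itl
  split_ifs
  exacts [hl.eval, hl'.eval]

theorem meas_shr (hx : Measurable x) (hl : Measurable l) (σ0 : St) (n : ℕ) :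
    Measurable fun a => shr (x a) σ0 (l a) n :=
  hx.fst.prodMk ((measurable_pi_lambda _ fun _ => hx.snd.fst.eval.and (measurable_const.and
    (Measurable.forall fun _ => measurable_const.imp
      (meas_lg _ _ _ _ _ hx.fst hx.fst hl.eval)))).prodMk (meas_itl hl hx.snd.snd))

theorem meas_rel' (hx : Measurable x) (hl : Measurable l) (hw : Measurable w) (σ0 : St) (n : ℕ) :
    Measurable fun a => rel' (x a) σ0 (l a) n (w a) := by
  refine hw.fst.prodMk ((measurable_pi_lambda _ fun σ => Measurable.exists fun Z =>
    hw.snd.fst.eval.and ((Measurable.forall fun i => measurable_const.iff (measurable_const.and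
      ((meas_LS _ hl hw.fst.eval).and (meas_LS _ hx.fst hw.fst.eval).not).not)).and
        (measurable_const.and ?_))).prodMk hw.snd.snd)
  simp only [mem_diff, and_imp, forall_LS]
  exact Measurable.forall fun i => measurable_const.imp ((meas_LS _ hx.fst hl.eval).not.imp
    (Measurable.forall fun j => measurable_const.imp (meas_sep _ hx.fst.eval hl.eval)))

end

/-- Index set of the bits of a precondition. -/
abbrev Jx : Type := (ℕ × ℕ) ⊕ St ⊕ (ℕ × ℕ)

/-- A numbering of the bits. -/
noncomputable def jn : Jx → ℕ := (Countable.exists_injective_nat Jx).choose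

theorem jn_inj : Function.Injective jn := (Countable.exists_injective_nat Jx).choose_spec

/-- Decoding of preconditions. -/
noncomputable def dq (c : Cs) : Qc :=
  (fun i j => c (jn (.inl (i, j))), fun σ => c (jn (.inr (.inl σ))) = false,
    fun i j => c (jn (.inr (.inr (i, j)))))

open Classical in
/-- The bits of a precondition. -/
noncomputable def bitq (x : Qc) : Jx → Bool
  | .inl p => x.1 p.1 p.2
  | .inr (.inl σ) => decide (¬ x.2.1 σ)
  | .inr (.inr p) => x.2.2 p.1 p.2

/-- Encoding of preconditions. -/
noncomputable def eq' (x : Qc) : Cs := Function.extend jn (bitq x) fun _ => false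

theorem dq_eq (x : Qc) : dq (eq' x) = x := by
  simp only [dq, eq', jn_inj.extend_apply, bitq]
  simp

theorem meas_dq : Measurable dq :=
  (measurable_pi_lambda _ fun _ => measurable_pi_lambda _ fun _ => measurable_pi_apply _).prodMk
    ((measurable_pi_lambda _ fun _ => meas_eq_ctbl (measurable_pi_apply _) measurable_const).prodMk
      (measurable_pi_lambda _ fun _ => measurable_pi_lambda _ fun _ => measurable_pi_apply _))

theorem meas_eq' : Measurable eq' := by
  refine measurable_pi_lambda _ fun n => ?_
  by_cases h : ∃ j, jn j = n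
  · obtain ⟨j, rfl⟩ := h
    simp only [eq', jn_inj.extend_apply]
    rcases j with p | σ | p
    · exact (measurable_fst (α := ℕ → Cs)).eval.eval (a := p.2)
    · exact meas_bool (by simpa [bitq] using measurable_snd.fst.eval.not)
    · exact (measurable_snd (α := ℕ → Cs)).snd.eval.eval (a := p.2)
  · simp only [eq', Function.extend_apply' _ _ _ h]
    exact measurable_const

/-- The tree has nodes of every length above `u`. -/
def Inf' (T : List Bool → Prop) (u : List Bool) : Prop :=
  ∀ L, ∃ v : List Bool, v.length = L ∧ ∀ k, T ((u ++ v).take k)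

open Classical in
/-- Initial segments of the leftmost branch. -/
noncomputable def lft (T : List Bool → Prop) : ℕ → List Bool
  | 0 => []
  | n + 1 => lft T n ++ [decide (¬ Inf' T (lft T n ++ [false]))]

/-- The leftmost branch. -/
noncomputable def brn (T : List Bool → Prop) : Cs := fun i => (lft T (i + 1)).getD i false

theorem lft_len (T : List Bool → Prop) (n : ℕ) : (lft T n).length = n := by
  induction n with
  | zero => rfl
  | succ n ih => simp [lft, ih]

theorem res_succ (n : ℕ) (y : Cs) : res (n + 1) y = res n y ++ [y n] := by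
  simp [res, List.range_succ]

theorem res_brn (T : List Bool → Prop) (n : ℕ) : res n (brn T) = lft T n := by
  induction n with
  | zero => rfl
  | succ n ih =>
    rw [res_succ, ih, brn]
    conv_rhs => rw [lft]
    conv_lhs => rw [lft]
    simp [lft_len]

theorem inf_lft {T : List Bool → Prop} (h : Inf' T []) (n : ℕ) : Inf' T (lft T n) := by
  classical
  induction n with
  | zero => exact h
  | succ n ih =>
    rw [lft]
    by_cases hc : Inf' T (lft T n ++ [false])
    · simpa [hc] using hc
    · simp only [hc, not_false_eq_true, decide_true]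
      simp only [Inf', not_forall, not_exists, not_and] at hc
      obtain ⟨L0, hL⟩ := hc
      intro L
      obtain ⟨v, h1, h2⟩ := ih (L + L0 + 1)
      rcases v with _ | ⟨b, v⟩
      · simp at h1
      have h3 : ∀ K k, T ((lft T n ++ [b] ++ v.take K).take k) := fun K k => by
        have := h2 (min k ((lft T n).length + 1 + K))
        rw [← List.take_take] at this
        have e : lft T n ++ [b] ++ v.take K = (lft T n ++ b :: v).take ((lft T n).length + 1 + K) := by
          simp [List.take_append, List.take_of_length_le, Nat.add_assoc, Nat.add_comm 1 K]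
        rwa [e]
      cases b
      · obtain ⟨k, hk⟩ := hL (v.take L0) (by simp at h1 ⊢; omega)
        exact (hk (h3 _ _)).elim
      · exact ⟨v.take L, by simp at h1 ⊢; omega, h3 L⟩

theorem brn_spec {T : List Bool → Prop} {y : Cs} (h : ∀ n, T (res n y)) (n : ℕ) :
    T (res n (brn T)) := by
  have h0 : Inf' T [] := fun L => ⟨res L y, by simp [res], fun k => by
    have : ([] ++ res L y).take k = res (min k L) y := by simp [res, List.take_range, ← List.map_take]
    rw [this]; exact h _⟩
  obtain ⟨v, h1, h2⟩ := inf_lft h0 n 0
  have := h2 n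
  rw [List.length_eq_zero_iff.1 h1, List.append_nil, List.take_of_length_le (lft_len T n).le] at this
  rwa [res_brn]

instance : MeasurableSpace (List Bool) := ⊤
instance : MeasurableSingletonClass (List Bool) := ⟨fun _ => trivial⟩

theorem meas_brn {T : α → List Bool → Prop} (h : ∀ u, Measurable fun a => T a u) :
    Measurable fun a => brn (T a) := by
  classical
  have key : ∀ n, Measurable fun a => lft (T a) n := by
    intro n
    induction n with
    | zero => exact measurable_const
    | succ n ih =>
      refine meas_ctbl (f := fun u a => u ++ [decide (¬ Inf' (T a) (u ++ [false]))]) (fun u => ?_) ih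
      refine (measurable_of_countable fun b : Bool => u ++ [b]).comp (meas_bool ?_)
      simp only [decide_eq_true_eq]
      exact (Measurable.forall fun L => Measurable.exists fun v => measurable_const.and
        (Measurable.forall fun k => h _)).not
  exact measurable_pi_lambda _ fun i =>
    (measurable_of_countable fun u : List Bool => u.getD i false).comp (key _)

end Pool.Agent.Lib.MP_fecf72_lc
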