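import Pool.Agent.Lib.MP_fecf72_lc.FO

namespace Pool.Agent.Lib.MP_fecf72_lc

open Set Filter

variable {U : Type 1} {R : U → U → Prop} {t : U}

/-- Name for inserting an element. -/
def insN (t : U) (σ τ : Nm U) : Nm U :=
  .mk (Option τ.idx) (fun o => o.elim σ τ.sub) fun o => o.elim t τ.cnd

theorem ch_insN {σ τ π : Nm U} {s : U} : Ch (insN t σ τ) π s ↔ (π = σ ∧ s = t) ∨ Ch τ π s := by
  constructor
  · rintro ⟨_ | i, rfl, rfl⟩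
    exacts [Or.inl ⟨rfl, rfl⟩, Or.inr ⟨i, rfl, rfl⟩]
  · rintro (⟨rfl, rfl⟩ | ⟨i, rfl, rfl⟩)
    exacts [⟨none, rfl, rfl⟩, ⟨some i, rfl, rfl⟩]

/-- Name for a subset. -/
def subN (τ : Nm U) (S : Set (τ.idx × U)) : Nm U := .mk S (fun z => τ.sub z.1.1) fun z => z.1.2

theorem ch_subN {τ π : Nm U} {P : Nm U → U → Prop} {r : U} :
    Ch (subN τ {z | P (τ.sub z.1) z.2}) π r ↔ (∃ s, Ch τ π s) ∧ P π r := by
  constructor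
  · rintro ⟨⟨⟨i, r⟩, h⟩, rfl, rfl⟩
    exact ⟨⟨_, i, rfl, rfl⟩, h⟩
  · rintro ⟨⟨_, i, rfl, rfl⟩, h⟩
    exact ⟨⟨(i, r), h⟩, rfl, rfl⟩

/-- Name for a subset given by a forced property. -/
def sepN (τ : Nm U) (P : Nm U → U → Prop) : Nm U := subN τ {z | P (τ.sub z.1) z.2}

theorem ch_sepN {τ π : Nm U} {P : Nm U → U → Prop} {r : U} :
    Ch (sepN τ P) π r ↔ (∃ s, Ch τ π s) ∧ P π r := ch_subN

/-- Name for the union. -/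
def unN (R : U → U → Prop) (τ : Nm U) : Nm U :=
  .mk (Σ i : τ.idx, {z : (τ.sub i).idx × U // R z.2 (τ.cnd i) ∧ R z.2 ((τ.sub i).cnd z.1)})
    (fun z => (τ.sub z.1).sub z.2.1.1) fun z => z.2.1.2

theorem ch_unN {τ π : Nm U} {r : U} :
    Ch (unN R τ) π r ↔ ∃ σ s s', Ch τ σ s ∧ Ch σ π s' ∧ R r s ∧ R r s' := by
  constructor
  · rintro ⟨⟨i, ⟨j, r⟩, h⟩, rfl, rfl⟩
    exact ⟨_, _, _, ⟨i, rfl, rfl⟩, ⟨j, rfl, rfl⟩, h⟩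
  · rintro ⟨_, _, _, ⟨i, rfl, rfl⟩, ⟨j, rfl, rfl⟩, h⟩
    exact ⟨⟨i, (j, r), h⟩, rfl, rfl⟩

/-- Name for the range of a family of names. -/
def famN (t : U) {ι : Type 1} (g : ι → Nm U) : Nm U := .mk ι g fun _ => t

theorem ch_famN {ι : Type 1} {g : ι → Nm U} {π : Nm U} {s : U} :
    Ch (famN t g) π s ↔ (∃ i, g i = π) ∧ s = t :=
  ⟨fun ⟨i, h1, h2⟩ => ⟨⟨i, h1⟩, h2.symm⟩, fun ⟨⟨i, h1⟩, h2⟩ => ⟨i, h1, h2.symm⟩⟩

/-- Name for the power set. -/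
def powN (R : U → U → Prop) (t : U) (τ : Nm U) : Nm U :=
  famN t fun S : Set (τ.idx × U) => subN τ {z | z ∈ S ∧ FMem R (τ.sub z.1) τ z.2}

/-- Names for numerals. -/
def nN (t : U) : ℕ → Nm U
  | 0 => eN
  | n + 1 => insN t (nN t n) (nN t n)

/-- Name for the range of a sequence of names. -/
def rngN (t : U) (g : ℕ → Nm U) : Nm U := famN t fun n : ULift.{1} ℕ => g n.down

/-- Name for an ordered pair. -/
def opN (t : U) (σ τ : Nm U) : Nm U :=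
  insN t (insN t σ eN) (insN t (insN t σ (insN t τ eN)) eN)

/-- Name for a sequence. -/
def seqN (t : U) (g : ℕ → Nm U) : Nm U := rngN t fun n => opN t (nN t n) (g n)

/-- Name for a collection of witnesses. -/
noncomputable def colN (R : U → U → Prop) (t : U) (φ : Fm) (v : List (Nm U)) (τ : Nm U) : Nm U :=
  famN t fun z : τ.idx × U => Classical.epsilon fun π => FF R φ (π :: τ.sub z.1 :: v) z.2

/-- The defining property of the choice set. -/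
def ChP (R : U → U → Prop) (τ π : Nm U) (r : U) (σ : Nm U) : Prop :=
  ∃ s, Ch τ σ s ∧ R r s ∧ FMem R π σ r ∧ ∀ π' s', Ch (unN R τ) π' s' → WellOrderingRel π' π →
    ∀ q, R q r → ¬ FMem R π' σ q

theorem club_names (ht : ∀ p, R p p → R p t) (hR : Fo R) : ∀ᶠ N in Club, ∀ G : Set U, GG N R G →
    t ∈ G ∧ (∀ σ τ : Nm U, In N σ → In N τ →
      In N (insN t σ τ) ∧ val N G (insN t σ τ) = insert (val N G σ) (val N G τ)) ∧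
    (In N (eN : Nm U) ∧ val N G eN = ∅) ∧ (∀ n, In N (nN t n) ∧ val N G (nN t n) = natC n) ∧
    (∀ g : ℕ → Nm U, (∀ n, In N (g n)) → val N G (rngN t g) = ZFSet.range fun n => val N G (g n)) ∧
    (∀ g : ℕ → Nm U, (∀ n, In N (g n)) → val N G (seqN t g) = seqC fun n => val N G (g n)) ∧
    (∀ σ τ : Nm U, In N σ → In N τ →
      In N (opN t σ τ) ∧ val N G (opN t σ τ) = ZFSet.pair (val N G σ) (val N G τ)) := by
  filter_upwards [club_countable, club_ne, clo0 (eN : Nm U), clo2 (insN t)] with N hc ne he hi G hG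
  obtain ⟨q, hq⟩ := ne G hG
  have h1 : t ∈ G := hG.f.1 q hq t (ht q (hG.f.self hR hq))
  have h2 : ∀ σ τ : Nm U, In N σ → In N τ →
      In N (insN t σ τ) ∧ val N G (insN t σ τ) = insert (val N G σ) (val N G τ) := by
    refine fun σ τ hσ hτ => ⟨hi σ τ hσ hτ, ?_⟩
    ext x
    simp only [mem_val hc, ch_insN, ZFSet.mem_insert_iff]
    constructor
    · rintro ⟨π, s, ⟨rfl, rfl⟩ | h, k⟩
      exacts [Or.inl k.2.2, Or.inr ⟨π, s, h, k⟩]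
    · rintro (rfl | ⟨π, s, h, k⟩)
      exacts [⟨σ, t, Or.inl ⟨rfl, rfl⟩, h1, hσ, rfl⟩, ⟨π, s, Or.inr h, k⟩]
  have h3 := val_eN hc G
  have h4 : ∀ n, In N (nN t n) ∧ val N G (nN t n) = natC n := by
    intro n
    induction n with
    | zero => exact ⟨he, h3⟩
    | succ n ih => exact ⟨(h2 _ _ ih.1 ih.1).1, by rw [nN, (h2 _ _ ih.1 ih.1).2, ih.2, natC]⟩
  have h5 : ∀ g : ℕ → Nm U, (∀ n, In N (g n)) →
      val N G (rngN t g) = ZFSet.range fun n => val N G (g n) := by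
    intro g hg
    ext x
    simp only [mem_val hc, rngN, ch_famN, ZFSet.mem_range]
    exact ⟨fun ⟨_, _, ⟨⟨n, h⟩, _⟩, _, _, k⟩ => ⟨n.down, by rw [h, k]⟩,
      fun ⟨n, h⟩ => ⟨_, t, ⟨⟨⟨n⟩, rfl⟩, rfl⟩, h1, hg n, h.symm⟩⟩
  have h6 : ∀ σ τ : Nm U, In N σ → In N τ →
      In N (opN t σ τ) ∧ val N G (opN t σ τ) = ZFSet.pair (val N G σ) (val N G τ) := by
    intro σ τ hσ hτ
    have a1 := h2 σ eN hσ he
    have a2 := h2 τ eN hτ he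
    have a3 := h2 σ _ hσ a2.1
    have a4 := h2 _ eN a3.1 he
    have a5 := h2 _ _ a1.1 a4.1
    refine ⟨a5.1, ?_⟩
    rw [opN, a5.2, a4.2, a3.2, a2.2, a1.2, h3]
    simp [ZFSet.pair]
  refine ⟨h1, h2, ⟨he, h3⟩, h4, h5, fun g hg => ?_, h6⟩
  rw [seqN, h5 _ fun n => (h6 _ _ (h4 n).1 (hg n)).1, seqC]
  simp only [fun n => (h6 _ _ (h4 n).1 (hg n)).2, fun n => (h4 n).2]

theorem club_zfc (ht : ∀ p, R p p → R p t) (hR : Fo R) :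
    ∀ᶠ N in Club, ∀ G : Set U, GG N R G → IsZFC (Mod N G) := by
  filter_upwards [club_countable, club_names ht hR, club_mem hR, club_sat hR, club_list,
    clo_pair (Nm U) (Nm U), clo1 (unN R), clo1 (powN R t), clo0 (rngN t (nN t)),
    clo2 fun τ ζ : Nm U => sepN τ fun π r => FMem R π ζ r ∧ FMem R π τ r,
    club_all fun φ : Fm => clo2 fun τ v => sepN τ fun π r => FMem R π τ r ∧ FF R φ (π :: v) r,
    club_all fun φ : Fm => clo2 (colN R t φ),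
    club_all fun φ : Fm => clo3' fun (v : List (Nm U)) (σ : Nm U) (r : U) =>
      Classical.epsilon fun π => FF R φ (π :: σ :: v) r,
    club_all fun φ : Fm => club_wit1 hR fun (v : List (Nm U)) r (r' : U) => r' = r ∧ FF R φ v r,
    club_wit1 hR fun (z : Nm U × Nm U) r σ => ∃ s s', Ch z.1 σ s ∧ Ch σ z.2 s' ∧ R r s ∧ R r s',
    clo1 fun τ => sepN (unN R τ) fun π r => ∃ σ, ChP R τ π r σ,
    club_wit1 hR fun (z : Nm U × Nm U) r σ => ChP R z.1 z.2 r σ,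
    club_wit2 hR fun (z : Nm U × Nm U) r π => (∃ s, Ch (unN R z.1) π s) ∧ ChP R z.1 π r z.2]
    with N hc nm cm cs cl cp c1 c2 c3 c4 c5 c6 c7 w0 w1 c8 w2 w3 G hG
  obtain ⟨n1, n2, n3, n4, n5, -⟩ := nm G hG
  have lift : ∀ v : List V, (∀ x ∈ v, x ∈ Mod N G) →
      ∃ w : List (Nm U), (∀ τ ∈ w, In N τ) ∧ w.map (val N G) = v := by
    intro v hv
    induction v with
    | nil => exact ⟨[], by simp, rfl⟩
    | cons a v ih =>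
      obtain ⟨τ, h1, rfl⟩ := hv a List.mem_cons_self
      obtain ⟨w, h2, rfl⟩ := ih fun x hx => hv x (List.mem_cons_of_mem _ hx)
      exact ⟨τ :: w, List.forall_mem_cons.2 ⟨h1, h2⟩, rfl⟩
  refine ⟨?_, ?_, ?_, ?_, ?_, ?_, ?_, ?_⟩
  · rintro _ ⟨τ, -, rfl⟩ y hy
    obtain ⟨π, -, -, -, h, rfl⟩ := (mem_val hc).1 hy
    exact ⟨π, h, rfl⟩
  · rintro _ ⟨σ, hσ, rfl⟩ _ ⟨τ, hτ, rfl⟩
    have a2 := n2 τ eN hτ n3.1
    have a3 := n2 σ _ hσ a2.1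
    exact ⟨_, a3.1, by rw [a3.2, a2.2, n3.2]; simp⟩
  · rintro _ ⟨τ, hτ, rfl⟩
    refine ⟨_, c1 τ hτ, ?_⟩
    ext x
    simp only [ZFSet.mem_sUnion, mem_val hc (τ := unN R τ), ch_unN]
    constructor
    · rintro ⟨π, r, h1, h2, h3, rfl⟩
      obtain ⟨r', k1, σ, k2, s, s', k3, k4, k5, k6⟩ := w1 G hG (τ, π) ((cp _ _).2 ⟨hτ, h3⟩)
        ⟨r, h2, h1⟩
      exact ⟨_, (mem_val hc).2 ⟨σ, s, k3, hG.f.1 _ k1 _ k5, k2, rfl⟩,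
        (mem_val hc).2 ⟨π, s', k4, hG.f.1 _ k1 _ k6, h3, rfl⟩⟩
    · rintro ⟨y, h1, h2⟩
      obtain ⟨σ, s, k1, k2, -, rfl⟩ := (mem_val hc).1 h1
      obtain ⟨π, s', k3, k4, k5, rfl⟩ := (mem_val hc).1 h2
      obtain ⟨r, k6, k7⟩ := hG.f.2 s k2 s' k4
      exact ⟨π, r, ⟨σ, s, s', k1, k3, k7⟩, k6, k5, rfl⟩
  · rintro _ ⟨τ, hτ, rfl⟩
    refine ⟨_, ⟨_, c2 τ hτ, rfl⟩, ?_⟩
    rintro _ ⟨ζ, hζ, rfl⟩
    rw [mem_val hc]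
    constructor
    · rintro ⟨σ, s, h1, -, -, h2⟩ x hx
      obtain ⟨⟨S, rfl⟩, -⟩ := ch_famN.1 h1
      obtain ⟨π, r, ⟨⟨⟨i, r⟩, k1⟩, rfl, rfl⟩, k2, k3, rfl⟩ := (mem_val hc).1 (h2 ▸ hx)
      exact (cm G hG _ _ k3 hτ).2 ⟨r, k2, k1.2⟩
    · intro h
      refine ⟨_, t, ch_famN.2 ⟨⟨{z | FMem R (τ.sub z.1) ζ z.2}, rfl⟩, rfl⟩, n1, c4 τ ζ hτ hζ, ?_⟩
      ext x
      refine Iff.trans ?_ (mem_val hc (τ := sepN τ fun π r => FMem R π ζ r ∧ FMem R π τ r)).symm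
      simp only [ch_sepN]
      constructor
      · intro hx
        obtain ⟨π, s, k1, k2, k3, rfl⟩ := (mem_val hc).1 (h hx)
        obtain ⟨p, k4, k5⟩ := (cm G hG _ _ k3 hζ).1 hx
        obtain ⟨p', k6, k7⟩ := (cm G hG _ _ k3 hτ).1 (h hx)
        obtain ⟨r, k8, k9, k10⟩ := hG.f.2 p k4 p' k6
        exact ⟨π, r, ⟨⟨s, k1⟩, k5.le hR k9, k7.le hR k10⟩, k8, k3, rfl⟩
      · rintro ⟨π, r, ⟨-, k1, -⟩, k2, k3, rfl⟩
        exact (cm G hG _ _ k3 hζ).2 ⟨r, k2, k1⟩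
  · refine ⟨_, ⟨_, c3, rfl⟩, ?_⟩
    rw [n5 _ fun n => (n4 n).1]
    simp only [fun n => (n4 n).2, ZFSet.mem_range]
    exact ⟨⟨0, rfl⟩, fun x ⟨n, h⟩ => ⟨n + 1, h ▸ rfl⟩⟩
  · rintro φ v hv _ ⟨τ, hτ, rfl⟩
    obtain ⟨w, hw, rfl⟩ := lift v hv
    refine ⟨_, ⟨_, c5 φ τ w hτ (cl w hw), rfl⟩, fun x => ?_⟩
    simp only [mem_val hc (τ := sepN _ _), ch_sepN]
    constructor
    · rintro ⟨π, r, ⟨-, k1, k2⟩, k3, k4, rfl⟩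
      exact ⟨(cm G hG _ _ k4 hτ).2 ⟨r, k3, k1⟩,
        (cs G hG φ (π :: w) (List.forall_mem_cons.2 ⟨k4, hw⟩)).2 ⟨r, k3, k2⟩⟩
    · rintro ⟨h1, h2⟩
      obtain ⟨π, s, k1, k2, k3, rfl⟩ := (mem_val hc).1 h1
      obtain ⟨p, k4, k5⟩ := (cm G hG _ _ k3 hτ).1 h1
      obtain ⟨p', k6, k7⟩ := (cs G hG φ (π :: w) (List.forall_mem_cons.2 ⟨k3, hw⟩)).1 h2
      obtain ⟨r, k8, k9, k10⟩ := hG.f.2 p k4 p' k6
      exact ⟨π, r, ⟨⟨s, k1⟩, k5.le hR k9, k7.le hR k10⟩, k8, k3, rfl⟩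
  · rintro φ v hv _ ⟨τ, hτ, rfl⟩ h
    obtain ⟨w, hw, rfl⟩ := lift v hv
    refine ⟨_, ⟨_, c6 φ w τ (cl w hw) hτ, rfl⟩, fun x hx => ?_⟩
    obtain ⟨σ, s, ⟨i, rfl, rfl⟩, -, k3, rfl⟩ := (mem_val hc).1 hx
    obtain ⟨_, ⟨π, k4, rfl⟩, k5⟩ := h _ hx
    have k0 := List.forall_mem_cons.2 ⟨k4, List.forall_mem_cons.2 ⟨k3, hw⟩⟩
    obtain ⟨p, k6, k7⟩ := (cs G hG φ (π :: _ :: w) k0).1 k5
    obtain ⟨r, k8, _, k9, rfl, k10⟩ := w0 φ G hG _ (cl _ k0) ⟨p, k6, p, rfl, k7⟩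
    have k11 := c7 φ w _ _ (cl w hw) k3 k9
    exact ⟨_, (mem_val hc).2 ⟨_, t, ch_famN.2 ⟨⟨(i, _), rfl⟩, rfl⟩, n1, k11, rfl⟩,
      (cs G hG φ (_ :: _ :: w) (List.forall_mem_cons.2 ⟨k11, List.forall_mem_cons.2 ⟨k3, hw⟩⟩)).2
        ⟨_, k8, Classical.epsilon_spec (p := fun π => FF R φ (π :: _ :: w) _) ⟨π, k10⟩⟩⟩
  · rintro _ ⟨τ, hτ, rfl⟩ h1 h2
    refine ⟨_, ⟨_, c8 τ hτ, rfl⟩, fun x hx => ?_⟩
    obtain ⟨σ, s, k1, k2, k3, rfl⟩ := (mem_val hc).1 hx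
    have key : ∀ z, z ∈ val N G σ ∧ z ∈ val N G (sepN (unN R τ) fun π r => ∃ σ, ChP R τ π r σ) →
        ∃ π, In N π ∧ z = val N G π ∧ (∃ s, Ch (unN R τ) π s) ∧
          ∀ π' s', In N π' → Ch (unN R τ) π' s' → WellOrderingRel π' π →
            val N G π' ∉ val N G σ := by
      rintro z ⟨a1, a2⟩
      obtain ⟨π, r, a3, a4, a5, rfl⟩ := (mem_val hc).1 a2
      obtain ⟨a6, a7⟩ := ch_sepN.1 a3
      obtain ⟨r', b1, σ', b2, s', b3, b4, b5, b6⟩ := w2 G hG (τ, π) ((cp _ _).2 ⟨hτ, a5⟩)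
        ⟨r, a4, a7⟩
      have e : val N G σ = val N G σ' := by
        by_contra e
        exact h2 _ hx _ ((mem_val hc).2 ⟨σ', s', b3, hG.f.1 _ b1 _ b4, b2, rfl⟩) e _ a1
          ((cm G hG _ _ a5 b2).2 ⟨r', b1, b5⟩)
      refine ⟨π, a5, rfl, a6, fun π' s'' d1 d2 d3 d4 => ?_⟩
      obtain ⟨p, d5, d6⟩ := (cm G hG _ _ d1 b2).1 (e ▸ d4)
      obtain ⟨q, -, d7, d8⟩ := hG.f.2 r' b1 p d5
      exact b6 π' s'' d2 d3 q d7 (d6.le hR d8)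
    obtain ⟨y, hy⟩ := (ZFSet.eq_empty_or_nonempty _).resolve_left (h1 _ hx)
    obtain ⟨π0, s0, a1, a2, a3, rfl⟩ := (mem_val hc).1 hy
    obtain ⟨p, a4, a5⟩ := (cm G hG _ _ a3 k3).1 hy
    obtain ⟨q, a6, a7, a8, a9⟩ := hG.f.three hR k2 a2 a4
    obtain ⟨r, b1, π, b2, b3, b4⟩ := w3 G hG (τ, σ) ((cp _ _).2 ⟨hτ, k3⟩) ⟨q, a6, fun r hr => by
      obtain ⟨π, ⟨d1, r', d2, d3⟩, d4⟩ := (WellOrderingRel.isWellOrder (α := Nm U)).wf.has_min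
        {π | (∃ s, Ch (unN R τ) π s) ∧ ∃ r', R r' r ∧ FMem R π σ r'}
        ⟨π0, ⟨q, ch_unN.2 ⟨σ, s, s0, k1, a1, a7, a8⟩⟩, r, hR.l hr, a5.le hR (hR.tr hr a9)⟩
      exact ⟨r', π, d2, d1, s, k1, hR.tr d2 (hR.tr hr a7), d3, fun π' s' e1 e2 q' e3 e4 =>
        d4 π' ⟨⟨s', e1⟩, q', hR.tr e3 d2, e4⟩ e2⟩⟩
    have b5 : val N G π ∈ val N G σ ∧
        val N G π ∈ val N G (sepN (unN R τ) fun π r => ∃ σ, ChP R τ π r σ) :=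
      ⟨let ⟨_, _, _, k, _⟩ := b4; (cm G hG _ _ b2 k3).2 ⟨r, b1, k⟩,
        (mem_val hc).2 ⟨π, r, ch_sepN.2 ⟨b3, σ, b4⟩, b1, b2, rfl⟩⟩
    refine ⟨_, b5, fun z hz => ?_⟩
    obtain ⟨π1, d1, d2, ⟨s1, d3⟩, d4⟩ := key _ b5
    obtain ⟨π2, e1, e2, ⟨s2, e3⟩, e4⟩ := key _ hz
    rcases trichotomous_of WellOrderingRel π1 π2 with h | h | h
    · exact (e4 π1 s1 d1 d3 h (d2 ▸ b5.1)).elim
    · rw [e2, d2, h]
    · exact (d4 π2 s2 e1 e3 h (e2 ▸ hz.1)).elim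

end Pool.Agent.Lib.MP_fecf72_lc
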